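import Mathlib

/-!
# Functions `u : F ^ 3 → F ^ 3` with `(a - a') · (u a - u a') ≠ 0` for `a ≠ a'`

The functions come from the unitary ovoids of the quadric `Q⁺(7, q)`, `q ≢ 1` mod `3` (Kantor).
-/

set_option autoImplicit false

namespace Pool.Agent.NS98.B

variable {F : Type} [Field F]

/-- The scalar product of two vectors of `F ^ 3`. -/
def dt (s t : Fin 3 → F) : F := s 0 * t 0 + s 1 * t 1 + s 2 * t 2

/-- The function for `q ≡ 2` mod `3`. -/
def uA (t : Fin 3 → F) : Fin 3 → F :=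
  ![3 * t 1 * t 2 + (2 * t 1 - t 0) * (t 0 * t 0 - t 0 * t 1 + t 1 * t 1),
    -3 * t 0 * t 2 - (t 0 + t 1) * (t 0 * t 0 - t 0 * t 1 + t 1 * t 1),
    -3 * (t 2 + (t 0 * t 0 - t 0 * t 1 + t 1 * t 1))]

/-- The function for `q` an odd power of `3`. -/
def uB (t : Fin 3 → F) : Fin 3 → F :=
  ![t 0 * (t 0 * t 0 + t 1 * t 1) + t 1 * t 2,
    t 1 * (t 0 * t 0 + t 1 * t 1) - t 0 * t 2,
    t 2]

theorem uA_ne (hN : ∀ x y : F, x * x - x * y + y * y = 0 → x = 0 ∧ y = 0) (s t : Fin 3 → F)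
    (h : dt (s - t) (uA s - uA t) = 0) : s = t := by
  have key : dt (s - t) (uA s - uA t) = -(((s 2 - t 2) + (s 0 - t 0) * (t 0 - t 1) + (s 1 - t 1) * t 1)
      * ((s 2 - t 2) + (s 0 - t 0) * (t 0 - t 1) + (s 1 - t 1) * t 1)
      - ((s 2 - t 2) + (s 0 - t 0) * (t 0 - t 1) + (s 1 - t 1) * t 1)
      * (2 * (s 2 - t 2) + (s 0 * s 0 - s 0 * s 1 + s 1 * s 1) - (t 0 * t 0 - t 0 * t 1 + t 1 * t 1)
        + (s 1 - t 1) * t 0 - (s 0 - t 0) * t 1)
      + (2 * (s 2 - t 2) + (s 0 * s 0 - s 0 * s 1 + s 1 * s 1) - (t 0 * t 0 - t 0 * t 1 + t 1 * t 1)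
        + (s 1 - t 1) * t 0 - (s 0 - t 0) * t 1)
      * (2 * (s 2 - t 2) + (s 0 * s 0 - s 0 * s 1 + s 1 * s 1) - (t 0 * t 0 - t 0 * t 1 + t 1 * t 1)
        + (s 1 - t 1) * t 0 - (s 0 - t 0) * t 1)) := by
    simp only [dt, uA, Pi.sub_apply, Matrix.cons_val_zero, Matrix.cons_val_one, Matrix.cons_val]
    ring
  rw [key, neg_eq_zero] at h
  obtain ⟨hP, hQ⟩ := hN _ _ h
  have h2 : (s 0 - t 0) * (s 0 - t 0) - (s 0 - t 0) * (s 1 - t 1) + (s 1 - t 1) * (s 1 - t 1)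
      = 0 := by
    linear_combination hQ - 2 * hP
  obtain ⟨h0, h1⟩ := hN _ _ h2
  have h3 : s 2 - t 2 = 0 := by
    rw [h0, h1] at hP
    linear_combination hP
  ext i
  fin_cases i
  · exact sub_eq_zero.1 h0
  · exact sub_eq_zero.1 h1
  · exact sub_eq_zero.1 h3

theorem uB_ne (h3 : (3 : F) = 0) (hN : ∀ x y : F, x * x + y * y = 0 → x = 0 ∧ y = 0)
    (s t : Fin 3 → F) (h : dt (s - t) (uB s - uB t) = 0) : s = t := by
  have key : ((s 0 * s 0 + s 1 * s 1) - (t 0 * t 0 + t 1 * t 1) + (s 0 - t 0) * t 0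
        + (s 1 - t 1) * t 1)
      * ((s 0 * s 0 + s 1 * s 1) - (t 0 * t 0 + t 1 * t 1) + (s 0 - t 0) * t 0
        + (s 1 - t 1) * t 1)
      + ((s 2 - t 2) + (s 1 - t 1) * t 0 - (s 0 - t 0) * t 1)
      * ((s 2 - t 2) + (s 1 - t 1) * t 0 - (s 0 - t 0) * t 1) = 0 := by
    simp only [dt, uB, Pi.sub_apply, Matrix.cons_val_zero, Matrix.cons_val_one, Matrix.cons_val] at h
    generalize s 0 = a at *
    generalize s 1 = b at *
    generalize s 2 = c at *
    generalize t 0 = A at *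
    generalize t 1 = B at *
    generalize t 2 = C at *
    linear_combination h - (-1*a^3*A -1*a^2*b*B +1*a^2*A^2 +1*a^2*B^2 -1*a*b^2*A +1*a*c*B
      +1*a*A^3 +1*a*A*B^2 -1*a*B*C -1*b^3*B +1*b^2*A^2 +1*b^2*B^2 -1*b*c*A +1*b*A^2*B
      +1*b*A*C +1*b*B^3 -1*A^4 -2*A^2*B^2 -1*B^4) * h3
  obtain ⟨hP, hQ⟩ := hN _ _ key
  have h2 : (s 0 - t 0) * (s 0 - t 0) + (s 1 - t 1) * (s 1 - t 1) = 0 := by
    linear_combination (-2) * hP + ((s 0 * s 0 + s 1 * s 1) - (t 0 * t 0 + t 1 * t 1)) * h3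
  obtain ⟨h0, h1⟩ := hN _ _ h2
  have h4 : s 2 - t 2 = 0 := by
    rw [h0, h1] at hQ
    linear_combination hQ
  ext i
  fin_cases i
  · exact sub_eq_zero.1 h0
  · exact sub_eq_zero.1 h1
  · exact sub_eq_zero.1 h4

theorem normA [Finite F] (hF : Nat.card F % 3 = 2) (x y : F) (h : x * x - x * y + y * y = 0) :
    x = 0 ∧ y = 0 := by
  classical
  have := Fintype.ofFinite F
  by_cases hy : y = 0
  · subst hy
    refine ⟨?_, rfl⟩
    have : x * x = 0 := by linear_combination h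
    exact mul_self_eq_zero.1 this
  exfalso
  have hz0 : x ≠ 0 := by
    intro hx
    rw [hx] at h
    apply hy
    have : y * y = 0 := by linear_combination h
    exact mul_self_eq_zero.1 this
  -- `z = - x / y` has `z ^ 2 + z + 1 = 0`
  obtain ⟨z, hz⟩ : ∃ z : F, z = -(x / y) := ⟨_, rfl⟩
  have h1 : z * z + z + 1 = 0 := by
    rw [hz]
    field_simp
    linear_combination h
  have hzne : z ≠ 0 := by
    rw [hz]
    exact neg_ne_zero.2 (div_ne_zero hz0 hy)
  have h3 : z ^ 3 = 1 := by linear_combination (z - 1) * h1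
  have hcard : 2 ≤ Fintype.card F := Fintype.one_lt_card
  rw [Nat.card_eq_fintype_card] at hF
  have h4 : z ^ (Fintype.card F - 1) = 1 := FiniteField.pow_card_sub_one_eq_one z hzne
  obtain ⟨k, hk⟩ : ∃ k, Fintype.card F - 1 = 3 * k + 1 := ⟨(Fintype.card F - 2) / 3, by omega⟩
  rw [hk, pow_succ, pow_mul, h3, one_pow, one_mul] at h4
  rw [h4] at h1
  -- `3 = 0` in `F`
  have h5 : ((3 : ℕ) : F) = 0 := by push_cast; linear_combination h1
  obtain ⟨p, hp⟩ := CharP.exists F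
  have hp3 : p ∣ 3 := (CharP.cast_eq_zero_iff F p 3).1 h5
  have hpp : p.Prime := CharP.char_is_prime F p
  have hp' : p = 3 := (Nat.prime_dvd_prime_iff_eq hpp Nat.prime_three).1 hp3
  subst hp'
  obtain ⟨n, hn⟩ := FiniteField.card F 3
  obtain ⟨-, hn⟩ := hn
  have h6 : 3 ∣ Fintype.card F := by
    rw [hn]
    exact dvd_pow_self 3 n.ne_zero
  omega

theorem normB [Finite F] (hF : Nat.card F % 4 = 3) (x y : F) (h : x * x + y * y = 0) :
    x = 0 ∧ y = 0 := by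
  classical
  have := Fintype.ofFinite F
  rw [Nat.card_eq_fintype_card] at hF
  have hns : ¬ IsSquare (-1 : F) := by
    rw [FiniteField.isSquare_neg_one_iff]
    omega
  by_cases hy : y = 0
  · subst hy
    refine ⟨?_, rfl⟩
    have : x * x = 0 := by linear_combination h
    exact mul_self_eq_zero.1 this
  exfalso
  apply hns
  refine ⟨x / y, ?_⟩
  field_simp
  linear_combination -h

theorem exists_u (F : Type) [Field F] [Finite F] (hF : Nat.card F % 12 = 3 ∨ Nat.card F % 12 = 11) :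
    ∃ u : (Fin 3 → F) → (Fin 3 → F), ∀ s t, dt (s - t) (u s - u t) = 0 → s = t := by
  rcases hF with hF | hF
  · refine ⟨uB, uB_ne ?_ (normB (by omega))⟩
    have := Fintype.ofFinite F
    rw [Nat.card_eq_fintype_card] at hF
    obtain ⟨p, hp⟩ := CharP.exists F
    have hpp : p.Prime := CharP.char_is_prime F p
    obtain ⟨n, -, hn⟩ := FiniteField.card F p
    have h3 : 3 ∣ p ^ (n : ℕ) := by
      rw [← hn]
      omega
    have hp' : 3 = p := (Nat.prime_dvd_prime_iff_eq Nat.prime_three hpp).1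
      (Nat.prime_three.dvd_of_dvd_pow h3)
    subst hp'
    have := CharP.cast_eq_zero F 3
    exact_mod_cast this
  · exact ⟨uA, uA_ne (normA (by omega))⟩

end Pool.Agent.NS98.B
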