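import Pool.Agent.NS98.B7Base
import Pool.Agent.NS98.B7Ovoid

/-!
# `Ω(7, q)`, `q ≡ 3, 11` mod `12`: the two-sided action is not synchronizing
-/

set_option autoImplicit false
set_option linter.unusedSectionVars false

namespace Pool.Agent.NS98.B

open Module Equiv

section Field

variable {F K : Type} [Field F] [Field K] [Finite K] [Algebra F K]

/-- Multiplication by a unit. -/
def mulU (F : Type) {K : Type} [Field F] [Field K] [Algebra F K] (k : Kˣ) : K ≃ₗ[F] K where
  toFun x := (k : K) * x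
  invFun x := ((k⁻¹ : Kˣ) : K) * x
  map_add' x y := mul_add _ _ _
  map_smul' a x := by simp [Algebra.smul_def]; ring
  left_inv x := by simp
  right_inv x := by simp

theorem mulU_apply (k : Kˣ) (x : K) : mulU F k x = (k : K) * x := rfl

theorem mulU_symm_apply (k : Kˣ) (x : K) : (mulU F k).symm x = ((k⁻¹ : Kˣ) : K) * x := rfl

theorem hat_mulU_mul (k l : Kˣ) :
    hat (mulU F (k * l)) = (hat (mulU F k) * hat (mulU F l) : OW F K) := by
  apply ow_ext
  intro v
  rw [ow_mul, ow_hat, ow_hat, ow_hat]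
  refine Prod.ext rfl (Prod.ext ?_ ?_)
  · show ((k * l : Kˣ) : K) * v.2.1 = (k : K) * ((l : K) * v.2.1)
    rw [Units.val_mul, mul_assoc]
  · apply LinearMap.ext
    intro z
    show v.2.2 ((((k * l)⁻¹ : Kˣ) : K) * z) = v.2.2 (((l⁻¹ : Kˣ) : K) * (((k⁻¹ : Kˣ) : K) * z))
    rw [mul_inv, Units.val_mul]
    congr 1
    ring

theorem hat_mulU_one : hat (mulU F (1 : Kˣ)) = (1 : OW F K) := by
  apply ow_ext
  intro v
  rw [ow_hat]
  show _ = v
  refine Prod.ext rfl (Prod.ext ?_ ?_)
  · show ((1 : Kˣ) : K) * v.2.1 = v.2.1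
    simp
  · apply LinearMap.ext
    intro z
    show v.2.2 (((1⁻¹ : Kˣ) : K) * z) = v.2.2 z
    simp

/-- The identification of `K` with its dual given by the trace form. -/
noncomputable def bt (F K : Type) [Field F] [Field K] [Finite K] [Algebra F K] : K ≃ₗ[F] Dual F K :=
  (Algebra.traceForm F K).toDual (traceForm_nondegenerate F K)

theorem bt_apply (x y : K) : bt F K x y = Algebra.trace F K (x * y) := by
  unfold bt
  rw [LinearMap.BilinForm.toDual_def, Algebra.traceForm_apply]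

/-- The isometry exchanging `K` and its dual. -/
noncomputable def sg (F K : Type) [Field F] [Field K] [Finite K] [Algebra F K] : OW F K :=
  ⟨LinearEquiv.prodCongr (LinearEquiv.refl F F)
    ((LinearEquiv.prodComm F K (Dual F K)).trans (LinearEquiv.prodCongr (bt F K).symm (bt F K))), by
    intro v
    show v.1 * v.1 + (bt F K v.2.1) ((bt F K).symm v.2.2) = v.1 * v.1 + v.2.2 v.2.1
    rw [bt_apply, mul_comm (v.2.1), ← bt_apply, LinearEquiv.apply_symm_apply]⟩

theorem ow_sg (v : F × K × Dual F K) :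
    ow (sg F K) v = (v.1, (bt F K).symm v.2.2, bt F K v.2.1) := rfl

theorem sg_hat (k : Kˣ) :
    sg F K * hat (mulU F k) = hat (mulU F k⁻¹) * sg F K := by
  apply ow_ext
  intro v
  rw [ow_mul, ow_mul, ow_hat, ow_sg, ow_sg, ow_hat]
  refine Prod.ext rfl (Prod.ext ?_ ?_)
  · show (bt F K).symm (v.2.2 ∘ₗ (mulU F k).symm.toLinearMap) = mulU F k⁻¹ ((bt F K).symm v.2.2)
    rw [LinearEquiv.symm_apply_eq]
    apply LinearMap.ext
    intro z
    rw [bt_apply, mulU_apply]
    show v.2.2 (((k⁻¹ : Kˣ) : K) * z) = _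
    rw [show ((k⁻¹ : Kˣ) : K) * (bt F K).symm v.2.2 * z
      = (bt F K).symm v.2.2 * (((k⁻¹ : Kˣ) : K) * z) by ring, ← bt_apply,
      LinearEquiv.apply_symm_apply]
  · apply LinearMap.ext
    intro z
    show bt F K ((k : K) * v.2.1) z = bt F K v.2.1 (((k⁻¹⁻¹ : Kˣ) : K) * z)
    rw [bt_apply, bt_apply, inv_inv]
    congr 1
    ring

/-- Multiplication by a square gives an element of the commutator subgroup. -/
theorem hat_mem (k : Kˣ) : hat (mulU F (k * k)) ∈ commutator (OW F K) := by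
  rw [← Abelianization.ker_of, MonoidHom.mem_ker]
  have h1 := congrArg Abelianization.of (sg_hat (F := F) k)
  rw [map_mul, map_mul, mul_comm] at h1
  have h2 := mul_right_cancel h1
  have h3 : (hat (mulU F k⁻¹) : OW F K) * hat (mulU F k) = 1 := by
    rw [← hat_mulU_mul, inv_mul_cancel, hat_mulU_one]
  have h4 := congrArg Abelianization.of h3
  rw [map_mul, map_one] at h4
  rw [hat_mulU_mul, map_mul]
  nth_rewrite 1 [h2]
  exact h4

end Field

section Rho

variable {F K : Type} [Field F] [Field K] [Algebra F K]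

/-- The coordinate functionals. -/
noncomputable def cf (φ : (Fin 3 → F) ≃ₗ[F] K) (i : Fin 3) : Dual F K :=
  (LinearMap.proj i) ∘ₗ φ.symm.toLinearMap

theorem cf_apply (φ : (Fin 3 → F) ≃ₗ[F] K) (i : Fin 3) (w : K) : cf φ i w = φ.symm w i := rfl

/-- The functional with coordinates `t`. -/
noncomputable def fn (φ : (Fin 3 → F) ≃ₗ[F] K) (t : Fin 3 → F) : Dual F K :=
  t 0 • cf φ 0 + t 1 • cf φ 1 + t 2 • cf φ 2

theorem fn_apply (φ : (Fin 3 → F) ≃ₗ[F] K) (t : Fin 3 → F) (w : K) :
    fn φ t w = dt t (φ.symm w) := by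
  simp only [fn, LinearMap.add_apply, LinearMap.smul_apply, smul_eq_mul, cf_apply, dt]

/-- The alternating form `(w, w') ↦ det (s, w, w')`. -/
noncomputable def cr (φ : (Fin 3 → F) ≃ₗ[F] K) (s : Fin 3 → F) : K →ₗ[F] K →ₗ[F] F :=
  wg (s 0 • cf φ 1) (cf φ 2) + wg (s 1 • cf φ 2) (cf φ 0) + wg (s 2 • cf φ 0) (cf φ 1)

theorem cr_apply (φ : (Fin 3 → F) ≃ₗ[F] K) (s : Fin 3 → F) (x y : K) :
    cr φ s x y = s 0 * (φ.symm x 1 * φ.symm y 2 - φ.symm x 2 * φ.symm y 1)
      + s 1 * (φ.symm x 2 * φ.symm y 0 - φ.symm x 0 * φ.symm y 2)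
      + s 2 * (φ.symm x 0 * φ.symm y 1 - φ.symm x 1 * φ.symm y 0) := by
  simp only [cr, LinearMap.add_apply, wg_apply, LinearMap.smul_apply, smul_eq_mul, cf_apply]
  ring

theorem cr_self (φ : (Fin 3 → F) ≃ₗ[F] K) (s : Fin 3 → F) (x : K) : cr φ s x x = 0 := by
  rw [cr_apply]; ring

theorem rho_cr_mem (h2 : (2 : F) ≠ 0) (φ : (Fin 3 → F) ≃ₗ[F] K) (s : Fin 3 → F) :
    rho 0 (cr φ s) (cr_self φ s) ∈ commutator (OW F K) := by
  have e1 : ∀ w, (wg (s 0 • cf φ 1) (cf φ 2) + wg (s 1 • cf φ 2) (cf φ 0)) w w = 0 := by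
    intro w
    show wg (s 0 • cf φ 1) (cf φ 2) w w + wg (s 1 • cf φ 2) (cf φ 0) w w = 0
    rw [wg_self, wg_self, add_zero]
  have h : rho 0 (cr φ s) (cr_self φ s)
      = (rho 0 (wg (s 0 • cf φ 1) (cf φ 2)) (wg_self _ _)
        * rho 0 (wg (s 1 • cf φ 2) (cf φ 0)) (wg_self _ _))
        * rho 0 (wg (s 2 • cf φ 0) (cf φ 1)) (wg_self _ _) := by
    rw [rho_mul_zero _ _ _ _ e1, rho_mul_zero _ _ _ _ (cr_self φ s)]
    rfl
  rw [h]
  exact Subgroup.mul_mem _ (Subgroup.mul_mem _ (rho_wg_mem h2 _ _) (rho_wg_mem h2 _ _))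
    (rho_wg_mem h2 _ _)

theorem rho_fn_mem (h2 : (2 : F) ≠ 0) (φ : (Fin 3 → F) ≃ₗ[F] K) (t s : Fin 3 → F) :
    rho (fn φ t) (cr φ s) (cr_self φ s) ∈ commutator (OW F K) := by
  rw [rho_split]
  exact Subgroup.mul_mem _ (rho_mem h2 _) (rho_cr_mem h2 φ s)

/-- The key injectivity. -/
theorem key_inj (φ : (Fin 3 → F) ≃ₗ[F] K) {u : (Fin 3 → F) → (Fin 3 → F)}
    (hu : ∀ s t, dt (s - t) (u s - u t) = 0 → s = t) {x : F} {w : K} (hw : w ≠ 0)
    {f : Dual F K} {s t : Fin 3 → F} (h1 : x + fn φ s w = x + fn φ t w)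
    (h2 : f + cr φ (u s) w - (2 * x) • fn φ s - (fn φ s w) • fn φ s
      = f + cr φ (u t) w - (2 * x) • fn φ t - (fn φ t w) • fn φ t) : s = t := by
  have h3 : fn φ s w = fn φ t w := add_left_cancel h1
  -- the vector equation
  obtain ⟨y, hy⟩ : ∃ y : F, y = 2 * x + fn φ t w := ⟨_, rfl⟩
  have h4 : ∀ z : K, cr φ (u s - u t) w z = y * dt (s - t) (φ.symm z) := by
    intro z
    have h := LinearMap.congr_fun h2 z
    rw [h3] at h
    simp only [LinearMap.add_apply, LinearMap.sub_apply, LinearMap.smul_apply, smul_eq_mul] at h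
    have e1 : cr φ (u s - u t) w z = cr φ (u s) w z - cr φ (u t) w z := by
      simp only [cr_apply, Pi.sub_apply]; ring
    have e2 : dt (s - t) (φ.symm z) = fn φ s z - fn φ t z := by
      rw [fn_apply, fn_apply]
      simp only [dt, Pi.sub_apply]; ring
    rw [e1, e2, hy]
    linear_combination h
  obtain ⟨w', hw'⟩ : ∃ w' : Fin 3 → F, w' = φ.symm w := ⟨_, rfl⟩
  obtain ⟨d, hd⟩ : ∃ d : Fin 3 → F, d = u s - u t := ⟨_, rfl⟩
  obtain ⟨b, hb⟩ : ∃ b : Fin 3 → F, b = s - t := ⟨_, rfl⟩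
  have hbw : dt b w' = 0 := by
    rw [fn_apply, fn_apply] at h3
    rw [hb, hw']
    simp only [dt, Pi.sub_apply] at h3 ⊢
    linear_combination h3
  have h5 : ∀ z : Fin 3 → F, d 0 * (w' 1 * z 2 - w' 2 * z 1) + d 1 * (w' 2 * z 0 - w' 0 * z 2)
      + d 2 * (w' 0 * z 1 - w' 1 * z 0) = y * dt b z := by
    intro z
    have := h4 (φ z)
    rw [cr_apply, LinearEquiv.symm_apply_apply, ← hw', ← hd, ← hb] at this
    exact this
  apply hu
  rw [← hb, ← hd]
  by_contra hne
  -- `y = 0`
  have hy0 : y = 0 := by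
    have h6 := h5 d
    have h7 : y * dt b d = 0 := by
      rw [← h6]; ring
    rcases mul_eq_zero.1 h7 with h | h
    · exact h
    · exact absurd h hne
  -- `d × w' = 0`
  have c0 := h5 (Pi.single 0 1)
  have c1 := h5 (Pi.single 1 1)
  have c2 := h5 (Pi.single 2 1)
  rw [hy0] at c0 c1 c2
  have n01 : (0 : Fin 3) ≠ 1 := by decide
  have n02 : (0 : Fin 3) ≠ 2 := by decide
  have n12 : (1 : Fin 3) ≠ 2 := by decide
  simp only [Pi.single_eq_same, Pi.single_eq_of_ne n01, Pi.single_eq_of_ne n02,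
    Pi.single_eq_of_ne n12, Pi.single_eq_of_ne n01.symm, Pi.single_eq_of_ne n02.symm,
    Pi.single_eq_of_ne n12.symm, mul_one, mul_zero, zero_mul, sub_zero, zero_sub, zero_add,
    add_zero] at c0 c1 c2
  -- multiply with the coordinates of `w'`
  have hw0 : w' ≠ 0 := by
    rw [hw']
    intro h
    exact hw ((LinearEquiv.map_eq_zero_iff φ.symm).1 h)
  apply hne
  simp only [dt] at hbw ⊢
  by_cases a0 : w' 0 = 0
  · by_cases a1 : w' 1 = 0
    · have a2 : w' 2 ≠ 0 := by
        intro a2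
        apply hw0
        ext i
        fin_cases i
        · exact a0
        · exact a1
        · exact a2
      apply (mul_right_inj' a2).1
      linear_combination d 2 * hbw - b 0 * c1 + b 1 * c0
    · apply (mul_right_inj' a1).1
      linear_combination d 1 * hbw - b 2 * c0 + b 0 * c2
  · apply (mul_right_inj' a0).1
    linear_combination d 0 * hbw - b 1 * c2 + b 2 * c1

end Rho

section Count

variable {F K : Type} [Field F] [Field K] [Finite K] [Algebra F K]

/-- The key bijectivity: for `w ≠ 0` the maps `rho (fn t) (cr (u t))` move a point over `w` to all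
the points over `w`. -/
theorem key_surj [Finite F] (hK : finrank F K = 3) (φ : (Fin 3 → F) ≃ₗ[F] K)
    {u : (Fin 3 → F) → (Fin 3 → F)} (hu : ∀ s t, dt (s - t) (u s - u t) = 0 → s = t)
    {x : F} {w : K} (hw : w ≠ 0) {f : Dual F K} {x' : F} {f' : Dual F K}
    (h : x' * x' + f' w = x * x + f w) :
    ∃ t : Fin 3 → F, x + fn φ t w = x' ∧
      f + cr φ (u t) w - (2 * x) • fn φ t - (fn φ t w) • fn φ t = f' := by
  have hev : Module.Dual.eval F K w ≠ 0 := by
    intro h0
    apply hw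
    exact (Module.eval_apply_eq_zero_iff F w).1 h0
  obtain ⟨f₀, hf₀⟩ : ∃ f₀ : Dual F K, f₀ w = 1 := by
    obtain ⟨g, hg⟩ : ∃ g : Dual F K, g w ≠ 0 := by
      by_contra hcon
      push Not at hcon
      apply hev
      apply LinearMap.ext
      intro g
      exact hcon g
    refine ⟨(g w)⁻¹ • g, ?_⟩
    show (g w)⁻¹ * g w = 1
    exact inv_mul_cancel₀ hg
  have hfin : finrank F (LinearMap.ker (Module.Dual.eval F K w)) = 2 := by
    have h := Module.Dual.finrank_ker_add_one_of_ne_zero hev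
    rw [Subspace.dual_finrank_eq, hK] at h
    omega
  -- the image of `t`
  let X : (Fin 3 → F) → F := fun t => x + fn φ t w
  let Y : (Fin 3 → F) → Dual F K := fun t =>
    f + cr φ (u t) w - (2 * x) • fn φ t - (fn φ t w) • fn φ t
  have hXY : ∀ t, X t * X t + (Y t) w = x * x + f w := by
    intro t
    show (x + fn φ t w) * (x + fn φ t w)
      + (f + cr φ (u t) w - (2 * x) • fn φ t - (fn φ t w) • fn φ t) w = x * x + f w
    simp only [LinearMap.add_apply, LinearMap.sub_apply, LinearMap.smul_apply, smul_eq_mul,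
      cr_self]
    ring
  have hmem : ∀ t, Y t - (x * x + f w - X t * X t) • f₀
      ∈ LinearMap.ker (Module.Dual.eval F K w) := by
    intro t
    rw [LinearMap.mem_ker, Module.Dual.eval_apply]
    show (Y t) w - (x * x + f w - X t * X t) * f₀ w = 0
    rw [hf₀, ← hXY t]
    ring
  let θ : (Fin 3 → F) → F × LinearMap.ker (Module.Dual.eval F K w) := fun t => (X t, ⟨_, hmem t⟩)
  have hinj : Function.Injective θ := by
    intro s t hst
    have e1 : X s = X t := congrArg Prod.fst hst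
    have e2 : Y s - (x * x + f w - X s * X s) • f₀ = Y t - (x * x + f w - X t * X t) • f₀ :=
      congrArg (fun p : F × LinearMap.ker (Module.Dual.eval F K w) => (p.2 : Dual F K)) hst
    rw [e1] at e2
    have e3 : Y s = Y t := sub_left_injective e2
    exact key_inj φ hu hw e1 e3
  have : Finite (LinearMap.ker (Module.Dual.eval F K w)) := by
    apply Module.finite_of_finite F
  have hbij := hinj.bijective_of_nat_card_le (by
    rw [Nat.card_prod, Module.natCard_eq_pow_finrank (K := F)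
      (V := LinearMap.ker (Module.Dual.eval F K w)), hfin,
      Module.natCard_eq_pow_finrank (K := F) (V := Fin 3 → F), Module.finrank_fin_fun]
    apply le_of_eq
    ring)
  have hmem' : f' - (x * x + f w - x' * x') • f₀
      ∈ LinearMap.ker (Module.Dual.eval F K w) := by
    rw [LinearMap.mem_ker, Module.Dual.eval_apply]
    show f' w - (x * x + f w - x' * x') * f₀ w = 0
    rw [hf₀, ← h]
    ring
  obtain ⟨t, ht⟩ := hbij.2 (x', ⟨_, hmem'⟩)
  have e1 : X t = x' := congrArg Prod.fst ht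
  have e2 : Y t - (x * x + f w - X t * X t) • f₀ = f' - (x * x + f w - x' * x') • f₀ :=
    congrArg (fun p : F × LinearMap.ker (Module.Dual.eval F K w) => (p.2 : Dual F K)) ht
  rw [e1] at e2
  exact ⟨t, e1, sub_left_injective e2⟩

end Count

section Final

variable {F : Type} [Field F] {m : ℕ} {K : Type} [AddCommGroup K] [Module F K]

/-- The identification of `F × F ^ m × F ^ m` with `F × K × K*`. -/
noncomputable def Psi (φ : (Fin m → F) ≃ₗ[F] K) : OddSp m F ≃ₗ[F] (F × K × Dual F K) :=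
  LinearEquiv.prodCongr (LinearEquiv.refl F F)
    (LinearEquiv.prodCongr φ ((dotProductEquiv F (Fin m)).trans φ.symm.dualMap))

/-- The form in the coordinate-free model. -/
def qf (v : F × K × Dual F K) : F := v.1 * v.1 + v.2.2 v.2.1

theorem qf_ow (g : OW F K) (v : F × K × Dual F K) : qf (ow g v) = qf v := g.2 v

theorem qf_Psi (φ : (Fin m → F) ≃ₗ[F] K) (v : OddSp m F) : qf (Psi φ v) = QB v := by
  show v.1 * v.1 + (dotProductEquiv F (Fin m) v.2.2) (φ.symm (φ v.2.1))
    = v.1 * v.1 + ∑ i, v.2.1 i * v.2.2 i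
  rw [LinearEquiv.symm_apply_apply]
  congr 1
  simp only [dotProductEquiv_apply_apply, dotProduct]
  exact Finset.sum_congr rfl fun i _ => mul_comm _ _

/-- The isometries of `F × K × K*` and of `F × F ^ m × F ^ m`. -/
noncomputable def eO (φ : (Fin m → F) ≃ₗ[F] K) : OW F K →* orthB m F where
  toFun g := ofLinB
    ((Psi φ).trans ((g : (F × K × Dual F K) ≃ₗ[F] (F × K × Dual F K)).trans (Psi φ).symm)) (by
    intro v
    rw [← qf_Psi φ, ← qf_Psi φ v]
    have := qf_ow g (Psi φ v)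
    simp only [LinearEquiv.trans_apply, LinearEquiv.apply_symm_apply]
    exact this)
  map_one' := by
    apply orthB_ext
    intro v
    show (Psi φ).symm (Psi φ v) = v
    rw [LinearEquiv.symm_apply_apply]
  map_mul' g h := by
    apply orthB_ext
    intro v
    show (Psi φ).symm (g.1 (h.1 (Psi φ v)))
      = (Psi φ).symm (g.1 (Psi φ ((Psi φ).symm (h.1 (Psi φ v)))))
    rw [LinearEquiv.apply_symm_apply]

theorem eO_mem (φ : (Fin m → F) ≃ₗ[F] K) {g : OW F K} (hg : g ∈ commutator (OW F K)) :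
    eO φ g ∈ commutator (orthB m F) := by
  have h : (commutator (OW F K)).map (eO φ) ≤ commutator (orthB m F) := by
    rw [commutator_def, commutator_def, Subgroup.map_commutator]
    exact Subgroup.commutator_mono le_top le_top
  exact h (Subgroup.mem_map_of_mem _ hg)

/-- The element of `Ω` given by an element of the commutator subgroup of `OW`. -/
noncomputable def mk (φ : (Fin m → F) ≃ₗ[F] K) (g : OW F K) (hg : g ∈ commutator (OW F K)) :
    OmegaB m F := ⟨(eO φ g).1, mem_OmegaB_of_mem (eO_mem φ hg)⟩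

theorem Psi_pt_mk (φ : (Fin m → F) ≃ₗ[F] K) (g : OW F K) (hg : g ∈ commutator (OW F K))
    (v : OddSp m F) : Psi φ (pt (mk φ g hg) v) = ow g (Psi φ v) := by
  show Psi φ ((Psi φ).symm (g.1 (Psi φ v))) = g.1 (Psi φ v)
  rw [LinearEquiv.apply_symm_apply]

end Final

section Main

variable {F : Type} [Field F] [Finite F] {K : Type} [Field K] [Finite K] [Algebra F K]

/-- The elements of the sharply transitive set. -/
noncomputable def el (h2 : (2 : F) ≠ 0) (φ : (Fin 3 → F) ≃ₗ[F] K)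
    (u : (Fin 3 → F) → (Fin 3 → F)) (k : Kˣ) (t : Fin 3 → F) : OmegaB 3 F :=
  mk φ (hat (mulU F (k * k)) * rho (fn φ t) (cr φ (u t)) (cr_self φ (u t)))
    (Subgroup.mul_mem _ (hat_mem k) (rho_fn_mem h2 φ t (u t)))

theorem Psi_el (h2 : (2 : F) ≠ 0) (φ : (Fin 3 → F) ≃ₗ[F] K)
    (u : (Fin 3 → F) → (Fin 3 → F)) (k : Kˣ) (t : Fin 3 → F) (v : OddSp 3 F)
    {x : F} {w : K} {f : Dual F K} (hv : Psi φ v = (x, w, f)) :
    Psi φ (pt (el h2 φ u k t) v) = (x + fn φ t w, ((k * k : Kˣ) : K) * w,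
      (f + cr φ (u t) w - (2 * x) • fn φ t - (fn φ t w) • fn φ t)
        ∘ₗ (mulU F (k * k)).symm.toLinearMap) := by
  rw [el, Psi_pt_mk, hv]
  rfl

theorem w_ne {x : F} {w : K} {f : Dual F K} (hns : ¬ IsSquare (-1 : F))
    (h : x * x + f w = -1) : w ≠ 0 := by
  rintro rfl
  apply hns
  rw [map_zero, add_zero] at h
  exact ⟨x, h.symm⟩

theorem sharp_exists (h2 : (2 : F) ≠ 0) (hns : ¬ IsSquare (-1 : F))
    (hsq : ∀ k : Kˣ, ∃ l : Kˣ, l * l = k ∨ l * l = -k)
    (hK : finrank F K = 3) (φ : (Fin 3 → F) ≃ₗ[F] K)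
    {u : (Fin 3 → F) → (Fin 3 → F)} (hu : ∀ s t, dt (s - t) (u s - u t) = 0 → s = t)
    (v v' : OddSp 3 F) (hv : QB v = -1) (hv' : QB v' = -1) :
    ∃ (k : Kˣ) (t : Fin 3 → F), pt (el h2 φ u k t) v = v' ∨ pt (el h2 φ u k t) v = -v' := by
  have main : ∀ (z z' : OddSp 3 F) (l : Kˣ), QB z = -1 → QB z' = -1 →
      ((l * l : Kˣ) : K) * (Psi φ z).2.1 = (Psi φ z').2.1 →
      ∃ t : Fin 3 → F, pt (el h2 φ u l t) z = z' := by
    intro z z' l hz hz' hl
    rw [← qf_Psi φ] at hz hz'
    rcases hzw : Psi φ z with ⟨x, w, f⟩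
    rcases hzw' : Psi φ z' with ⟨x', w', f'⟩
    rw [hzw] at hz hl
    rw [hzw'] at hz' hl
    have hz1 : x * x + f w = -1 := hz
    have hz2 : x' * x' + f' w' = -1 := hz'
    have hl' : ((l * l : Kˣ) : K) * w = w' := hl
    have hw : w ≠ 0 := w_ne hns hz1
    obtain ⟨t, ht1, ht2⟩ := key_surj hK φ hu (x := x) (x' := x') hw (f := f)
      (f' := f' ∘ₗ (mulU F (l * l)).toLinearMap) (by
        show x' * x' + f' (((l * l : Kˣ) : K) * w) = x * x + f w
        rw [hl', hz1, hz2])
    refine ⟨t, ?_⟩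
    apply (Psi φ).injective
    rw [Psi_el h2 φ u l t z hzw, hzw', ht1, ht2, hl']
    congr 2
    apply LinearMap.ext
    intro y
    show f' (mulU F (l * l) ((mulU F (l * l)).symm y)) = f' y
    rw [LinearEquiv.apply_symm_apply]
  have hwv : (Psi φ v).2.1 ≠ 0 := by
    rw [← qf_Psi φ] at hv
    exact w_ne hns hv
  have hwv' : (Psi φ v').2.1 ≠ 0 := by
    rw [← qf_Psi φ] at hv'
    exact w_ne hns hv'
  obtain ⟨l, hl⟩ := hsq (Units.mk0 ((Psi φ v').2.1 / (Psi φ v).2.1) (div_ne_zero hwv' hwv))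
  rcases hl with hl | hl
  · obtain ⟨t, ht⟩ := main v v' l hv hv' (by
      rw [hl]
      show (Psi φ v').2.1 / (Psi φ v).2.1 * (Psi φ v).2.1 = (Psi φ v').2.1
      field_simp)
    exact ⟨l, t, Or.inl ht⟩
  · obtain ⟨t, ht⟩ := main v (-v') l hv (by rw [QB_neg, hv']) (by
      rw [hl, map_neg]
      show -((Psi φ v').2.1 / (Psi φ v).2.1) * (Psi φ v).2.1 = -(Psi φ v').2.1
      field_simp)
    exact ⟨l, t, Or.inr ht⟩

theorem sharp_unique (h2 : (2 : F) ≠ 0) (hns : ¬ IsSquare (-1 : F))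
    (hnK : ¬ IsSquare (-1 : K)) (φ : (Fin 3 → F) ≃ₗ[F] K)
    {u : (Fin 3 → F) → (Fin 3 → F)} (hu : ∀ s t, dt (s - t) (u s - u t) = 0 → s = t)
    (v : OddSp 3 F) (hv : QB v = -1) {k l : Kˣ} {s t : Fin 3 → F}
    (h : pt (el h2 φ u k s) v = pt (el h2 φ u l t) v
      ∨ pt (el h2 φ u k s) v = -pt (el h2 φ u l t) v) :
    el h2 φ u k s = el h2 φ u l t := by
  rw [← qf_Psi φ] at hv
  rcases hvw : Psi φ v with ⟨x, w, f⟩
  rw [hvw] at hv
  have hv1 : x * x + f w = -1 := hv
  have hw : w ≠ 0 := w_ne hns hv1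
  -- the sign is `+`
  have hplus : pt (el h2 φ u k s) v = pt (el h2 φ u l t) v := by
    rcases h with h | h
    · exact h
    · exfalso
      have h1 := congrArg (fun z => (Psi φ z).2.1) h
      simp only [map_neg] at h1
      rw [Psi_el h2 φ u k s v hvw, Psi_el h2 φ u l t v hvw] at h1
      have h3 : ((k * k : Kˣ) : K) * w = -(((l * l : Kˣ) : K) * w) := h1
      have h4 : ((k * k : Kˣ) : K) = -((l * l : Kˣ) : K) := by
        apply mul_right_cancel₀ hw
        rw [h3]
        ring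
      apply hnK
      refine ⟨(k : K) / (l : K), ?_⟩
      have hl0 : (l : K) ≠ 0 := l.ne_zero
      rw [Units.val_mul, Units.val_mul] at h4
      field_simp
      linear_combination -h4
  have h1 := congrArg (Psi φ) hplus
  rw [Psi_el h2 φ u k s v hvw, Psi_el h2 φ u l t v hvw] at h1
  have h3 : ((k * k : Kˣ) : K) * w = ((l * l : Kˣ) : K) * w :=
    congrArg (fun z : F × K × Dual F K => z.2.1) h1
  have hkl : k * k = l * l := Units.ext (mul_right_cancel₀ hw h3)
  rw [hkl] at h1
  have h4 : x + fn φ s w = x + fn φ t w := congrArg (fun z : F × K × Dual F K => z.1) h1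
  have h5 : (f + cr φ (u s) w - (2 * x) • fn φ s - (fn φ s w) • fn φ s)
        ∘ₗ (mulU F (l * l)).symm.toLinearMap
      = (f + cr φ (u t) w - (2 * x) • fn φ t - (fn φ t w) • fn φ t)
        ∘ₗ (mulU F (l * l)).symm.toLinearMap := congrArg (fun z : F × K × Dual F K => z.2.2) h1
  have h6 : f + cr φ (u s) w - (2 * x) • fn φ s - (fn φ s w) • fn φ s
      = f + cr φ (u t) w - (2 * x) • fn φ t - (fn φ t w) • fn φ t := by
    apply LinearMap.ext
    intro z
    have h7 := LinearMap.congr_fun h5 (mulU F (l * l) z)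
    simpa using h7
  have hst : s = t := key_inj φ hu hw h4 h6
  subst hst
  apply Subtype.ext
  show (eO φ _).1 = (eO φ _).1
  congr 3
  rw [hkl]

/-- **Theorem (B).**  For a finite field with `q ≡ 3` or `11` modulo `12` elements the two-sided
action of `Ω(7, F)` is not synchronizing. -/
theorem omega_seven (F : Type) [Field F] [Finite F]
    (hF : Nat.card F % 12 = 3 ∨ Nat.card F % 12 = 11) :
    ¬ Synchronizing (twoSided (OmegaB 3 F)) := by
  classical
  have := Fintype.ofFinite F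
  obtain ⟨p, hp⟩ := CharP.exists F
  have hpp : p.Prime := CharP.char_is_prime F p
  have : Fact p.Prime := ⟨hpp⟩
  let K := FiniteField.Extension F p 3
  have hK : finrank F K = 3 := FiniteField.finrank_extension F p 3
  have hcK : Nat.card K = Nat.card F ^ 3 := FiniteField.natCard_extension F p 3
  have := Fintype.ofFinite K
  obtain ⟨u, hu⟩ := exists_u F hF
  have hq4 : Fintype.card F % 4 = 3 := by
    rw [← Nat.card_eq_fintype_card]
    omega
  have hK4 : Fintype.card K % 4 = 3 := by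
    rw [← Nat.card_eq_fintype_card, hcK, Nat.card_eq_fintype_card, Nat.pow_mod, hq4]
  have hns : ¬ IsSquare (-1 : F) := by
    rw [FiniteField.isSquare_neg_one_iff]
    omega
  have hnK : ¬ IsSquare (-1 : K) := by
    rw [FiniteField.isSquare_neg_one_iff]
    omega
  have h2 : (2 : F) ≠ 0 := by
    intro h
    apply hns
    exact ⟨1, by linear_combination -h⟩
  have hrK : ringChar K ≠ 2 := by
    intro h
    apply hnK
    have h0 : (2 : K) = 0 := by
      have := ringChar.Nat.cast_ringChar (R := K)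
      rw [h] at this
      exact_mod_cast this
    exact ⟨1, by linear_combination -h0⟩
  have hsq : ∀ k : Kˣ, ∃ l : Kˣ, l * l = k ∨ l * l = -k := by
    intro k
    have hone : ∀ a : K, a ≠ 0 → IsSquare a → ∃ l : Kˣ, ((l * l : Kˣ) : K) = a := by
      rintro a ha ⟨y, hy⟩
      have hy0 : y ≠ 0 := by
        rintro rfl
        rw [mul_zero] at hy
        exact ha hy
      exact ⟨Units.mk0 y hy0, by rw [Units.val_mul, Units.val_mk0, hy]⟩
    rcases FiniteField.pow_dichotomy hrK k.ne_zero with h | h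
    · obtain ⟨l, hl⟩ := hone k k.ne_zero ((FiniteField.isSquare_iff hrK k.ne_zero).2 h)
      exact ⟨l, Or.inl (Units.ext hl)⟩
    · have hne : (-(k : K)) ≠ 0 := neg_ne_zero.2 k.ne_zero
      obtain ⟨l, hl⟩ := hone (-(k : K)) hne ((FiniteField.isSquare_iff hrK hne).2 (by
        have hodd : Odd (Fintype.card K / 2) := ⟨Fintype.card K / 4, by omega⟩
        rw [hodd.neg_pow, h, neg_neg]))
      exact ⟨l, Or.inr (Units.ext (by rw [hl, Units.val_neg]))⟩
  let φ : (Fin 3 → F) ≃ₗ[F] K := LinearEquiv.ofFinrankEq _ _ (by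
    rw [hK, Module.finrank_fin_fun])
  -- the base point
  let e : Fin 3 → Fin 3 → F := fun i => Pi.single i 1
  let x₀ : OddSp 3 F := (0, (e 0, -e 0))
  have hQ₀ : QB x₀ = -1 := by
    show (0 : F) * 0 + ∑ i, (e 0) i * (-(e 0)) i = -1
    rw [Fin.sum_univ_three]
    simp [e]
  have hP₀ : Psi φ x₀ = (0, φ (e 0), (-cf φ 0 : Dual F K)) := by
    refine Prod.ext rfl (Prod.ext rfl ?_)
    apply LinearMap.ext
    intro z
    show (dotProductEquiv F (Fin 3) (-e 0)) (φ.symm z) = -(φ.symm z 0)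
    rw [map_neg, LinearMap.neg_apply, dotProductEquiv_apply_apply]
    simp [e, dotProduct, Fin.sum_univ_three]
  have hcf : ∀ i j, cf φ i (φ (e j)) = (e j) i := by
    intro i j
    rw [cf_apply, LinearEquiv.symm_apply_apply]
  have n01 : (0 : Fin 3) ≠ 1 := by decide
  have n02 : (0 : Fin 3) ≠ 2 := by decide
  have n12 : (1 : Fin 3) ≠ 2 := by decide
  have he00 : (e 0) 0 = 1 := Pi.single_eq_same _ _
  have he01 : (e 0) 1 = 0 := Pi.single_eq_of_ne n01.symm _
  have he02 : (e 0) 2 = 0 := Pi.single_eq_of_ne n02.symm _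
  have he11 : (e 1) 1 = 1 := Pi.single_eq_same _ _
  have he12 : (e 1) 2 = 0 := Pi.single_eq_of_ne n12.symm _
  have he22 : (e 2) 2 = 1 := Pi.single_eq_same _ _
  refine not_sync_of_sharp (stab x₀) ?_ ?_
    {a | ∃ (k : Kˣ) (t : Fin 3 → F), a = el h2 φ u k t} ?_
  · -- the stabilizer is not trivial
    intro hbot
    let g : OW F K := rho 0 (wg (cf φ 1) (cf φ 2)) (wg_self _ _)
    have hg : g ∈ commutator (OW F K) := rho_wg_mem h2 _ _
    have hst : mk φ g hg ∈ stab x₀ := by
      left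
      apply (Psi φ).injective
      rw [Psi_pt_mk, hP₀, ow_rho]
      refine Prod.ext ?_ (Prod.ext rfl ?_)
      · show (0 : F) + (0 : Dual F K) _ = 0
        simp
      · apply LinearMap.ext
        intro z
        simp only [LinearMap.add_apply, LinearMap.sub_apply, LinearMap.smul_apply, smul_eq_mul,
          LinearMap.zero_apply, wg_apply, hcf, he01, he02]
        ring
    rw [hbot, Subgroup.mem_bot] at hst
    -- move `(0, φ (e 1), 0)`
    have h3 := Psi_pt_mk φ g hg ((Psi φ).symm (0, φ (e 1), 0))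
    rw [hst, pt_one, LinearEquiv.apply_symm_apply, ow_rho] at h3
    have h4 := congrArg (fun v : F × K × Dual F K => v.2.2 (φ (e 2))) h3
    simp only [LinearMap.add_apply, LinearMap.sub_apply, LinearMap.smul_apply, smul_eq_mul,
      LinearMap.zero_apply, wg_apply, hcf, he11, he12, he22] at h4
    apply one_ne_zero (α := F)
    linear_combination -h4
  · -- the stabilizer is not everything
    intro htop
    have hmem : el h2 φ u 1 (e 0) ∈ stab x₀ := by rw [htop]; trivial
    have h1 := Psi_el h2 φ u 1 (e 0) x₀ hP₀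
    have hfn : fn φ (e 0) (φ (e 0)) = 1 := by
      rw [fn_apply, LinearEquiv.symm_apply_apply]
      simp only [dt, he00, he01, he02]
      ring
    rcases hmem with h | h
    · rw [h, hP₀] at h1
      have h5 := congrArg Prod.fst h1
      simp only [hfn] at h5
      apply one_ne_zero (α := F)
      linear_combination -h5
    · rw [h, map_neg, hP₀] at h1
      have h5 : -φ (e 0) = (((1 * 1 : Kˣ)) : K) * φ (e 0) :=
        congrArg (fun z : F × K × Dual F K => z.2.1) h1
      have h6 : φ (e 0) ≠ 0 := by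
        intro h0
        have := (LinearEquiv.map_eq_zero_iff φ).1 h0
        have := congrFun this 0
        rw [he00] at this
        exact one_ne_zero this
      rw [mul_one, Units.val_one, one_mul] at h5
      have h7 : (2 : K) * φ (e 0) = 0 := by linear_combination -h5
      rcases mul_eq_zero.1 h7 with h8 | h8
      · apply hnK
        exact ⟨1, by linear_combination -h8⟩
      · exact h6 h8
  · -- sharpness
    intro s k
    have hQ1 : QB (pt k x₀) = -1 := by rw [pt_Q, hQ₀]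
    have hQ2 : QB (pt s (pt k x₀)) = -1 := by rw [pt_Q, hQ1]
    have key : ∀ a : OmegaB 3 F, k⁻¹ * (a⁻¹ * s) * k ∈ stab x₀ ↔
        (pt a (pt k x₀) = pt s (pt k x₀) ∨ pt a (pt k x₀) = -pt s (pt k x₀)) := by
      intro a
      show (pt (k⁻¹ * (a⁻¹ * s) * k) x₀ = x₀ ∨ pt (k⁻¹ * (a⁻¹ * s) * k) x₀ = -x₀) ↔ _
      rw [pt_mul, pt_mul, pt_mul, pt_inv_eq, pt_inv_eq, pt_inv_eq, pt_inv_eq, pt_neg, pt_neg]
      constructor
      · rintro (h | h)
        · exact Or.inl h.symm
        · right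
          rw [h, neg_neg]
      · rintro (h | h)
        · exact Or.inl h.symm
        · right
          rw [h, neg_neg]
    obtain ⟨l, t, hlt⟩ := sharp_exists h2 hns hsq hK φ hu (pt k x₀) (pt s (pt k x₀)) hQ1 hQ2
    refine ⟨el h2 φ u l t, ⟨⟨l, t, rfl⟩, (key _).2 hlt⟩, ?_⟩
    rintro a ⟨⟨l', t', rfl⟩, ha⟩
    have h1 := (key _).1 ha
    apply sharp_unique h2 hns hnK φ hu (pt k x₀) hQ1
    rcases hlt with h | h <;> rcases h1 with h' | h'
    · left; rw [h, h']
    · right; rw [h, h']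
    · right; rw [h, h', neg_neg]
    · left; rw [h, h']

end Main

end Pool.Agent.NS98.B
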