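import Pool.Agent.NS98.Base

/-!
# The orthogonal groups of odd dimension
-/

set_option autoImplicit false

namespace Pool.Agent.NS98.B

open Equiv

section Orth

variable (m : ℕ) (F : Type) [Field F]

/-- The space `F × F ^ m × F ^ m` of dimension `2 m + 1`. -/
abbrev OddSp : Type := F × ((Fin m → F) × (Fin m → F))

variable {m F} in
/-- The quadratic form `x ^ 2 + ∑ w_i f_i`. -/
def QB (v : OddSp m F) : F := v.1 * v.1 + ∑ i, v.2.1 i * v.2.2 i

/-- The orthogonal group `O(2 m + 1, F)`: the group of the linear permutations of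
`F × F ^ m × F ^ m` which preserve the quadratic form `x ^ 2 + ∑ w_i f_i`. -/
def orthB : Subgroup (Perm (OddSp m F)) where
  carrier := {s | (∀ v w, s (v + w) = s v + s w) ∧
    (∀ (c : F) (v : OddSp m F), s (c • v) = c • s v) ∧ ∀ v, QB (s v) = QB v}
  one_mem' := ⟨fun _ _ => rfl, fun _ _ => rfl, fun _ => rfl⟩
  mul_mem' := by
    rintro a b ⟨h1, h2, h3⟩ ⟨k1, k2, k3⟩
    refine ⟨fun v w => ?_, fun c v => ?_, fun v => ?_⟩
    · rw [Perm.mul_apply, k1, h1]; rfl
    · rw [Perm.mul_apply, k2, h2]; rfl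
    · rw [Perm.mul_apply, h3, k3]
  inv_mem' := by
    rintro a ⟨h1, h2, h3⟩
    refine ⟨fun v w => ?_, fun c v => ?_, fun v => ?_⟩
    · rw [Perm.inv_eq_iff_eq, h1]; simp
    · rw [Perm.inv_eq_iff_eq, h2]; simp
    · rw [← h3]; congr 1; exact a.apply_symm_apply v

/-- The group `Ω(2 m + 1, F)`: the commutator subgroup of `O(2 m + 1, F)`. -/
def OmegaB : Subgroup (Perm (OddSp m F)) := ⁅orthB m F, orthB m F⁆

variable {m F}

/-- A linear automorphism preserving the form as an element of the orthogonal group. -/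
def ofLinB (g : OddSp m F ≃ₗ[F] OddSp m F) (h : ∀ v, QB (g v) = QB v) : orthB m F :=
  ⟨g.toEquiv, g.map_add, g.map_smul, h⟩

lemma orthB_ext {g h : orthB m F} (H : ∀ v, g.1 v = h.1 v) : g = h :=
  Subtype.ext (Equiv.ext H)

lemma OmegaB_le : OmegaB m F ≤ orthB m F := by
  rw [OmegaB, Subgroup.commutator_le]
  intro a ha b hb
  exact (orthB m F).mul_mem ((orthB m F).mul_mem ((orthB m F).mul_mem ha hb)
    ((orthB m F).inv_mem ha)) ((orthB m F).inv_mem hb)

lemma mem_OmegaB_of_mem {g : orthB m F} (hg : g ∈ commutator (orthB m F)) : g.1 ∈ OmegaB m F := by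
  rw [OmegaB, ← Subgroup.map_subtype_commutator]
  exact Subgroup.mem_map_of_mem _ hg

/-- The action of `Ω` on vectors. -/
def pt (g : OmegaB m F) (v : OddSp m F) : OddSp m F := g.1 v

theorem pt_mul (g h : OmegaB m F) (v : OddSp m F) : pt (g * h) v = pt g (pt h v) := rfl

theorem pt_one (v : OddSp m F) : pt (1 : OmegaB m F) v = v := rfl

theorem pt_Q (g : OmegaB m F) (v : OddSp m F) : QB (pt g v) = QB v := (OmegaB_le g.2).2.2 v

theorem pt_neg (g : OmegaB m F) (v : OddSp m F) : pt g (-v) = -pt g v := by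
  have h := (OmegaB_le g.2).2.1 (-1) v
  rw [neg_one_smul, neg_one_smul] at h
  exact h

theorem pt_inv_eq (g : OmegaB m F) (v w : OddSp m F) : pt g⁻¹ v = w ↔ v = pt g w := by
  constructor
  · intro h
    rw [← h, ← pt_mul, mul_inv_cancel, pt_one]
  · intro h
    rw [h, ← pt_mul, inv_mul_cancel, pt_one]

theorem QB_neg (v : OddSp m F) : QB (-v) = QB v := by
  show (-v.1) * (-v.1) + ∑ i, (-v.2.1 i) * (-v.2.2 i) = v.1 * v.1 + ∑ i, v.2.1 i * v.2.2 i
  simp

/-- The stabilizer of a vector up to sign. -/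
def stab (x : OddSp m F) : Subgroup (OmegaB m F) where
  carrier := {g | pt g x = x ∨ pt g x = -x}
  one_mem' := Or.inl rfl
  mul_mem' := by
    rintro a b ha hb
    show pt (a * b) x = x ∨ pt (a * b) x = -x
    rw [pt_mul]
    rcases ha with ha | ha <;> rcases hb with hb | hb
    · left; rw [hb, ha]
    · right; rw [hb, pt_neg, ha]
    · right; rw [hb, ha]
    · left; rw [hb, pt_neg, ha, neg_neg]
  inv_mem' := by
    rintro a ha
    show pt a⁻¹ x = x ∨ pt a⁻¹ x = -x
    rw [pt_inv_eq, pt_inv_eq, pt_neg]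
    rcases ha with ha | ha
    · left; exact ha.symm
    · right; rw [ha, neg_neg]

end Orth

/-! ### The group in a coordinate-free form -/

section OW

open Module

variable (F W : Type) [Field F] [AddCommGroup W] [Module F W]

/-- The isometries of the quadratic form `x ^ 2 + f w` on `F × W × W*`. -/
def OW : Subgroup ((F × W × Dual F W) ≃ₗ[F] (F × W × Dual F W)) where
  carrier := {g | ∀ v, (g v).1 * (g v).1 + (g v).2.2 (g v).2.1 = v.1 * v.1 + v.2.2 v.2.1}
  one_mem' := fun v => rfl
  mul_mem' := by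
    intro a b ha hb v
    show (a (b v)).1 * (a (b v)).1 + (a (b v)).2.2 (a (b v)).2.1 = v.1 * v.1 + v.2.2 v.2.1
    rw [ha, hb]
  inv_mem' := by
    intro a ha v
    have := ha (a.symm v)
    rw [LinearEquiv.apply_symm_apply] at this
    exact this.symm

variable {F W}

theorem OW_ext {g h : OW F W} (H : ∀ v, (g : (F × W × Dual F W) ≃ₗ[F] (F × W × Dual F W)) v
    = (h : (F × W × Dual F W) ≃ₗ[F] (F × W × Dual F W)) v) : g = h :=
  Subtype.ext (LinearEquiv.ext H)

/-- The underlying map. -/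
def ow (g : OW F W) (v : F × W × Dual F W) : F × W × Dual F W := g.1 v

theorem ow_mul (g h : OW F W) (v : F × W × Dual F W) : ow (g * h) v = ow g (ow h v) := rfl

theorem ow_ext {g h : OW F W} (H : ∀ v, ow g v = ow h v) : g = h := OW_ext H

/-- `(x, w, f) ↦ (x, g w, f g⁻¹)`. -/
noncomputable def hat (g : W ≃ₗ[F] W) : OW F W :=
  ⟨LinearEquiv.prodCongr (LinearEquiv.refl F F) (LinearEquiv.prodCongr g g.symm.dualMap), by
    intro v
    show v.1 * v.1 + (g.symm.dualMap v.2.2) (g v.2.1) = v.1 * v.1 + v.2.2 v.2.1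
    rw [LinearEquiv.dualMap_apply, LinearEquiv.symm_apply_apply]⟩

theorem ow_hat (g : W ≃ₗ[F] W) (v : F × W × Dual F W) :
    ow (hat g) v = (v.1, g v.2.1, v.2.2 ∘ₗ g.symm.toLinearMap) := rfl

/-- `(x, w, f) ↦ (x + a w, w, f + ω w - 2 x a - (a w) a)`. -/
noncomputable def rho (a : Dual F W) (ω : W →ₗ[F] W →ₗ[F] F) (h : ∀ w, ω w w = 0) : OW F W :=
  ⟨{ toFun := fun v => (v.1 + a v.2.1, v.2.1, v.2.2 + ω v.2.1 - (2 * v.1) • a - (a v.2.1) • a)
     invFun := fun v => (v.1 - a v.2.1, v.2.1, v.2.2 - ω v.2.1 + (2 * v.1) • a - (a v.2.1) • a)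
     map_add' := fun v w => by
      refine Prod.ext ?_ (Prod.ext ?_ ?_)
      · simp only [Prod.fst_add, Prod.snd_add, map_add]; ring
      · simp only [Prod.fst_add, Prod.snd_add]
      · apply LinearMap.ext
        intro z
        simp only [Prod.fst_add, Prod.snd_add, map_add, LinearMap.add_apply, LinearMap.sub_apply,
          LinearMap.smul_apply, smul_eq_mul]
        ring
     map_smul' := fun c v => by
      refine Prod.ext ?_ (Prod.ext ?_ ?_)
      · simp only [Prod.smul_fst, Prod.smul_snd, map_smul, smul_eq_mul, RingHom.id_apply]; ring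
      · simp only [Prod.smul_fst, Prod.smul_snd, RingHom.id_apply]
      · apply LinearMap.ext
        intro z
        simp only [Prod.smul_fst, Prod.smul_snd, map_smul, LinearMap.add_apply,
          LinearMap.sub_apply, LinearMap.smul_apply, smul_eq_mul, RingHom.id_apply]
        ring
     left_inv := fun v => by
      refine Prod.ext ?_ (Prod.ext ?_ ?_)
      · show v.1 + a v.2.1 - a v.2.1 = v.1
        ring
      · rfl
      · apply LinearMap.ext
        intro z
        simp only [LinearMap.add_apply, LinearMap.sub_apply, LinearMap.smul_apply, smul_eq_mul]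
        ring
     right_inv := fun v => by
      refine Prod.ext ?_ (Prod.ext ?_ ?_)
      · show v.1 - a v.2.1 + a v.2.1 = v.1
        ring
      · rfl
      · apply LinearMap.ext
        intro z
        simp only [LinearMap.add_apply, LinearMap.sub_apply, LinearMap.smul_apply, smul_eq_mul]
        ring }, by
    intro v
    show (v.1 + a v.2.1) * (v.1 + a v.2.1)
      + (v.2.2 + ω v.2.1 - (2 * v.1) • a - (a v.2.1) • a) v.2.1 = v.1 * v.1 + v.2.2 v.2.1
    simp only [LinearMap.add_apply, LinearMap.sub_apply, LinearMap.smul_apply, smul_eq_mul, h]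
    ring⟩

theorem ow_rho (a : Dual F W) (ω : W →ₗ[F] W →ₗ[F] F) (h : ∀ w, ω w w = 0)
    (v : F × W × Dual F W) : ow (rho a ω h) v
      = (v.1 + a v.2.1, v.2.1, v.2.2 + ω v.2.1 - (2 * v.1) • a - (a v.2.1) • a) := rfl

theorem zero_self (w : W) : (0 : W →ₗ[F] W →ₗ[F] F) w w = 0 := rfl

/-- `a ∧ b`. -/
noncomputable def wg (a b : Dual F W) : W →ₗ[F] W →ₗ[F] F :=
  LinearMap.mk₂ F (fun x y => a x * b y - b x * a y)
    (fun x x' y => by simp only [map_add]; ring)
    (fun c x y => by simp only [map_smul, smul_eq_mul]; ring)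
    (fun x y y' => by simp only [map_add]; ring)
    (fun c x y => by simp only [map_smul, smul_eq_mul]; ring)

theorem wg_apply (a b : Dual F W) (x y : W) : wg a b x y = a x * b y - b x * a y := rfl

theorem wg_self (a b : Dual F W) (x : W) : wg a b x x = 0 := by
  rw [wg_apply]; ring

theorem rho_mul_zero (ω ω' : W →ₗ[F] W →ₗ[F] F) (h : ∀ w, ω w w = 0) (h' : ∀ w, ω' w w = 0)
    (h'' : ∀ w, (ω + ω') w w = 0) : rho 0 ω h * rho 0 ω' h' = rho 0 (ω + ω') h'' := by
  apply ow_ext
  intro v
  rw [ow_mul, ow_rho, ow_rho, ow_rho]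
  refine Prod.ext ?_ (Prod.ext rfl ?_)
  · simp
  · apply LinearMap.ext
    intro z
    simp only [LinearMap.add_apply, LinearMap.sub_apply, LinearMap.smul_apply, smul_eq_mul,
      LinearMap.zero_apply]
    ring

theorem rho_split (a : Dual F W) (ω : W →ₗ[F] W →ₗ[F] F) (h : ∀ w, ω w w = 0) :
    rho a ω h = rho a 0 zero_self * rho 0 ω h := by
  apply ow_ext
  intro v
  rw [ow_mul, ow_rho, ow_rho, ow_rho]
  refine Prod.ext ?_ (Prod.ext rfl ?_)
  · simp
  · apply LinearMap.ext
    intro z
    simp only [LinearMap.add_apply, LinearMap.sub_apply, LinearMap.smul_apply, smul_eq_mul,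
      LinearMap.zero_apply]
    ring

theorem rho_double (a : Dual F W) :
    rho a 0 zero_self * rho a 0 zero_self = rho (a + a) 0 zero_self := by
  apply ow_ext
  intro v
  rw [ow_mul, ow_rho, ow_rho, ow_rho]
  refine Prod.ext ?_ (Prod.ext rfl ?_)
  · simp only [LinearMap.add_apply]; ring
  · apply LinearMap.ext
    intro z
    simp only [LinearMap.add_apply, LinearMap.sub_apply, LinearMap.smul_apply, smul_eq_mul,
      LinearMap.zero_apply]
    ring

/-- The commutator relation. -/
theorem rho_comm (a b : Dual F W) (h : ∀ w, (wg a b + wg a b) w w = 0) :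
    rho a 0 zero_self * rho b 0 zero_self
      = rho 0 (wg a b + wg a b) h * (rho b 0 zero_self * rho a 0 zero_self) := by
  apply ow_ext
  intro v
  simp only [ow_mul, ow_rho]
  refine Prod.ext ?_ (Prod.ext rfl ?_)
  · simp only [LinearMap.zero_apply]; ring
  · apply LinearMap.ext
    intro z
    simp only [LinearMap.add_apply, LinearMap.sub_apply, LinearMap.smul_apply, smul_eq_mul,
      LinearMap.zero_apply, wg_apply]
    ring

/-- Conjugating `rho a 0` by `hat (-1)`. -/
theorem hat_neg_rho (a : Dual F W) :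
    hat (LinearEquiv.neg F) * rho a 0 zero_self
      = rho (-a) 0 zero_self * hat (LinearEquiv.neg F) := by
  apply ow_ext
  intro v
  simp only [ow_mul, ow_rho, ow_hat]
  refine Prod.ext ?_ (Prod.ext ?_ ?_)
  · show v.1 + a v.2.1 = v.1 + (-a) (-v.2.1)
    simp
  · rfl
  · apply LinearMap.ext
    intro z
    show (v.2.2 + (0 : W →ₗ[F] W →ₗ[F] F) v.2.1 - (2 * v.1) • a - (a v.2.1) • a) (-z)
      = v.2.2 (-z) + (0 : W →ₗ[F] W →ₗ[F] F) (-v.2.1) z - ((2 * v.1) • (-a)) z
        - (((-a) (-v.2.1)) • (-a)) z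
    simp only [LinearMap.add_apply, LinearMap.sub_apply, LinearMap.smul_apply, smul_eq_mul,
      LinearMap.zero_apply, LinearMap.neg_apply, map_neg]
    ring

theorem rho_neg (a : Dual F W) : rho (-a) 0 zero_self * rho a 0 zero_self = (1 : OW F W) := by
  apply ow_ext
  intro v
  simp only [ow_mul, ow_rho]
  refine Prod.ext ?_ (Prod.ext rfl ?_)
  · show v.1 + a v.2.1 + (-a) v.2.1 = v.1
    simp
  · apply LinearMap.ext
    intro z
    show _ = v.2.2 z
    simp only [LinearMap.add_apply, LinearMap.sub_apply, LinearMap.smul_apply, smul_eq_mul,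
      LinearMap.zero_apply, LinearMap.neg_apply]
    ring

theorem rho_zero : rho 0 0 zero_self = (1 : OW F W) := by
  apply ow_ext
  intro v
  rw [ow_rho]
  show _ = v
  simp

/-- `rho a 0` lies in the commutator subgroup. -/
theorem rho_mem (h2 : (2 : F) ≠ 0) (a : Dual F W) :
    rho a 0 zero_self ∈ commutator (OW F W) := by
  rw [← Abelianization.ker_of, MonoidHom.mem_ker]
  have hinv : ∀ b : Dual F W, Abelianization.of (rho b 0 zero_self : OW F W)
      * Abelianization.of (rho b 0 zero_self : OW F W) = 1 := by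
    intro b
    have h1 := congrArg Abelianization.of (hat_neg_rho b)
    rw [map_mul, map_mul, mul_comm] at h1
    have h3 := mul_right_cancel h1
    have h4 := congrArg Abelianization.of (rho_neg b)
    rw [map_mul, map_one, ← h3] at h4
    exact h4
  have e : a = (2 : F)⁻¹ • a + (2 : F)⁻¹ • a := by
    rw [← add_smul]
    have : (2 : F)⁻¹ + (2 : F)⁻¹ = 1 := by field_simp; norm_num
    rw [this, one_smul]
  have e2 : rho a 0 zero_self
      = rho ((2 : F)⁻¹ • a) 0 zero_self * rho ((2 : F)⁻¹ • a) 0 zero_self := by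
    rw [rho_double, ← e]
  rw [e2, map_mul]
  exact hinv _

/-- `rho 0 (a ∧ b)` lies in the commutator subgroup. -/
theorem rho_wg_mem (h2 : (2 : F) ≠ 0) (a b : Dual F W) :
    rho 0 (wg a b) (wg_self a b) ∈ commutator (OW F W) := by
  have hs : ∀ w, (wg ((2 : F)⁻¹ • a) b + wg ((2 : F)⁻¹ • a) b) w w = 0 := by
    intro w
    show wg ((2 : F)⁻¹ • a) b w w + wg ((2 : F)⁻¹ • a) b w w = 0
    rw [wg_self, add_zero]
  have h := rho_comm ((2 : F)⁻¹ • a) b hs
  have e : rho 0 (wg a b) (wg_self a b)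
      = rho 0 (wg ((2 : F)⁻¹ • a) b + wg ((2 : F)⁻¹ • a) b) hs := by
    have e1 : wg a b = wg ((2 : F)⁻¹ • a) b + wg ((2 : F)⁻¹ • a) b := by
      apply LinearMap.ext₂
      intro x y
      show a x * b y - b x * a y = (((2 : F)⁻¹ • a) x * b y - b x * ((2 : F)⁻¹ • a) y)
        + (((2 : F)⁻¹ • a) x * b y - b x * ((2 : F)⁻¹ • a) y)
      simp only [LinearMap.smul_apply, smul_eq_mul]
      field_simp
      ring
    apply ow_ext
    intro v
    rw [ow_rho, ow_rho, e1]
  rw [e]
  set A : OW F W := rho ((2 : F)⁻¹ • a) 0 zero_self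
  set B : OW F W := rho b 0 zero_self
  set C : OW F W := rho 0 (wg ((2 : F)⁻¹ • a) b + wg ((2 : F)⁻¹ • a) b) hs
  have h3 : C = A * B * A⁻¹ * B⁻¹ := by
    rw [h]
    group
  rw [h3, commutator_def]
  exact Subgroup.commutator_mem_commutator (Subgroup.mem_top _) (Subgroup.mem_top _)

end OW

end Pool.Agent.NS98.B
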