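import Mathlib

/-!
# Non-synchronizing two-sided actions: definitions and the principle of sharply transitive sets

The definitions are those of the problem; they agree word for word with the ones in the hand-in
`AlternatingNonSync`.
-/

set_option autoImplicit false

namespace Pool.Agent.NS98

open Equiv

/-- `B` is a transversal of the partition of `Ω` into the classes of `ρ`: it meets every class in
exactly one point. -/
def IsTransversal {Ω : Type} (ρ : Setoid Ω) (B : Set Ω) : Prop :=
  ∀ x : Ω, ∃! y : Ω, y ∈ B ∧ ρ x y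

/-- The partition of `Ω` into the classes of `ρ` is `G`-regular: for some subset `A` of `Ω`, the
image of `A` under each element of `G` is a transversal of the partition. -/
def IsRegularPartition {Ω : Type} (G : Subgroup (Perm Ω)) (ρ : Setoid Ω) : Prop :=
  ∃ A : Set Ω, ∀ g ∈ G, IsTransversal ρ (g '' A)

/-- The permutation group `G` on the finite set `Ω` is synchronizing: `Ω` has more than two points
and the only `G`-regular partitions of `Ω` are the partition into singletons and the partition
with a single part. -/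
def Synchronizing {Ω : Type} (G : Subgroup (Perm Ω)) : Prop :=
  2 < Nat.card Ω ∧ ∀ ρ : Setoid Ω, IsRegularPartition G ρ → ρ = ⊥ ∨ ρ = ⊤

/-- The permutation group induced on `S` by `S × S` with the action `(g, h) : x ↦ g⁻¹ x h`. -/
def twoSided (S : Type) [Group S] : Subgroup (Perm S) where
  carrier := {σ | ∃ g h : S, ∀ x : S, σ x = g⁻¹ * x * h}
  one_mem' := ⟨1, 1, by simp⟩
  mul_mem' := by
    rintro a b ⟨g, h, hgh⟩ ⟨g', h', hgh'⟩
    refine ⟨g' * g, h' * h, fun x => ?_⟩
    rw [Perm.mul_apply, hgh', hgh]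
    group
  inv_mem' := by
    rintro a ⟨g, h, hgh⟩
    refine ⟨g⁻¹, h⁻¹, fun x => ?_⟩
    rw [Perm.inv_eq_iff_eq, hgh]
    group

/-- The principle: a subset `A` of `S` which is sharply transitive on the cosets of a subgroup `H`
other than `1` and `S` (and on the cosets of the conjugates of `H`) shows that the two-sided action
of `S × S` on `S` is not synchronizing. -/
theorem not_sync_of_sharp {S : Type} [Group S] (H : Subgroup S) (h1 : H ≠ ⊥) (h2 : H ≠ ⊤)
    (A : Set S) (hA : ∀ s k : S, ∃! a : S, a ∈ A ∧ k⁻¹ * (a⁻¹ * s) * k ∈ H) :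
    ¬ Synchronizing (twoSided S) := by
  rintro ⟨-, hs⟩
  have hreg : IsRegularPartition (twoSided S) (QuotientGroup.leftRel H) := by
    refine ⟨A, ?_⟩
    rintro τ ⟨g, h, hτ⟩ x
    obtain ⟨a, ⟨haA, haH⟩, huniq⟩ := hA (g * x * h⁻¹) h
    refine ⟨τ a, ⟨⟨a, haA, rfl⟩, ?_⟩, ?_⟩
    · show (QuotientGroup.leftRel H) x (τ a)
      rw [QuotientGroup.leftRel_apply, hτ, ← H.inv_mem_iff]
      convert haH using 1
      group
    · rintro y ⟨⟨b, hbA, rfl⟩, hb⟩
      have hb' : (QuotientGroup.leftRel H) x (τ b) := hb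
      rw [QuotientGroup.leftRel_apply, hτ, ← H.inv_mem_iff] at hb'
      have : b = a := by
        apply huniq
        refine ⟨hbA, ?_⟩
        convert hb' using 1
        group
      rw [this]
  rcases hs _ hreg with h | h
  · apply h1
    rw [eq_bot_iff]
    intro x hx
    have : (QuotientGroup.leftRel H) 1 x := by
      rw [QuotientGroup.leftRel_apply]; simpa using hx
    rw [h] at this
    have h3 : (1 : S) = x := this
    rw [Subgroup.mem_bot, h3]
  · apply h2
    rw [eq_top_iff]
    intro x _
    have : (QuotientGroup.leftRel H) 1 x := by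
      rw [h]; trivial
    rw [QuotientGroup.leftRel_apply] at this
    simpa using this

/-! ### The orthogonal groups of plus type -/

section Orth

variable (m : ℕ) (F : Type) [Field F]

/-- The space `F ^ m × F ^ m` of dimension `2 m`. -/
abbrev Hyp : Type := (Fin m → F) × (Fin m → F)

variable {m F} in
/-- The quadratic form `∑ x_i y_i` of plus type. -/
def Q (v : Hyp m F) : F := ∑ i, v.1 i * v.2 i

/-- The orthogonal group `O⁺(2 m, F)`: the group of the linear permutations of `F ^ m × F ^ m` which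
preserve the quadratic form `∑ x_i y_i`. -/
def orth : Subgroup (Perm (Hyp m F)) where
  carrier := {s | (∀ v w, s (v + w) = s v + s w) ∧ (∀ (c : F) (v : Hyp m F), s (c • v) = c • s v) ∧
    ∀ v, Q (s v) = Q v}
  one_mem' := ⟨fun _ _ => rfl, fun _ _ => rfl, fun _ => rfl⟩
  mul_mem' := by
    rintro a b ⟨h1, h2, h3⟩ ⟨k1, k2, k3⟩
    refine ⟨fun v w => ?_, fun c v => ?_, fun v => ?_⟩
    · rw [Perm.mul_apply, k1, h1]; rfl
    · rw [Perm.mul_apply, k2, h2]; rfl
    · rw [Perm.mul_apply, h3, k3]
  inv_mem' := by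
    rintro a ⟨h1, h2, h3⟩
    refine ⟨fun v w => ?_, fun c v => ?_, fun v => ?_⟩
    · rw [Perm.inv_eq_iff_eq, h1]; simp
    · rw [Perm.inv_eq_iff_eq, h2]; simp
    · rw [← h3]; congr 1; exact a.apply_symm_apply v

/-- The group `Ω⁺(2 m, F)`: the commutator subgroup of `O⁺(2 m, F)`. -/
def Omega : Subgroup (Perm (Hyp m F)) := ⁅orth m F, orth m F⁆

/-- The group `PΩ⁺(2 m, F)`: the quotient of `Ω⁺(2 m, F)` by its centre. -/
abbrev POmega : Type := Omega m F ⧸ Subgroup.center (Omega m F)

variable {m F}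

/-- A linear automorphism preserving the form as an element of the orthogonal group. -/
def ofLin (g : Hyp m F ≃ₗ[F] Hyp m F) (h : ∀ v, Q (g v) = Q v) : orth m F :=
  ⟨g.toEquiv, g.map_add, g.map_smul, h⟩

@[simp] lemma ofLin_apply (g : Hyp m F ≃ₗ[F] Hyp m F) (h : ∀ v, Q (g v) = Q v) (v : Hyp m F) :
    (ofLin g h).1 v = g v := rfl

lemma orth_ext {g h : orth m F} (H : ∀ v, g.1 v = h.1 v) : g = h :=
  Subtype.ext (Equiv.ext H)

@[simp] lemma orth_mul_apply (g h : orth m F) (v : Hyp m F) : (g * h).1 v = g.1 (h.1 v) := rfl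

lemma Omega_le : Omega m F ≤ orth m F := by
  rw [Omega, Subgroup.commutator_le]
  intro a ha b hb
  exact (orth m F).mul_mem ((orth m F).mul_mem ((orth m F).mul_mem ha hb)
    ((orth m F).inv_mem ha)) ((orth m F).inv_mem hb)

lemma mem_Omega_of_mem {g : orth m F} (hg : g ∈ commutator (orth m F)) : g.1 ∈ Omega m F := by
  rw [Omega, ← Subgroup.map_subtype_commutator]
  exact Subgroup.mem_map_of_mem _ hg

lemma commutatorElement_mem_Omega (g h : orth m F) : (g * h * g⁻¹ * h⁻¹).1 ∈ Omega m F :=
  Subgroup.commutator_mem_commutator g.2 h.2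

/-- The linear map of an element of the orthogonal group. -/
def orthLin (g : orth m F) : Hyp m F →ₗ[F] Hyp m F where
  toFun := g.1
  map_add' := g.2.1
  map_smul' := g.2.2.1

/-- The action of `Ω` on vectors. -/
def ap (g : Omega m F) (v : Hyp m F) : Hyp m F := g.1 v

@[simp] lemma ap_mul (g h : Omega m F) (v : Hyp m F) : ap (g * h) v = ap g (ap h v) := rfl
@[simp] lemma ap_one (v : Hyp m F) : ap (1 : Omega m F) v = v := rfl

lemma ap_Q (g : Omega m F) (v : Hyp m F) : Q (ap g v) = Q v := (Omega_le g.2).2.2 v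

lemma ap_inv_ap (g : Omega m F) (v : Hyp m F) : ap g⁻¹ (ap g v) = v := by
  rw [← ap_mul, inv_mul_cancel, ap_one]

lemma ap_ap_inv (g : Omega m F) (v : Hyp m F) : ap g (ap g⁻¹ v) = v := by
  rw [← ap_mul, mul_inv_cancel, ap_one]

lemma omega_ext {g h : Omega m F} (H : ∀ v, ap g v = ap h v) : g = h :=
  Subtype.ext (Equiv.ext H)

/-- The linear map of an element of `Ω`. -/
def apLin (g : Omega m F) : Hyp m F →ₗ[F] Hyp m F := orthLin ⟨g.1, Omega_le g.2⟩

@[simp] lemma apLin_apply (g : Omega m F) (v : Hyp m F) : apLin g v = ap g v := rfl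

end Orth

end Pool.Agent.NS98
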