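import Mathlib

/-!
# A Kerdock set of alternating forms over a finite field of characteristic 2

`F` is a finite field of characteristic `2`, `E` an extension of odd degree `r`.  For `s` in `E` the
form `om s` on `E × F` is alternating, and the difference of two of these forms is nondegenerate.
-/

set_option autoImplicit false

namespace Pool.Agent.NS98.K

open Module

section Kerdock

variable {F E : Type} [Field F] [Field E] [Finite E] [Algebra F E] [CharP F 2]

/-- The form `Tr (s² x y) + Tr (s x) Tr (s y) + a Tr (s y) + b Tr (s x)`. -/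
noncomputable def om (s : E) : (E × F) →ₗ[F] (E × F) →ₗ[F] F :=
  LinearMap.mk₂ F (fun v w => Algebra.trace F E (s ^ 2 * v.1 * w.1)
      + Algebra.trace F E (s * v.1) * Algebra.trace F E (s * w.1)
      + v.2 * Algebra.trace F E (s * w.1) + w.2 * Algebra.trace F E (s * v.1))
    (by
      intro v v' w
      simp only [Prod.fst_add, Prod.snd_add, mul_add, add_mul, map_add]
      ring)
    (by
      intro c v w
      have h1 : s ^ 2 * (c • v).1 * w.1 = c • (s ^ 2 * v.1 * w.1) := by
        simp [Algebra.smul_def]; ring
      have h2 : s * (c • v).1 = c • (s * v.1) := by simp [Algebra.smul_def]; ring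
      rw [h1, h2]
      simp only [map_smul, smul_eq_mul, Prod.smul_snd]
      ring)
    (by
      intro v w w'
      simp only [Prod.fst_add, Prod.snd_add, mul_add, add_mul, map_add]
      ring)
    (by
      intro c v w
      have h1 : s ^ 2 * v.1 * (c • w).1 = c • (s ^ 2 * v.1 * w.1) := by
        simp [Algebra.smul_def]; ring
      have h2 : s * (c • w).1 = c • (s * w.1) := by simp [Algebra.smul_def]; ring
      rw [h1, h2]
      simp only [map_smul, smul_eq_mul, Prod.smul_snd]
      ring)

theorem om_apply (s : E) (v w : E × F) : om s v w = Algebra.trace F E (s ^ 2 * v.1 * w.1)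
      + Algebra.trace F E (s * v.1) * Algebra.trace F E (s * w.1)
      + v.2 * Algebra.trace F E (s * w.1) + w.2 * Algebra.trace F E (s * v.1) := rfl

theorem two_F : (2 : F) = 0 := CharP.cast_eq_zero F 2

theorem two_E (F : Type) {E : Type} [Field F] [Field E] [Algebra F E] [CharP F 2] :
    (2 : E) = 0 := by
  have h : algebraMap F E 2 = 2 := map_ofNat _ 2
  rw [← h, two_F (F := F), map_zero]

/-- The trace commutes with squaring. -/
theorem trace_sq (x : E) : Algebra.trace F E (x ^ 2) = (Algebra.trace F E x) ^ 2 := by
  have : CharP E 2 := by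
    have := charP_of_injective_algebraMap (FaithfulSMul.algebraMap_injective F E) 2
    exact this
  apply FaithfulSMul.algebraMap_injective F E
  rw [map_pow (algebraMap F E), FiniteField.algebraMap_trace_eq_sum_pow, FiniteField.algebraMap_trace_eq_sum_pow]
  have : Fact (Nat.Prime 2) := ⟨Nat.prime_two⟩
  rw [sum_pow_char]
  refine Finset.sum_congr rfl fun i _ => ?_
  rw [← pow_mul, ← pow_mul, mul_comm]

theorem om_self (s : E) (v : E × F) : om s v v = 0 := by
  rw [om_apply]
  have h : s ^ 2 * v.1 * v.1 = (s * v.1) ^ 2 := by ring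
  rw [h, trace_sq]
  have h2 := two_F (F := F)
  linear_combination ((Algebra.trace F E (s * v.1)) ^ 2 + v.2 * Algebra.trace F E (s * v.1)) * h2

theorem om_zero : om (0 : E) = (0 : (E × F) →ₗ[F] (E × F) →ₗ[F] F) := by
  apply LinearMap.ext₂
  intro v w
  rw [om_apply]
  simp

/-- The difference of two of the forms is nondegenerate. -/
theorem om_inj (hr : Odd (finrank F E)) {s t : E} (hst : s ≠ t) (v : E × F)
    (h : ∀ w, om s v w = om t v w) : v = 0 := by
  obtain ⟨x, a⟩ := v
  have h2 := two_F (F := F)
  have h2' := two_E F (E := E)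
  have hsum : s + t ≠ 0 := by
    intro h0
    apply hst
    linear_combination h0 - t * h2'
  -- second coordinate
  have hb := h (0, 1)
  simp only [om_apply, mul_zero, map_zero, zero_add, add_zero, one_mul] at hb
  set τ := Algebra.trace F E (s * x) with hτ
  -- first coordinate
  have hy : ∀ y : E, Algebra.trace F E (((s + t) * ((s + t) * x + algebraMap F E (τ + a))) * y)
      = 0 := by
    intro y
    have hy := h (y, 0)
    simp only [om_apply, zero_mul, add_zero] at hy
    rw [← hb, ← hτ] at hy
    have e1 : ((s + t) * ((s + t) * x + algebraMap F E (τ + a))) * y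
        = s ^ 2 * x * y + t ^ 2 * x * y + (2 : E) * (s * t * x * y)
          + (τ + a) • (s * y) + (τ + a) • (t * y) := by
      rw [Algebra.smul_def, Algebra.smul_def]
      ring
    rw [e1, h2']
    simp only [zero_mul, add_zero, map_add, map_smul, smul_eq_mul]
    linear_combination hy + (Algebra.trace F E (t ^ 2 * x * y) + (τ + a) * Algebra.trace F E (t * y)) * h2
  have hnd := (traceForm_nondegenerate F E).1
  have hz : (s + t) * ((s + t) * x + algebraMap F E (τ + a)) = 0 := by
    apply hnd
    intro y
    rw [Algebra.traceForm_apply]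
    exact hy y
  have hz' : (s + t) * x + algebraMap F E (τ + a) = 0 :=
    (mul_eq_zero.mp hz).resolve_left hsum
  have hz2 : (s + t) * x = algebraMap F E (τ + a) := by
    linear_combination hz' - algebraMap F E (τ + a) * h2'
  have htr : Algebra.trace F E ((s + t) * x) = 0 := by
    rw [add_mul, map_add, ← hb, ← hτ]
    linear_combination τ * h2
  rw [hz2, Algebra.trace_algebraMap] at htr
  obtain ⟨j, hj⟩ := hr
  have hta : τ + a = 0 := by
    rw [hj, nsmul_eq_mul] at htr
    push_cast at htr
    linear_combination htr - (j : F) * (τ + a) * h2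
  have hx : x = 0 := by
    rw [hta, map_zero] at hz2
    exact (mul_eq_zero.mp hz2).resolve_left hsum
  have hτ0 : τ = 0 := by rw [hτ, hx, mul_zero, map_zero]
  have ha : a = 0 := by rw [hτ0, zero_add] at hta; exact hta
  rw [hx, ha]; rfl

/-- The map `(x, a) ↦ (c x, a)`. -/
noncomputable def sc (c : Eˣ) : (E × F) ≃ₗ[F] (E × F) :=
  LinearEquiv.prodCongr
    { toFun := fun x => (c : E) * x
      invFun := fun x => ((c⁻¹ : Eˣ) : E) * x
      map_add' := fun x y => mul_add _ _ _
      map_smul' := fun a x => by simp [Algebra.smul_def]; ring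
      left_inv := fun x => by simp
      right_inv := fun x => by simp }
    (LinearEquiv.refl F F)

theorem om_sc (s : E) (c : Eˣ) (v w : E × F) :
    om s (sc c v) (sc c w) = om (s * c) v w := by
  rw [om_apply, om_apply]
  simp only [sc, LinearEquiv.prodCongr_apply, LinearEquiv.coe_mk, LinearMap.coe_mk, AddHom.coe_mk,
    LinearEquiv.refl_apply]
  rw [show s ^ 2 * ((c : E) * v.1) * ((c : E) * w.1) = (s * (c : E)) ^ 2 * v.1 * w.1 by ring,
    show s * ((c : E) * v.1) = s * (c : E) * v.1 by ring,
    show s * ((c : E) * w.1) = s * (c : E) * w.1 by ring]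

theorem om_three (s t : E) (v w : E × F) :
    om s v w + om t v w + om (s + t) v w
      = Algebra.trace F E (s * v.1) * Algebra.trace F E (t * w.1)
        + Algebra.trace F E (t * v.1) * Algebra.trace F E (s * w.1) := by
  simp only [om_apply]
  have h2 := two_F (F := F)
  have h2' := two_E F (E := E)
  have e1 : (s + t) ^ 2 * v.1 * w.1 = s ^ 2 * v.1 * w.1 + t ^ 2 * v.1 * w.1 := by
    linear_combination s * t * v.1 * w.1 * h2'
  rw [e1]
  simp only [add_mul, map_add]
  linear_combination (Algebra.trace F E (s ^ 2 * v.1 * w.1) + Algebra.trace F E (t ^ 2 * v.1 * w.1)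
    + Algebra.trace F E (s * v.1) * Algebra.trace F E (s * w.1)
    + Algebra.trace F E (t * v.1) * Algebra.trace F E (t * w.1)
    + v.2 * Algebra.trace F E (s * w.1) + v.2 * Algebra.trace F E (t * w.1)
    + w.2 * Algebra.trace F E (s * v.1) + w.2 * Algebra.trace F E (t * v.1)) * h2

/-- The sum of the forms over a three-dimensional `F_2`-subspace is zero. -/
theorem om_seven (s t u : E) :
    om s + om t + om u + om (s + t) + om (s + u) + om (t + u) + om (s + t + u)
      = (0 : (E × F) →ₗ[F] (E × F) →ₗ[F] F) := by
  apply LinearMap.ext₂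
  intro v w
  simp only [LinearMap.add_apply, LinearMap.zero_apply]
  have h1 := om_three s t v w
  have h2 := om_three s u v w
  have h3 := om_three t u v w
  have h4 := om_three (s + t) u v w
  have h0 := two_F (F := F)
  simp only [add_mul, map_add] at h4
  linear_combination h2 + h3 + h4 + (-(om u v w)
    + Algebra.trace F E (s * v.1) * Algebra.trace F E (u * w.1)
    + Algebra.trace F E (u * v.1) * Algebra.trace F E (s * w.1)
    + Algebra.trace F E (t * v.1) * Algebra.trace F E (u * w.1)
    + Algebra.trace F E (u * v.1) * Algebra.trace F E (t * w.1)) * h0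

end Kerdock

end Pool.Agent.NS98.K
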