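import Pool.Agent.NS98.Base
import Pool.Agent.NS98.Kerdock26

/-!
# `Ω⁺(2 m, q)`, `q` and `m` even: the two-sided action is not synchronizing
-/

set_option autoImplicit false
set_option linter.unusedSectionVars false

namespace Pool.Agent.NS98.K

open Module

section OW

variable (F W : Type) [Field F] [AddCommGroup W] [Module F W]

/-- The isometries of the quadratic form `f w` on `W × W*`. -/
def OW : Subgroup ((W × Dual F W) ≃ₗ[F] (W × Dual F W)) where
  carrier := {g | ∀ v, (g v).2 (g v).1 = v.2 v.1}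
  one_mem' := fun v => rfl
  mul_mem' := by
    intro a b ha hb v
    show (a (b v)).2 (a (b v)).1 = v.2 v.1
    rw [ha, hb]
  inv_mem' := by
    intro a ha v
    have := ha (a.symm v)
    rw [LinearEquiv.apply_symm_apply] at this
    exact this.symm

variable {F W}

/-- `(w, f) ↦ (g w, f g⁻¹)`. -/
noncomputable def hat (g : W ≃ₗ[F] W) : OW F W :=
  ⟨LinearEquiv.prodCongr g g.symm.dualMap, by
    intro v
    show (g.symm.dualMap v.2) (g v.1) = v.2 v.1
    rw [LinearEquiv.dualMap_apply, LinearEquiv.symm_apply_apply]⟩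

theorem hat_fst (g : W ≃ₗ[F] W) (v : W × Dual F W) :
    ((hat g : OW F W) : (W × Dual F W) ≃ₗ[F] (W × Dual F W)) v
      = (g v.1, v.2 ∘ₗ g.symm.toLinearMap) := rfl

theorem hat_mul (g h : W ≃ₗ[F] W) : hat (g * h) = hat g * hat h := by
  apply Subtype.ext
  apply LinearEquiv.ext
  intro v
  rfl

/-- `(w, f) ↦ (w, f + ω w)`. -/
noncomputable def up (ω : W →ₗ[F] W →ₗ[F] F) (h : ∀ w, ω w w = 0) : OW F W :=
  ⟨{ toFun := fun v => (v.1, v.2 + ω v.1)
     invFun := fun v => (v.1, v.2 - ω v.1)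
     map_add' := fun v w => by
      simp only [Prod.fst_add, Prod.snd_add, map_add, Prod.mk_add_mk]
      congr 1
      abel
     map_smul' := fun c v => by
      simp only [Prod.smul_fst, Prod.smul_snd, map_smul, smul_add, RingHom.id_apply,
        Prod.smul_mk]
     left_inv := fun v => by simp
     right_inv := fun v => by simp }, by
    intro v
    show (v.2 + ω v.1) v.1 = v.2 v.1
    rw [LinearMap.add_apply, h, add_zero]⟩

theorem up_apply (ω : W →ₗ[F] W →ₗ[F] F) (h : ∀ w, ω w w = 0) (v : W × Dual F W) :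
    ((up ω h : OW F W) : (W × Dual F W) ≃ₗ[F] (W × Dual F W)) v = (v.1, v.2 + ω v.1) := rfl

theorem up_congr {ω ω' : W →ₗ[F] W →ₗ[F] F} (e : ω = ω') (h : ∀ w, ω w w = 0)
    (h' : ∀ w, ω' w w = 0) : up ω h = up ω' h' := by
  subst e; rfl

theorem up_mul (ω ω' : W →ₗ[F] W →ₗ[F] F) (h : ∀ w, ω w w = 0) (h' : ∀ w, ω' w w = 0)
    (h'' : ∀ w, (ω + ω') w w = 0) : up ω h * up ω' h' = up (ω + ω') h'' := by
  apply Subtype.ext
  apply LinearEquiv.ext
  intro v
  show (v.1, (v.2 + ω' v.1) + ω v.1) = (v.1, v.2 + (ω + ω') v.1)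
  rw [LinearMap.add_apply, add_assoc, add_comm (ω' v.1)]

theorem up_zero (h : ∀ w, (0 : W →ₗ[F] W →ₗ[F] F) w w = 0) : up 0 h = (1 : OW F W) := by
  apply Subtype.ext
  apply LinearEquiv.ext
  intro v
  show (v.1, v.2 + (0 : W →ₗ[F] W →ₗ[F] F) v.1) = v
  simp

/-- Conjugating `up ω` by `hat g`. -/
theorem hat_up (g : W ≃ₗ[F] W) (ω ω' : W →ₗ[F] W →ₗ[F] F) (h : ∀ w, ω w w = 0)
    (h' : ∀ w, ω' w w = 0) (e : ∀ w w', ω' (g w) (g w') = ω w w') :
    hat g * up ω h = up ω' h' * hat g := by
  apply Subtype.ext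
  apply LinearEquiv.ext
  intro v
  show (g v.1, (v.2 + ω v.1) ∘ₗ g.symm.toLinearMap)
    = (g v.1, v.2 ∘ₗ g.symm.toLinearMap + ω' (g v.1))
  congr 1
  apply LinearMap.ext
  intro z
  have := e v.1 (g.symm z)
  rw [LinearEquiv.apply_symm_apply] at this
  simp [this]

end OW

section Field

variable {F K : Type} [Field F] [Field K] [Finite K] [Algebra F K]

/-- Multiplication by a unit. -/
def mulU (F : Type) {K : Type} [Field F] [Field K] [Algebra F K] (k : Kˣ) : K ≃ₗ[F] K where
  toFun x := (k : K) * x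
  invFun x := ((k⁻¹ : Kˣ) : K) * x
  map_add' x y := mul_add _ _ _
  map_smul' a x := by simp [Algebra.smul_def]; ring
  left_inv x := by simp
  right_inv x := by simp

theorem mulU_apply (k : Kˣ) (x : K) : mulU F k x = (k : K) * x := rfl

theorem mulU_symm_apply (k : Kˣ) (x : K) : (mulU F k).symm x = ((k⁻¹ : Kˣ) : K) * x := rfl

theorem mulU_mul (k l : Kˣ) : mulU F (k * l) = mulU F k * mulU F l := by
  apply LinearEquiv.ext
  intro x
  show ((k * l : Kˣ) : K) * x = (k : K) * ((l : K) * x)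
  rw [Units.val_mul, mul_assoc]

/-- The identification of `K` with its dual given by the trace form. -/
noncomputable def bt (F K : Type) [Field F] [Field K] [Finite K] [Algebra F K] : K ≃ₗ[F] Dual F K :=
  (Algebra.traceForm F K).toDual (traceForm_nondegenerate F K)

theorem bt_apply (x y : K) : bt F K x y = Algebra.trace F K (x * y) := by
  unfold bt
  rw [LinearMap.BilinForm.toDual_def, Algebra.traceForm_apply]

/-- The isometry exchanging `K` and its dual. -/
noncomputable def sg (F K : Type) [Field F] [Field K] [Finite K] [Algebra F K] : OW F K :=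
  ⟨(LinearEquiv.prodComm F K (Dual F K)).trans (LinearEquiv.prodCongr (bt F K).symm (bt F K)), by
    intro v
    show (bt F K v.1) ((bt F K).symm v.2) = v.2 v.1
    rw [bt_apply, mul_comm, ← bt_apply, LinearEquiv.apply_symm_apply]⟩

theorem sg_hat (k : Kˣ) :
    sg F K * hat (mulU F k) = hat (mulU F k⁻¹) * sg F K := by
  apply Subtype.ext
  apply LinearEquiv.ext
  intro v
  show ((bt F K).symm (v.2 ∘ₗ (mulU F k).symm.toLinearMap), bt F K (mulU F k v.1))
    = (mulU F k⁻¹ ((bt F K).symm v.2), (bt F K v.1) ∘ₗ (mulU F k⁻¹).symm.toLinearMap)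
  congr 1
  · rw [LinearEquiv.symm_apply_eq]
    apply LinearMap.ext
    intro z
    rw [bt_apply, mulU_apply]
    show v.2 (((k⁻¹ : Kˣ) : K) * z) = _
    rw [show ((k⁻¹ : Kˣ) : K) * (bt F K).symm v.2 * z
      = (bt F K).symm v.2 * (((k⁻¹ : Kˣ) : K) * z) by ring, ← bt_apply,
      LinearEquiv.apply_symm_apply]
  · apply LinearMap.ext
    intro z
    show bt F K ((k : K) * v.1) z = bt F K v.1 (((k⁻¹⁻¹ : Kˣ) : K) * z)
    rw [bt_apply, bt_apply, inv_inv]
    congr 1
    ring

/-- Multiplication by a unit gives an element of the commutator subgroup. -/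
theorem hat_mem [CharP F 2] (k : Kˣ) : hat (mulU F k) ∈ commutator (OW F K) := by
  rw [← Abelianization.ker_of, MonoidHom.mem_ker]
  have hsq : ∀ l : Kˣ, Abelianization.of (hat (mulU F l) : OW F K)
      = (Abelianization.of (hat (mulU F l) : OW F K))⁻¹ := by
    intro l
    have h1 := congrArg Abelianization.of (sg_hat (F := F) l)
    rw [map_mul, map_mul, mul_comm] at h1
    have h2 := mul_right_cancel h1
    have h3 : (hat (mulU F l⁻¹) : OW F K) * hat (mulU F l) = 1 := by
      rw [← hat_mul, ← mulU_mul, inv_mul_cancel]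
      apply Subtype.ext
      apply LinearEquiv.ext
      intro v
      show (((1 : Kˣ) : K) * v.1, v.2 ∘ₗ (mulU F (1 : Kˣ)).symm.toLinearMap) = v
      apply Prod.ext
      · simp
      · apply LinearMap.ext
        intro z
        show v.2 (((1⁻¹ : Kˣ) : K) * z) = v.2 z
        simp
    have h4 := congrArg Abelianization.of h3
    rw [map_mul, map_one] at h4
    rw [h2]
    rw [← mul_eq_one_iff_eq_inv]
    rw [h2] at h4
    exact h4
  have : CharP K 2 :=
    charP_of_injective_algebraMap (FaithfulSMul.algebraMap_injective F K) 2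
  obtain ⟨y, hy⟩ := FiniteField.isSquare_of_char_two (F := K) (ringChar.eq_iff.2 this) (k : K)
  have hy0 : y ≠ 0 := by
    intro h0
    rw [h0, mul_zero] at hy
    exact k.ne_zero hy
  have hk : k = Units.mk0 y hy0 * Units.mk0 y hy0 := by
    apply Units.ext
    rw [Units.val_mul, Units.val_mk0, hy]
  rw [hk, mulU_mul, hat_mul, map_mul]
  have := hsq (Units.mk0 y hy0)
  nth_rewrite 1 [this]
  rw [inv_mul_cancel]

end Field

section Ker

variable {F K E : Type} [Field F] [Field K] [Finite K] [Algebra F K] [Field E] [Finite E]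
  [Algebra F E] [CharP F 2]

/-- The Kerdock form transported to `K`. -/
noncomputable def kf (ψ : K ≃ₗ[F] (E × F)) (s : E) : K →ₗ[F] K →ₗ[F] F :=
  (om s).compl₁₂ ψ.toLinearMap ψ.toLinearMap

theorem kf_apply (ψ : K ≃ₗ[F] (E × F)) (s : E) (x y : K) : kf ψ s x y = om s (ψ x) (ψ y) := rfl

theorem kf_self (ψ : K ≃ₗ[F] (E × F)) (s : E) (x : K) : kf ψ s x x = 0 := om_self s (ψ x)

theorem add_self_form (ω : K →ₗ[F] K →ₗ[F] F) : ω + ω = 0 := by
  apply LinearMap.ext₂
  intro x y
  show ω x y + ω x y = 0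
  linear_combination (ω x y) * two_F (F := F)

/-- All `up (kf ψ s)`, `s ≠ 0`, have the same class modulo commutators. -/
theorem up_class (ψ : K ≃ₗ[F] (E × F)) {s : E} (hs : s ≠ 0) :
    Abelianization.of (up (kf ψ s) (kf_self ψ s)) = Abelianization.of (up (kf ψ 1) (kf_self ψ 1)) := by
  let g : K ≃ₗ[F] K := (ψ.trans (sc (Units.mk0 s hs))).trans ψ.symm
  have h := hat_up g (kf ψ s) (kf ψ 1) (kf_self ψ s) (kf_self ψ 1) (by
    intro w w'
    rw [kf_apply, kf_apply]
    show om 1 (ψ (ψ.symm (sc (Units.mk0 s hs) (ψ w)))) (ψ (ψ.symm (sc (Units.mk0 s hs) (ψ w'))))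
      = _
    rw [LinearEquiv.apply_symm_apply, LinearEquiv.apply_symm_apply, om_sc, one_mul, Units.val_mk0])
  have h1 := congrArg Abelianization.of h
  rw [map_mul, map_mul, mul_comm] at h1
  exact mul_right_cancel h1

theorem up_mem (hE : 4 < Nat.card E) (ψ : K ≃ₗ[F] (E × F)) (s : E) :
    up (kf ψ s) (kf_self ψ s) ∈ commutator (OW F K) := by
  classical
  have := Fintype.ofFinite E
  rw [Nat.card_eq_fintype_card] at hE
  rw [← Abelianization.ker_of, MonoidHom.mem_ker]
  by_cases hs : s = 0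
  · have e : kf ψ s = 0 := by
      apply LinearMap.ext₂
      intro x y
      rw [kf_apply, hs, om_zero]
      rfl
    rw [up_congr e (kf_self ψ s) (fun w => rfl), up_zero, map_one]
  rw [up_class ψ hs]
  set κ := Abelianization.of (up (kf ψ 1) (kf_self ψ 1)) with hκ
  -- the square
  have hκ2 : κ * κ = 1 := by
    rw [hκ, ← map_mul, up_mul _ _ _ _ (by
      intro w; rw [add_self_form]; rfl)]
    rw [up_congr (add_self_form (kf ψ 1)) _ (fun w => rfl), up_zero, map_one]
  -- three independent elements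
  have h2 := two_E F (E := E)
  obtain ⟨t, ht⟩ : ∃ t : E, t ∉ ({0, 1} : Finset E) := by
    by_contra hcon
    push Not at hcon
    have := Finset.card_le_card (fun x _ => hcon x : (Finset.univ : Finset E) ⊆ {0, 1})
    rw [Finset.card_univ] at this
    have h' := Finset.card_le_two (a := (0 : E)) (b := 1)
    omega
  obtain ⟨u, hu⟩ : ∃ u : E, u ∉ ({0, 1, t, 1 + t} : Finset E) := by
    by_contra hcon
    push Not at hcon
    have := Finset.card_le_card (fun x _ => hcon x : (Finset.univ : Finset E) ⊆ {0, 1, t, 1 + t})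
    rw [Finset.card_univ] at this
    have h' := Finset.card_le_four (a := (0 : E)) (b := 1) (c := t) (d := 1 + t)
    omega
  simp only [Finset.mem_insert, Finset.mem_singleton, not_or] at ht hu
  obtain ⟨ht0, ht1⟩ := ht
  obtain ⟨hu0, hu1, hut, hu1t⟩ := hu
  have n1 : (1 : E) + t ≠ 0 := fun h => ht1 (by linear_combination h - h2)
  have n2 : (1 : E) + u ≠ 0 := fun h => hu1 (by linear_combination h - h2)
  have n3 : t + u ≠ 0 := fun h => hut (by linear_combination h - t * h2)
  have n4 : (1 : E) + t + u ≠ 0 := fun h => hu1t (by linear_combination h - (1 + t) * h2)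
  have hself : ∀ ω ω' : K →ₗ[F] K →ₗ[F] F, (∀ w, ω w w = 0) → (∀ w, ω' w w = 0) →
      ∀ w, (ω + ω') w w = 0 := by
    intro ω ω' h h' w
    show ω w w + ω' w w = 0
    rw [h, h', add_zero]
  have a1 := kf_self ψ (1 : E)
  have a2 := kf_self ψ t
  have a3 := kf_self ψ u
  have a4 := kf_self ψ (1 + t)
  have a5 := kf_self ψ (1 + u)
  have a6 := kf_self ψ (t + u)
  have a7 := kf_self ψ (1 + t + u)
  have b2 := hself _ _ a1 a2
  have b3 := hself _ _ b2 a3
  have b4 := hself _ _ b3 a4
  have b5 := hself _ _ b4 a5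
  have b6 := hself _ _ b5 a6
  have b7 := hself _ _ b6 a7
  have hprod : up _ a1 * up _ a2 * up _ a3 * up _ a4 * up _ a5 * up _ a6 * up _ a7 = 1 := by
    rw [up_mul _ _ a1 a2 b2, up_mul _ _ b2 a3 b3, up_mul _ _ b3 a4 b4, up_mul _ _ b4 a5 b5,
      up_mul _ _ b5 a6 b6, up_mul _ _ b6 a7 b7]
    rw [up_congr (ω' := 0) _ b7 (fun w => rfl), up_zero]
    apply LinearMap.ext₂
    intro x y
    have := om_seven (1 : E) t u (F := F)
    have h := congrArg (fun f => f (ψ x) (ψ y)) this
    exact h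
  have h := congrArg Abelianization.of hprod
  simp only [map_mul, map_one] at h
  rw [up_class ψ ht0, up_class ψ hu0, up_class ψ n1, up_class ψ n2, up_class ψ n3,
    up_class ψ n4, ← hκ, hκ2, one_mul, hκ2, one_mul, hκ2, one_mul] at h
  exact h

theorem kf_inj (hr : Odd (finrank F E)) (ψ : K ≃ₗ[F] (E × F)) {w : K} (hw : w ≠ 0) {s t : E}
    (h : kf ψ s w = kf ψ t w) : s = t := by
  by_contra hne
  have h2 := om_inj hr hne (ψ w) (by
    intro z
    have h3 := LinearMap.congr_fun h (ψ.symm z)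
    rw [kf_apply, kf_apply, LinearEquiv.apply_symm_apply] at h3
    exact h3)
  exact hw ((LinearEquiv.map_eq_zero_iff ψ).1 h2)

/-- For `w ≠ 0` the Kerdock forms give all functionals vanishing at `w`, each once. -/
theorem kf_bij [Finite F] (hr : Odd (finrank F E)) (hK : finrank F K = finrank F E + 1)
    (ψ : K ≃ₗ[F] (E × F)) {w : K} (hw : w ≠ 0) (f : Dual F K) (hf : f w = 0) :
    ∃ s : E, kf ψ s w = f := by
  have hev : Module.Dual.eval F K w ≠ 0 := by
    intro h0
    apply hw
    exact (Module.eval_apply_eq_zero_iff F w).1 h0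
  have hfin : finrank F (LinearMap.ker (Module.Dual.eval F K w)) = finrank F E := by
    have h := Module.Dual.finrank_ker_add_one_of_ne_zero hev
    rw [Subspace.dual_finrank_eq, hK] at h
    omega
  have hmem : ∀ s : E, kf ψ s w ∈ LinearMap.ker (Module.Dual.eval F K w) := by
    intro s
    rw [LinearMap.mem_ker, Module.Dual.eval_apply]
    exact kf_self ψ s w
  let θ : E → LinearMap.ker (Module.Dual.eval F K w) := fun s => ⟨kf ψ s w, hmem s⟩
  have hinj : Function.Injective θ := fun s t hst => kf_inj hr ψ hw (congrArg Subtype.val hst)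
  have : Finite (LinearMap.ker (Module.Dual.eval F K w)) := by
    apply Module.finite_of_finite F
  have hbij := hinj.bijective_of_nat_card_le (by
    rw [Module.natCard_eq_pow_finrank (K := F), Module.natCard_eq_pow_finrank (K := F) (V := E),
      hfin])
  obtain ⟨s, hs⟩ := hbij.2 ⟨f, by rw [LinearMap.mem_ker, Module.Dual.eval_apply]; exact hf⟩
  exact ⟨s, congrArg Subtype.val hs⟩

end Ker

section Final

variable {F : Type} [Field F] {m : ℕ} {K : Type} [AddCommGroup K] [Module F K]

/-- The identification of `F ^ m × F ^ m` with `K × K*`. -/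
noncomputable def Psi (φ : (Fin m → F) ≃ₗ[F] K) : Hyp m F ≃ₗ[F] (K × Dual F K) :=
  LinearEquiv.prodCongr φ ((dotProductEquiv F (Fin m)).trans φ.symm.dualMap)

theorem Psi_Q (φ : (Fin m → F) ≃ₗ[F] K) (v : Hyp m F) : (Psi φ v).2 (Psi φ v).1 = Q v := by
  show (dotProductEquiv F (Fin m) v.2) (φ.symm (φ v.1)) = Q v
  rw [LinearEquiv.symm_apply_apply]
  simp only [dotProductEquiv_apply_apply, dotProduct, Q]
  exact Finset.sum_congr rfl fun i _ => mul_comm _ _

/-- The isometries of `K × K*` and of `F ^ m × F ^ m`. -/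
noncomputable def eO (φ : (Fin m → F) ≃ₗ[F] K) : OW F K →* orth m F where
  toFun g := ofLin
    ((Psi φ).trans ((g : (K × Dual F K) ≃ₗ[F] (K × Dual F K)).trans (Psi φ).symm)) (by
    intro v
    rw [← Psi_Q φ, ← Psi_Q φ v]
    have := g.2 (Psi φ v)
    simp only [LinearEquiv.trans_apply, LinearEquiv.apply_symm_apply]
    exact this)
  map_one' := by
    apply orth_ext
    intro v
    show (Psi φ).symm (Psi φ v) = v
    rw [LinearEquiv.symm_apply_apply]
  map_mul' g h := by
    apply orth_ext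
    intro v
    show (Psi φ).symm (g.1 (h.1 (Psi φ v)))
      = (Psi φ).symm (g.1 (Psi φ ((Psi φ).symm (h.1 (Psi φ v)))))
    rw [LinearEquiv.apply_symm_apply]

theorem eO_apply (φ : (Fin m → F) ≃ₗ[F] K) (g : OW F K) (v : Hyp m F) :
    (eO φ g).1 v = (Psi φ).symm ((g : (K × Dual F K) ≃ₗ[F] (K × Dual F K)) (Psi φ v)) := rfl

theorem eO_mem (φ : (Fin m → F) ≃ₗ[F] K) {g : OW F K} (hg : g ∈ commutator (OW F K)) :
    eO φ g ∈ commutator (orth m F) := by
  have h : (commutator (OW F K)).map (eO φ) ≤ commutator (orth m F) := by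
    rw [commutator_def, commutator_def, Subgroup.map_commutator]
    exact Subgroup.commutator_mono le_top le_top
  exact h (Subgroup.mem_map_of_mem _ hg)

/-- The element of `Ω` given by an element of the commutator subgroup of `OW`. -/
noncomputable def mk (φ : (Fin m → F) ≃ₗ[F] K) (g : OW F K) (hg : g ∈ commutator (OW F K)) :
    Omega m F := ⟨(eO φ g).1, mem_Omega_of_mem (eO_mem φ hg)⟩

/-- The action of `Ω` on the space. -/
def pt (g : Omega m F) (v : Hyp m F) : Hyp m F := ap g v

theorem pt_mk (φ : (Fin m → F) ≃ₗ[F] K) (g : OW F K) (hg : g ∈ commutator (OW F K))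
    (v : Hyp m F) : pt (mk φ g hg) v
      = (Psi φ).symm ((g : (K × Dual F K) ≃ₗ[F] (K × Dual F K)) (Psi φ v)) := rfl

theorem pt_mul (g h : Omega m F) (v : Hyp m F) : pt (g * h) v = pt g (pt h v) := rfl

theorem pt_one (v : Hyp m F) : pt (1 : Omega m F) v = v := rfl

theorem pt_inv_eq (g : Omega m F) (v w : Hyp m F) : pt g⁻¹ v = w ↔ v = pt g w := by
  constructor
  · intro h
    rw [← h, ← pt_mul, mul_inv_cancel, pt_one]
  · intro h
    rw [h, ← pt_mul, inv_mul_cancel, pt_one]

theorem pt_Q (g : Omega m F) (v : Hyp m F) : Q (pt g v) = Q v := ap_Q g v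

/-- The stabilizer of a point. -/
def stab (x : Hyp m F) : Subgroup (Omega m F) where
  carrier := {g | pt g x = x}
  one_mem' := rfl
  mul_mem' := by
    intro a b ha hb
    show pt (a * b) x = x
    rw [pt_mul]
    have hb' : pt b x = x := hb
    rw [hb']
    exact ha
  inv_mem' := by
    intro a ha
    have ha' : pt a x = x := ha
    exact (pt_inv_eq a x x).2 ha'.symm

end Final

section Main

variable {F : Type} [Field F] [Finite F] [CharP F 2] {m : ℕ} {K : Type} [Field K] [Finite K]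
  [Algebra F K] {E : Type} [Field E] [Finite E] [Algebra F E]

/-- The elements of the sharply transitive set. -/
noncomputable def el (hE : 4 < Nat.card E) (φ : (Fin m → F) ≃ₗ[F] K) (ψ : K ≃ₗ[F] (E × F))
    (k : Kˣ) (s : E) : Omega m F :=
  mk φ (hat (mulU F k) * up (kf ψ s) (kf_self ψ s))
    (Subgroup.mul_mem _ (hat_mem k) (up_mem hE ψ s))

theorem pt_el (hE : 4 < Nat.card E) (φ : (Fin m → F) ≃ₗ[F] K) (ψ : K ≃ₗ[F] (E × F))
    (k : Kˣ) (s : E) (v : Hyp m F) :
    Psi φ (pt (el hE φ ψ k s) v)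
      = ((k : K) * (Psi φ v).1,
          ((Psi φ v).2 + kf ψ s (Psi φ v).1) ∘ₗ (mulU F k).symm.toLinearMap) := by
  rw [el, pt_mk, LinearEquiv.apply_symm_apply]
  rfl

theorem sharp_exists (hE : 4 < Nat.card E) (hr : Odd (finrank F E))
    (hK : finrank F K = finrank F E + 1) (φ : (Fin m → F) ≃ₗ[F] K) (ψ : K ≃ₗ[F] (E × F))
    (x y : Hyp m F) (hx : Q x = 1) (hy : Q y = 1) :
    ∃ (k : Kˣ) (s : E), pt (el hE φ ψ k s) x = y := by
  rw [← Psi_Q φ] at hx hy
  rcases hxw : Psi φ x with ⟨w, f⟩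
  rcases hyw : Psi φ y with ⟨w', f'⟩
  rw [hxw] at hx
  rw [hyw] at hy
  have hx' : f w = 1 := hx
  have hy' : f' w' = 1 := hy
  have hw : w ≠ 0 := by rintro rfl; simp at hx'
  have hw' : w' ≠ 0 := by rintro rfl; simp at hy'
  let k : Kˣ := Units.mk0 (w' / w) (div_ne_zero hw' hw)
  have hkw : (k : K) * w = w' := by
    show w' / w * w = w'
    field_simp
  obtain ⟨s, hs⟩ := kf_bij hr hK ψ hw (f' ∘ₗ (mulU F k).toLinearMap - f) (by
    show f' ((k : K) * w) - f w = 0
    rw [hkw, hx', hy', sub_self])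
  refine ⟨k, s, ?_⟩
  apply (Psi φ).injective
  rw [pt_el, hxw, hyw, hs]
  show ((k : K) * w, _) = (w', f')
  rw [hkw]
  congr 1
  apply LinearMap.ext
  intro z
  show (f + (f' ∘ₗ (mulU F k).toLinearMap - f)) ((mulU F k).symm z) = f' z
  rw [add_sub_cancel]
  show f' (mulU F k ((mulU F k).symm z)) = f' z
  rw [LinearEquiv.apply_symm_apply]

theorem sharp_unique (hE : 4 < Nat.card E) (hr : Odd (finrank F E))
    (φ : (Fin m → F) ≃ₗ[F] K) (ψ : K ≃ₗ[F] (E × F))
    (x : Hyp m F) (hx : Q x = 1) {k l : Kˣ} {s t : E}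
    (h : pt (el hE φ ψ k s) x = pt (el hE φ ψ l t) x) : k = l ∧ s = t := by
  rw [← Psi_Q φ] at hx
  have h1 := congrArg (Psi φ) h
  rw [pt_el, pt_el] at h1
  rcases hxw : Psi φ x with ⟨w, f⟩
  rw [hxw] at hx h1
  have hx' : f w = 1 := hx
  have hw : w ≠ 0 := by rintro rfl; simp at hx'
  have h2 : (k : K) * w = (l : K) * w := congrArg Prod.fst h1
  have hkl : k = l := Units.ext (mul_right_cancel₀ hw h2)
  subst hkl
  refine ⟨rfl, ?_⟩
  apply kf_inj hr ψ hw
  have h3 : (f + kf ψ s w) ∘ₗ (mulU F k).symm.toLinearMap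
      = (f + kf ψ t w) ∘ₗ (mulU F k).symm.toLinearMap := congrArg Prod.snd h1
  have h4 : f + kf ψ s w = f + kf ψ t w := by
    apply LinearMap.ext
    intro z
    have h5 := LinearMap.congr_fun h3 (mulU F k z)
    simpa using h5
  exact add_left_cancel h4

/-- **Theorem (K).**  For a finite field of characteristic `2` and even `m ≥ 4` the two-sided
action of `Ω⁺(2 m, F)` is not synchronizing. -/
theorem omega_even (F : Type) [Field F] [Finite F] [CharP F 2] (m : ℕ) (hm : Even m)
    (h4 : 4 ≤ m) : ¬ Synchronizing (twoSided (Omega m F)) := by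
  classical
  have : Fact (Nat.Prime 2) := ⟨Nat.prime_two⟩
  have : NeZero m := ⟨by omega⟩
  have : NeZero (m - 1) := ⟨by omega⟩
  let K := FiniteField.Extension F 2 m
  let E := FiniteField.Extension F 2 (m - 1)
  have hKf : finrank F K = m := FiniteField.finrank_extension F 2 m
  have hEf : finrank F E = m - 1 := FiniteField.finrank_extension F 2 (m - 1)
  have hr : Odd (finrank F E) := by
    rw [hEf]
    obtain ⟨j, hj⟩ := hm
    exact ⟨j - 1, by omega⟩
  have hK : finrank F K = finrank F E + 1 := by rw [hKf, hEf]; omega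
  have hF2 : 2 ≤ Nat.card F := Finite.one_lt_card
  have hE : 4 < Nat.card E := by
    have h1 : Nat.card E = Nat.card F ^ (m - 1) := FiniteField.natCard_extension F 2 (m - 1)
    rw [h1]
    calc 4 < 2 ^ 3 := by norm_num
      _ ≤ Nat.card F ^ 3 := Nat.pow_le_pow_left hF2 3
      _ ≤ Nat.card F ^ (m - 1) := Nat.pow_le_pow_right (by omega) (by omega)
  let ψ : K ≃ₗ[F] (E × F) := LinearEquiv.ofFinrankEq _ _ (by
    rw [hK, Module.finrank_prod, Module.finrank_self])
  let φ : (Fin m → F) ≃ₗ[F] K := LinearEquiv.ofFinrankEq _ _ (by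
    rw [hKf, Module.finrank_fin_fun])
  -- the base point
  let w₀ : K := ψ.symm (0, 1)
  let f₀ : Dual F K := (LinearMap.snd F E F) ∘ₗ ψ.toLinearMap
  have hf₀ : f₀ w₀ = 1 := by
    show (ψ (ψ.symm (0, 1))).2 = 1
    rw [LinearEquiv.apply_symm_apply]
  let x₀ : Hyp m F := (Psi φ).symm (w₀, f₀)
  have hx₀ : Psi φ x₀ = (w₀, f₀) := LinearEquiv.apply_symm_apply _ _
  have hQ₀ : Q x₀ = 1 := by
    rw [← Psi_Q φ, hx₀]
    exact hf₀
  have hw₀ : w₀ ≠ 0 := by
    intro h0
    rw [h0, map_zero] at hf₀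
    exact zero_ne_one hf₀
  refine not_sync_of_sharp (stab x₀) ?_ ?_ {a | ∃ (k : Kˣ) (s : E), a = el hE φ ψ k s} ?_
  · -- the stabilizer is not trivial
    obtain ⟨t, ht⟩ : ∃ t : E, t ∉ Set.range (algebraMap F E) := by
      by_contra hcon
      push Not at hcon
      have hsurj : Function.Surjective (algebraMap F E) := hcon
      have h1 := Nat.card_le_card_of_surjective _ hsurj
      have h2 : Nat.card E = Nat.card F ^ (m - 1) := FiniteField.natCard_extension F 2 (m - 1)
      have h3 : Nat.card F ^ 1 < Nat.card F ^ (m - 1) := Nat.pow_lt_pow_right (by omega) (by omega)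
      rw [pow_one] at h3
      omega
    let g : OW F K := up (kf ψ 1) (kf_self ψ 1) * up (kf ψ t) (kf_self ψ t)
      * up (kf ψ (1 + t)) (kf_self ψ (1 + t))
    have hg : g ∈ commutator (OW F K) :=
      Subgroup.mul_mem _ (Subgroup.mul_mem _ (up_mem hE ψ 1) (up_mem hE ψ t)) (up_mem hE ψ (1 + t))
    have hgv : ∀ v : K × Dual F K, (g : (K × Dual F K) ≃ₗ[F] (K × Dual F K)) v
        = (v.1, v.2 + kf ψ (1 + t) v.1 + kf ψ t v.1 + kf ψ 1 v.1) := fun v => rfl
    intro hbot
    have hst : mk φ g hg ∈ stab x₀ := by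
      show (Psi φ).symm ((g : (K × Dual F K) ≃ₗ[F] (K × Dual F K)) (Psi φ x₀)) = x₀
      rw [LinearEquiv.symm_apply_eq, hx₀, hgv]
      congr 1
      apply LinearMap.ext
      intro z
      have h3 := om_three (1 : E) t (ψ w₀) (ψ z)
      have h5 : (ψ w₀).1 = 0 := by
        show (ψ (ψ.symm (0, 1))).1 = 0
        rw [LinearEquiv.apply_symm_apply]
      rw [h5, mul_zero, mul_zero, map_zero, zero_mul, zero_mul, add_zero] at h3
      show f₀ z + om (1 + t) (ψ w₀) (ψ z) + om t (ψ w₀) (ψ z) + om 1 (ψ w₀) (ψ z) = f₀ z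
      linear_combination h3
    rw [hbot, Subgroup.mem_bot] at hst
    -- all the values vanish
    have hall : ∀ w z : K, om (1 + t) (ψ w) (ψ z) + om t (ψ w) (ψ z) + om 1 (ψ w) (ψ z) = 0 := by
      intro w z
      have h6 : pt (mk φ g hg) ((Psi φ).symm (w, 0))
          = (Psi φ).symm (w, 0) := by
        rw [hst, pt_one]
      have h7 : (Psi φ).symm ((g : (K × Dual F K) ≃ₗ[F] (K × Dual F K))
          (Psi φ ((Psi φ).symm (w, 0)))) = (Psi φ).symm (w, 0) := h6
      rw [LinearEquiv.apply_symm_apply] at h7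
      have h8 := (Psi φ).symm.injective h7
      rw [hgv] at h8
      have h9 := congrArg Prod.snd h8
      have h10 := LinearMap.congr_fun h9 z
      have h11 : (0 : F) + om (1 + t) (ψ w) (ψ z) + om t (ψ w) (ψ z) + om 1 (ψ w) (ψ z) = 0 := h10
      linear_combination h11
    have hall' : ∀ x y : E, Algebra.trace F E x * Algebra.trace F E (t * y)
        + Algebra.trace F E (t * x) * Algebra.trace F E y = 0 := by
      intro x y
      have h3 := om_three (1 : E) t (x, (0 : F)) (y, (0 : F))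
      have h12 := hall (ψ.symm (x, 0)) (ψ.symm (y, 0))
      rw [LinearEquiv.apply_symm_apply, LinearEquiv.apply_symm_apply] at h12
      simp only [one_mul] at h3
      linear_combination h12 - h3
    have hnd := (traceForm_nondegenerate F E).1
    obtain ⟨y, hy⟩ : ∃ y : E, Algebra.trace F E y ≠ 0 := by
      by_contra hcon
      push Not at hcon
      have h13 := hnd (1 : E) (by
        intro y
        rw [Algebra.traceForm_apply, one_mul]
        exact hcon y)
      exact one_ne_zero h13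
    set c : F := Algebra.trace F E (t * y) / Algebra.trace F E y with hc
    have h14 : t - algebraMap F E c = 0 := by
      apply hnd
      intro x
      rw [Algebra.traceForm_apply, sub_mul, map_sub, ← Algebra.smul_def, map_smul, smul_eq_mul, hc]
      have h15 := hall' x y
      have h2 := two_F (F := F)
      field_simp
      linear_combination h15 - (Algebra.trace F E x * Algebra.trace F E (t * y)) * h2
    apply ht
    exact ⟨c, by linear_combination -h14⟩
  · -- the stabilizer is not everything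
    intro htop
    obtain ⟨k, hk⟩ : ∃ k : Kˣ, k ≠ 1 := by
      obtain ⟨a, ha⟩ : ∃ a : K, a ∉ ({0, 1} : Finset K) := by
        by_contra hcon
        push Not at hcon
        have := Fintype.ofFinite K
        have h1 := Finset.card_le_card (fun x _ => hcon x : (Finset.univ : Finset K) ⊆ {0, 1})
        rw [Finset.card_univ] at h1
        have h' := Finset.card_le_two (a := (0 : K)) (b := 1)
        have h2 : Nat.card K = Nat.card F ^ m := FiniteField.natCard_extension F 2 m
        rw [Nat.card_eq_fintype_card] at h2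
        have h3 : 2 ^ 2 ≤ Nat.card F ^ m :=
          (Nat.pow_le_pow_left hF2 2).trans (Nat.pow_le_pow_right (by omega) (by omega))
        omega
      simp only [Finset.mem_insert, Finset.mem_singleton, not_or] at ha
      refine ⟨Units.mk0 a ha.1, fun h => ha.2 ?_⟩
      have := congrArg Units.val h
      simpa using this
    have hmem : el hE φ ψ k 0 ∈ stab x₀ := by rw [htop]; trivial
    have h1 : pt (el hE φ ψ k 0) x₀ = x₀ := hmem
    have h2 := congrArg (Psi φ) h1
    rw [pt_el, hx₀] at h2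
    have h3 : (k : K) * w₀ = w₀ := congrArg Prod.fst h2
    apply hk
    apply Units.ext
    rw [Units.val_one]
    exact mul_right_cancel₀ hw₀ (by rw [h3, one_mul])
  · -- sharpness
    intro s k
    have hQ1 : Q (pt k x₀) = 1 := by rw [pt_Q, hQ₀]
    have hQ2 : Q (pt s (pt k x₀)) = 1 := by rw [pt_Q, hQ1]
    obtain ⟨l, c, hlc⟩ := sharp_exists hE hr hK φ ψ (pt k x₀) (pt s (pt k x₀)) hQ1 hQ2
    have key : ∀ a : Omega m F, k⁻¹ * (a⁻¹ * s) * k ∈ stab x₀ ↔
        pt a (pt k x₀) = pt s (pt k x₀) := by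
      intro a
      show pt (k⁻¹ * (a⁻¹ * s) * k) x₀ = x₀ ↔ _
      rw [pt_mul, pt_mul, pt_mul, pt_inv_eq, pt_inv_eq]
      exact eq_comm
    refine ⟨el hE φ ψ l c, ⟨⟨l, c, rfl⟩, (key _).2 hlc⟩, ?_⟩
    rintro a ⟨⟨l', c', rfl⟩, ha⟩
    have h1 := (key _).1 ha
    obtain ⟨h2, h3⟩ := sharp_unique hE hr φ ψ (pt k x₀) hQ1 (h1.trans hlc.symm)
    rw [h2, h3]

end Main

end Pool.Agent.NS98.K
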