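import Pool.Agent.NS98.K26

/-!
# In characteristic `2` the centre of `Ω⁺(2 m, F)` is trivial; Theorem (K) for `PΩ⁺(2 m, F)`
-/

set_option autoImplicit false
set_option linter.unusedSectionVars false

namespace Pool.Agent.NS98.K

open Module Equiv

/-! ### Transport of the two-sided action along an isomorphism -/

theorem sync_of_equiv {S T : Type} [Group S] [Group T] (e : S ≃* T)
    (h : Synchronizing (twoSided T)) : Synchronizing (twoSided S) := by
  obtain ⟨h1, h2⟩ := h
  refine ⟨by rwa [Nat.card_congr e.toEquiv], ?_⟩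
  rintro ρ ⟨A, hA⟩
  have hreg : IsRegularPartition (twoSided T) (Setoid.comap e.symm ρ) := by
    refine ⟨e '' A, ?_⟩
    rintro g ⟨a, b, hg⟩ x
    obtain ⟨τ, hτ⟩ : ∃ τ : Perm S, ∀ x : S, τ x = (e.symm a)⁻¹ * x * e.symm b :=
      ⟨⟨fun x => (e.symm a)⁻¹ * x * e.symm b, fun x => e.symm a * x * (e.symm b)⁻¹,
        fun x => by group, fun x => by group⟩, fun x => rfl⟩
    have hτm : τ ∈ twoSided S := ⟨e.symm a, e.symm b, hτ⟩
    obtain ⟨y, ⟨hyA, hxy⟩, huniq⟩ := hA τ hτm (e.symm x)
    have key : ∀ s : S, g (e s) = e (τ s) := by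
      intro s
      rw [hg, hτ, map_mul, map_mul, map_inv, MulEquiv.apply_symm_apply,
        MulEquiv.apply_symm_apply]
    refine ⟨e y, ⟨?_, ?_⟩, ?_⟩
    · obtain ⟨s, hs, rfl⟩ := hyA
      exact ⟨e s, ⟨s, hs, rfl⟩, key s⟩
    · show ρ (e.symm x) (e.symm (e y))
      rw [MulEquiv.symm_apply_apply]
      exact hxy
    · rintro z ⟨⟨_, ⟨s, hs, rfl⟩, rfl⟩, hz⟩
      rw [key]
      congr 1
      apply huniq
      refine ⟨⟨s, hs, rfl⟩, ?_⟩
      have hz' : ρ (e.symm x) (e.symm (g (e s))) := hz
      rw [key, MulEquiv.symm_apply_apply] at hz'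
      exact hz'
  rcases h2 _ hreg with h | h
  · left
    apply Setoid.ext
    intro a b
    have h3 : (Setoid.comap e.symm ρ) (e a) (e b) ↔ (⊥ : Setoid T) (e a) (e b) := by rw [h]
    have h4 : (Setoid.comap e.symm ρ) (e a) (e b) ↔ ρ a b := by
      show ρ (e.symm (e a)) (e.symm (e b)) ↔ ρ a b
      rw [MulEquiv.symm_apply_apply, MulEquiv.symm_apply_apply]
    rw [← h4, h3]
    show e a = e b ↔ a = b
    exact e.injective.eq_iff
  · right
    apply Setoid.ext
    intro a b
    have h3 : (Setoid.comap e.symm ρ) (e a) (e b) ↔ (⊤ : Setoid T) (e a) (e b) := by rw [h]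
    have h4 : (Setoid.comap e.symm ρ) (e a) (e b) ↔ ρ a b := by
      show ρ (e.symm (e a)) (e.symm (e b)) ↔ ρ a b
      rw [MulEquiv.symm_apply_apply, MulEquiv.symm_apply_apply]
    rw [← h4, h3]
    exact Iff.rfl

/-! ### The centre -/

section Centre

variable {F : Type} [Field F] {m : ℕ}

/-- The alternating form `x_i y_j - x_j y_i`. -/
def wdg (i j : Fin m) : (Fin m → F) →ₗ[F] (Fin m → F) →ₗ[F] F :=
  LinearMap.mk₂ F (fun x y => x i * y j - x j * y i)
    (fun x x' y => by simp only [Pi.add_apply]; ring)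
    (fun c x y => by simp only [Pi.smul_apply, smul_eq_mul]; ring)
    (fun x y y' => by simp only [Pi.add_apply]; ring)
    (fun c x y => by simp only [Pi.smul_apply, smul_eq_mul]; ring)

theorem wdg_apply (i j : Fin m) (x y : Fin m → F) : wdg i j x y = x i * y j - x j * y i := rfl

theorem wdg_self (i j : Fin m) (x : Fin m → F) : wdg i j x x = 0 := by
  rw [wdg_apply]; ring

/-- `x ↦ x - x_k e_j`. -/
def trv {j k : Fin m} (h : j ≠ k) : (Fin m → F) ≃ₗ[F] (Fin m → F) where
  toFun x := x - Pi.single j (x k)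
  invFun x := x + Pi.single j (x k)
  map_add' x y := by
    ext i
    simp only [Pi.add_apply, Pi.sub_apply, Pi.single_apply]
    split_ifs <;> ring
  map_smul' c x := by
    ext i
    simp only [Pi.smul_apply, Pi.sub_apply, Pi.single_apply, smul_eq_mul, RingHom.id_apply]
    split_ifs <;> ring
  left_inv x := by
    ext i
    simp only [Pi.add_apply, Pi.sub_apply, Pi.single_eq_of_ne h.symm, sub_zero]
    ring
  right_inv x := by
    ext i
    simp only [Pi.add_apply, Pi.sub_apply, Pi.single_eq_of_ne h.symm, add_zero]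
    ring

theorem trv_apply {j k : Fin m} (h : j ≠ k) (x : Fin m → F) (i : Fin m) :
    trv h x i = x i - (Pi.single j (x k) : Fin m → F) i := rfl

theorem wdg_mem {i k j : Fin m} (hij : i ≠ j) (hjk : j ≠ k) :
    up (wdg (F := F) i k) (wdg_self i k) ∈ commutator (OW F (Fin m → F)) := by
  have hsum : ∀ w : Fin m → F, (wdg (F := F) i k + wdg (F := F) i j) w w = 0 := by
    intro w
    show wdg i k w w + wdg i j w w = 0
    rw [wdg_self, wdg_self, add_zero]
  have h := hat_up (trv hjk) (wdg (F := F) i j) (wdg i k + wdg i j) (wdg_self i j) hsum (by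
    intro w w'
    show wdg i k _ _ + wdg i j _ _ = wdg i j w w'
    rw [wdg_apply, wdg_apply, wdg_apply]
    simp only [trv_apply, Pi.single_eq_same, Pi.single_eq_of_ne hjk.symm,
      Pi.single_eq_of_ne hij]
    ring)
  rw [← up_mul _ _ (wdg_self i k) (wdg_self i j)] at h
  set g : OW F (Fin m → F) := hat (trv (F := F) hjk) with hg
  set u : OW F (Fin m → F) := up (wdg (F := F) i j) (wdg_self i j) with hu
  have h2 : up (wdg (F := F) i k) (wdg_self i k) = g * u * g⁻¹ * u⁻¹ := by
    rw [h]
    group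
  rw [h2, commutator_def]
  exact Subgroup.commutator_mem_commutator (Subgroup.mem_top _) (Subgroup.mem_top _)

/-- The isometry `(x, y) ↦ (x, y + x_i e_j - x_j e_i)`. -/
noncomputable def Eo (i j : Fin m) : orth m F :=
  eO (LinearEquiv.refl F (Fin m → F)) (up (wdg i j) (wdg_self i j))

theorem Eo_apply (i j : Fin m) (v : Hyp m F) :
    (Eo i j).1 v = (v.1, v.2 + (Pi.single j (v.1 i) - Pi.single i (v.1 j))) := by
  rw [Eo, eO_apply, LinearEquiv.symm_apply_eq, up_apply]
  apply Prod.ext
  · rfl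
  · apply LinearMap.ext
    intro z
    show (dotProductEquiv F (Fin m) v.2) z + wdg i j v.1 z
      = (dotProductEquiv F (Fin m) (v.2 + (Pi.single j (v.1 i) - Pi.single i (v.1 j)))) z
    rw [map_add, map_sub, LinearMap.add_apply, LinearMap.sub_apply, wdg_apply]
    simp only [dotProductEquiv_apply_apply, single_dotProduct]

/-- The exchange of the two coordinates. -/
def sw : orth m F := ofLin (LinearEquiv.prodComm F (Fin m → F) (Fin m → F)) (by
  intro v
  show ∑ i, v.2 i * v.1 i = ∑ i, v.1 i * v.2 i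
  exact Finset.sum_congr rfl fun i _ => mul_comm _ _)

theorem sw_apply (v : Hyp m F) : (sw : orth m F).1 v = (v.2, v.1) := rfl

theorem sw_inv : (sw : orth m F)⁻¹ = sw := by
  rw [inv_eq_iff_mul_eq_one]
  apply orth_ext
  intro v
  rfl

/-- A third index. -/
theorem third (hm : 3 ≤ m) (i j : Fin m) : ∃ k : Fin m, i ≠ k ∧ j ≠ k := by
  classical
  by_contra hcon
  push Not at hcon
  have h1 : (Finset.univ : Finset (Fin m)) ⊆ {i, j} := by
    intro k _
    simp only [Finset.mem_insert, Finset.mem_singleton]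
    by_cases h : i = k
    · exact Or.inl h.symm
    · exact Or.inr (hcon k h).symm
  have h2 := Finset.card_le_card h1
  have h3 := Finset.card_le_two (a := i) (b := j)
  rw [Finset.card_univ, Fintype.card_fin] at h2
  omega

theorem Eo_mem (hm : 3 ≤ m) (i k : Fin m) : (Eo i k : orth m F) ∈ commutator (orth m F) := by
  obtain ⟨j, h1, h2⟩ := third hm i k
  exact eO_mem _ (wdg_mem h1 h2.symm)

/-- A linear map commuting with all `Eo i j`. -/
theorem struct (hm : 3 ≤ m) (z : Hyp m F →ₗ[F] Hyp m F)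
    (h : ∀ i j : Fin m, i ≠ j → ∀ v, z ((Eo i j).1 v) = (Eo i j).1 (z v)) :
    ∃ c : F, (∀ j, z (0, Pi.single j 1) = (0, Pi.single j c)) ∧
      ∀ i, (z (Pi.single i 1, 0)).1 = Pi.single i c := by
  have star : ∀ i j : Fin m, i ≠ j → z (0, Pi.single j 1)
      = (0, Pi.single j ((z (Pi.single i 1, 0)).1 i) - Pi.single i ((z (Pi.single i 1, 0)).1 j)) := by
    intro i j hij
    have h1 := h i j hij (Pi.single i 1, 0)
    rw [Eo_apply, Eo_apply] at h1
    simp only [Pi.single_eq_same, Pi.single_eq_of_ne hij.symm, Pi.single_zero, sub_zero,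
      zero_add] at h1
    have e1 : ((Pi.single i 1, Pi.single j 1) : Hyp m F)
        = (Pi.single i 1, 0) + (0, Pi.single j 1) := by simp
    rw [e1, map_add] at h1
    have h2 := congrArg Prod.fst h1
    have h3 := congrArg Prod.snd h1
    simp only [Prod.fst_add, Prod.snd_add] at h2 h3
    apply Prod.ext
    · show (z (0, Pi.single j 1)).1 = 0
      have := add_left_cancel (h2.trans (add_zero _).symm)
      exact this
    · exact add_left_cancel h3
  have off : ∀ i j : Fin m, i ≠ j → (z (Pi.single i 1, 0)).1 j = 0 := by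
    intro i j hij
    obtain ⟨k, hik, hjk⟩ := third hm i j
    have h1 := (star i j hij).symm.trans (star k j hjk.symm)
    have h2 := congrFun (congrArg Prod.snd h1) i
    simp only [Pi.sub_apply, Pi.single_eq_same, Pi.single_eq_of_ne hij,
      Pi.single_eq_of_ne hik] at h2
    linear_combination -h2
  have diag : ∀ i k : Fin m, i ≠ k →
      (z (Pi.single i 1, 0)).1 i = (z (Pi.single k 1, 0)).1 k := by
    intro i k hik
    obtain ⟨j, hij, hkj⟩ := third hm i k
    have h1 := (star i j hij).symm.trans (star k j hkj)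
    have h2 := congrFun (congrArg Prod.snd h1) j
    simp only [Pi.sub_apply, Pi.single_eq_same, Pi.single_eq_of_ne hij.symm,
      Pi.single_eq_of_ne hkj.symm] at h2
    linear_combination h2
  have hm0 : 0 < m := by omega
  refine ⟨(z (Pi.single ⟨0, hm0⟩ 1, 0)).1 ⟨0, hm0⟩, ?_, ?_⟩
  · intro j
    obtain ⟨i, h1, -⟩ := third hm j j
    rw [star i j h1.symm, off i j h1.symm, Pi.single_zero, sub_zero]
    by_cases h : i = ⟨0, hm0⟩
    · rw [h]
    · rw [diag i _ h]
  · intro i
    ext k
    by_cases hik : i = k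
    · subst hik
      rw [Pi.single_eq_same]
      by_cases h : i = ⟨0, hm0⟩
      · rw [h]
      · rw [diag i _ h]
    · rw [off i k hik, Pi.single_eq_of_ne (Ne.symm hik)]

/-- In characteristic `2` the centre of `Ω⁺(2 m, F)`, `m ≥ 3`, is trivial. -/
theorem center_eq_bot [CharP F 2] (hm : 3 ≤ m) : Subgroup.center (Omega m F) = ⊥ := by
  rw [eq_bot_iff]
  intro z hz
  rw [Subgroup.mem_bot]
  have hcomm : ∀ g ∈ commutator (orth m F), ∀ v, ap z (g.1 v) = g.1 (ap z v) := by
    intro g hg v
    have h1 := Subgroup.mem_center_iff.1 hz ⟨g.1, mem_Omega_of_mem hg⟩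
    have h2 := congrArg (fun t => ap t v) h1
    exact h2.symm
  obtain ⟨c, hc1, hc2⟩ := struct hm (apLin z) (fun i j _ v => hcomm _ (Eo_mem hm i j) v)
  obtain ⟨c', hc1', -⟩ := struct hm
    (orthLin (sw : orth m F) ∘ₗ apLin z ∘ₗ orthLin (sw : orth m F)) (by
      intro i j _ v
      have h1 : sw * Eo i j * sw⁻¹ ∈ commutator (orth m F) :=
        (inferInstance : (commutator (orth m F)).Normal).conj_mem _ (Eo_mem hm i j) _
      have h2 := hcomm _ h1 ((sw : orth m F).1 v)
      rw [sw_inv] at h2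
      show (sw : orth m F).1 (ap z ((sw : orth m F).1 ((Eo i j).1 v)))
        = (Eo i j).1 ((sw : orth m F).1 (ap z ((sw : orth m F).1 v)))
      have h3 : (sw * Eo i j * sw : orth m F).1 ((sw : orth m F).1 v)
          = (sw : orth m F).1 ((Eo i j).1 v) := rfl
      rw [h3] at h2
      rw [h2]
      rfl)
  have hc3 : ∀ j, ap z (Pi.single j 1, 0) = (Pi.single j c', 0) := by
    intro j
    have h1 := hc1' j
    have h2 : (sw : orth m F).1 (ap z (Pi.single j 1, 0)) = (0, Pi.single j c') := h1
    rw [sw_apply] at h2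
    apply Prod.ext
    · exact congrArg Prod.snd h2
    · exact congrArg Prod.fst h2
  have hm0 : 0 < m := by omega
  have hcc : c' = c := by
    have h1 := hc2 ⟨0, hm0⟩
    rw [apLin_apply, hc3] at h1
    have h2 := congrFun h1 ⟨0, hm0⟩
    simpa using h2
  subst hcc
  have hsq : c' * c' = 1 := by
    have h1 := ap_Q z ((Pi.single ⟨0, hm0⟩ 1, 0) + (0, Pi.single ⟨0, hm0⟩ 1))
    have h2 : ap z ((Pi.single ⟨0, hm0⟩ 1, 0) + (0, Pi.single ⟨0, hm0⟩ 1))
        = (Pi.single ⟨0, hm0⟩ c', 0) + (0, Pi.single ⟨0, hm0⟩ c') := by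
      rw [← hc3, ← hc1 ⟨0, hm0⟩]
      exact map_add (apLin z) _ _
    rw [h2] at h1
    have h3 : ∀ a : F, Q (m := m) ((Pi.single ⟨0, hm0⟩ a, 0) + (0, Pi.single ⟨0, hm0⟩ a)) = a * a := by
      intro a
      unfold Q
      rw [Finset.sum_eq_single ⟨0, hm0⟩]
      · simp
      · intro b _ hb
        simp [Pi.single_eq_of_ne hb]
      · intro h; exact absurd (Finset.mem_univ _) h
    rw [h3, h3, one_mul] at h1
    exact h1
  have hc : c' = 1 := by
    have h2 := two_F (F := F)
    have h3 : (c' - 1) * (c' - 1) = 0 := by linear_combination hsq - (c' - 1) * h2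
    have h4 := mul_self_eq_zero.1 h3
    linear_combination h4
  subst hc
  apply omega_ext
  intro v
  rw [ap_one]
  have hv : v = ∑ i, (v.1 i • ((Pi.single i 1, 0) : Hyp m F) + v.2 i • ((0, Pi.single i 1) : Hyp m F)) := by
    apply Prod.ext
    · rw [Prod.fst_sum]
      ext j
      simp [Finset.sum_apply, Pi.single_apply]
    · rw [Prod.snd_sum]
      ext j
      simp [Finset.sum_apply, Pi.single_apply]
  have hlin : apLin z v = v := by
    conv_lhs => rw [hv]
    conv_rhs => rw [hv]
    rw [map_sum]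
    apply Finset.sum_congr rfl
    intro i _
    rw [map_add, map_smul, map_smul, hc1, apLin_apply, hc3]
  exact hlin

end Centre

/-- **Theorem (K)** for `PΩ⁺(2 m, F)`. -/
theorem pomega_even (F : Type) [Field F] [Finite F] [CharP F 2] (m : ℕ) (hm : Even m)
    (h4 : 4 ≤ m) : ¬ Synchronizing (twoSided (POmega m F)) := by
  intro h
  apply omega_even F m hm h4
  refine sync_of_equiv ?_ h
  have hb : Subgroup.center (Omega m F) = ⊥ := center_eq_bot (by omega)
  exact (QuotientGroup.quotientBot.symm).trans (QuotientGroup.quotientMulEquivOfEq hb.symm)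

end Pool.Agent.NS98.K
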