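import Pool.Agent.NS98.Base

/-!
# The groups `PSL(n, q)`: sharply transitive sets from the Frobenius map

Rows (L1), (L2) of the page `MP_358f87_NS_PAGE_h98.md`.
-/

set_option autoImplicit false

namespace Pool.Agent.NS98

namespace LType

/-- The determinant over `F` of the Frobenius map `x ↦ x ^ q` of a finite extension of `F`. -/
theorem det_frob (F K : Type) [Field F] [Fintype F] [Field K] [Algebra F K] [Finite K] :
    LinearMap.det (FiniteField.frobeniusAlgHom F K).toLinearMap
      = (-1 : F) ^ (Module.finrank F K + 1) := by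
  haveI : Module.Finite F K := Module.Finite.of_finite
  set f : K →ₗ[F] K := (FiniteField.frobeniusAlgHom F K).toLinearMap with hf
  have hmin : minpoly F f = Polynomial.X ^ Module.finrank F K - 1 :=
    FiniteField.minpoly_frobeniusAlgHom F K
  have hdvd : minpoly F f ∣ f.charpoly := LinearMap.minpoly_dvd_charpoly f
  have hchar : f.charpoly = Polynomial.X ^ Module.finrank F K - 1 := by
    have hpos : 0 < Module.finrank F K := Module.finrank_pos
    have hm2 : (minpoly F f).Monic := by
      rw [hmin]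
      exact Polynomial.monic_X_pow_sub_C (1 : F) hpos.ne'
    have hdeg : f.charpoly.natDegree ≤ (minpoly F f).natDegree := by
      rw [LinearMap.charpoly_natDegree, hmin]
      exact (Polynomial.natDegree_X_pow_sub_C (n := Module.finrank F K) (r := (1 : F))).ge
    rw [← hmin]
    exact (Polynomial.eq_of_monic_of_dvd_of_natDegree_le hm2 f.charpoly_monic hdvd hdeg)
  rw [LinearMap.det_eq_sign_charpoly_coeff, hchar]
  have hpos : 0 < Module.finrank F K := Module.finrank_pos
  rw [Polynomial.coeff_sub, Polynomial.coeff_X_pow, if_neg hpos.ne, Polynomial.coeff_one_zero,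
    pow_succ]
  ring

section Main

variable {F : Type} [Field F] [Fintype F] {n : ℕ}
variable {K : Type} [Field K] [Algebra F K] [Finite K]

/-- The `F`-linear maps `x ↦ s x` and `x ↦ s x ^ q`. -/
noncomputable def T (s : K) (j : Bool) : K →ₗ[F] K :=
  if j then (LinearMap.mulLeft F s) ∘ₗ (FiniteField.frobeniusAlgHom F K).toLinearMap
  else LinearMap.mulLeft F s

lemma T_false (s x : K) : T (F := F) s false x = s * x := rfl

lemma T_true (s x : K) :
    T (F := F) s true x = s * FiniteField.frobeniusAlgHom F K x := rfl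

lemma det_mulLeft (s : K) : LinearMap.det (LinearMap.mulLeft F s) = Algebra.norm F s := rfl

lemma norm_frob (x : K) :
    Algebra.norm F (FiniteField.frobeniusAlgHom F K x) = Algebra.norm F x := by
  haveI : Module.Finite F K := Module.Finite.of_finite
  have := Algebra.norm_eq_of_algEquiv (FiniteField.frobeniusAlgEquivOfAlgebraic F K) x
  rw [← this]
  rfl

lemma det_T_false (s : K) : LinearMap.det (T (F := F) s false) = Algebra.norm F s := rfl

lemma det_T_true (hK : Module.finrank F K = n) (s : K) :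
    LinearMap.det (T (F := F) s true) = Algebra.norm F s * (-1) ^ (n + 1) := by
  have : T (F := F) s true = (LinearMap.mulLeft F s) ∘ₗ
      (FiniteField.frobeniusAlgHom F K).toLinearMap := rfl
  rw [this, LinearMap.det_comp, det_frob, hK]
  rfl

/-! ### The action of `SL(n, F)` on `K` through a basis -/

variable (b : Module.Basis (Fin n) F K)

/-- The action of a matrix of determinant one on `K`. -/
noncomputable def act (g : Matrix.SpecialLinearGroup (Fin n) F) : K →ₗ[F] K :=
  Matrix.toLinAlgEquiv b (g : Matrix (Fin n) (Fin n) F)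

lemma act_mul (g h : Matrix.SpecialLinearGroup (Fin n) F) (x : K) :
    act b (g * h) x = act b g (act b h x) := by
  unfold act
  rw [Matrix.SpecialLinearGroup.coe_mul, map_mul]
  rfl

lemma act_one (x : K) : act b (1 : Matrix.SpecialLinearGroup (Fin n) F) x = x := by
  unfold act
  rw [Matrix.SpecialLinearGroup.coe_one, map_one]
  rfl

lemma act_inv_act (g : Matrix.SpecialLinearGroup (Fin n) F) (x : K) :
    act b g⁻¹ (act b g x) = x := by
  rw [← act_mul, inv_mul_cancel, act_one]

lemma act_act_inv (g : Matrix.SpecialLinearGroup (Fin n) F) (x : K) :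
    act b g (act b g⁻¹ x) = x := by
  rw [← act_mul, mul_inv_cancel, act_one]

lemma act_ne_zero (g : Matrix.SpecialLinearGroup (Fin n) F) {x : K} (hx : x ≠ 0) :
    act b g x ≠ 0 := by
  intro h
  apply hx
  rw [← act_inv_act b g x, h, map_zero]

/-- Every linear map of determinant one comes from a matrix of determinant one. -/
lemma exists_act_eq (f : K →ₗ[F] K) (hf : LinearMap.det f = 1) :
    ∃ g : Matrix.SpecialLinearGroup (Fin n) F, act b g = f := by
  refine ⟨⟨(Matrix.toLinAlgEquiv b).symm f, ?_⟩, ?_⟩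
  · have h1 : ((Matrix.toLinAlgEquiv b).symm f) = LinearMap.toMatrix b b f := rfl
    rw [h1, LinearMap.det_toMatrix, hf]
  · unfold act
    exact (Matrix.toLinAlgEquiv b).apply_symm_apply f

lemma det_act (g : Matrix.SpecialLinearGroup (Fin n) F) : LinearMap.det (act b g) = 1 := by
  have h1 : act b g = Matrix.toLin b b (g : Matrix (Fin n) (Fin n) F) := rfl
  rw [h1, LinearMap.det_toLin, g.2]

/-- If the actions of two matrices are proportional the matrices are equal modulo the centre. -/
lemma mk_eq_of_smul (g g' : Matrix.SpecialLinearGroup (Fin n) F) (r : F)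
    (h : ∀ x, act b g' x = r • act b g x) :
    (QuotientGroup.mk g : Matrix.ProjectiveSpecialLinearGroup (Fin n) F)
      = QuotientGroup.mk g' := by
  have h1 : (g' : Matrix (Fin n) (Fin n) F) = r • (g : Matrix (Fin n) (Fin n) F) := by
    apply (Matrix.toLinAlgEquiv b).injective
    rw [map_smul]
    ext x
    exact h x
  rw [QuotientGroup.eq, Matrix.SpecialLinearGroup.mem_center_iff]
  refine ⟨r, ?_, ?_⟩
  · have h2 : (g' : Matrix (Fin n) (Fin n) F).det = 1 := g'.2
    rw [h1, Matrix.det_smul, g.2, mul_one] at h2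
    exact h2
  · rw [Matrix.SpecialLinearGroup.coe_mul, h1, Matrix.mul_smul,
      ← Matrix.SpecialLinearGroup.coe_mul, inv_mul_cancel, Matrix.SpecialLinearGroup.coe_one,
      Matrix.smul_one_eq_diagonal]
    rfl

/-- The stabilizer in `SL(n, F)` of the line through `v`. -/
noncomputable def H0 (v : K) : Subgroup (Matrix.SpecialLinearGroup (Fin n) F) where
  carrier := {g | ∃ c : F, c ≠ 0 ∧ act b g v = c • v}
  one_mem' := ⟨1, one_ne_zero, by rw [act_one, one_smul]⟩
  mul_mem' := by
    rintro g h ⟨c, hc, hg⟩ ⟨d, hd, hh⟩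
    refine ⟨d * c, mul_ne_zero hd hc, ?_⟩
    rw [act_mul, hh, map_smul, hg, smul_smul]
  inv_mem' := by
    rintro g ⟨c, hc, hg⟩
    refine ⟨c⁻¹, inv_ne_zero hc, ?_⟩
    have h1 : act b g⁻¹ (act b g v) = v := act_inv_act b g v
    rw [hg, map_smul] at h1
    rw [← smul_right_injective K hc |>.eq_iff]
    show c • act b g⁻¹ v = c • c⁻¹ • v
    rw [h1, smul_smul, mul_inv_cancel₀ hc, one_smul]

lemma mem_H0 (v : K) (g : Matrix.SpecialLinearGroup (Fin n) F) :
    g ∈ H0 b v ↔ ∃ c : F, c ≠ 0 ∧ act b g v = c • v := Iff.rfl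

lemma center_le_H0 [NeZero n] (v : K) :
    Subgroup.center (Matrix.SpecialLinearGroup (Fin n) F) ≤ H0 b v := by
  intro g hg
  obtain ⟨r, hr, hg⟩ := Matrix.SpecialLinearGroup.mem_center_iff.1 hg
  refine ⟨r, ?_, ?_⟩
  · rintro rfl
    rw [Fintype.card_fin, zero_pow (NeZero.ne n)] at hr
    exact zero_ne_one hr
  · unfold act
    rw [← hg]
    have : (Matrix.scalar (Fin n)) r = r • (1 : Matrix (Fin n) (Fin n) F) := by
      rw [Matrix.smul_one_eq_diagonal]; rfl
    rw [this, map_smul, map_one]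
    rfl

/-- The image of `H0` in `PSL(n, F)`. -/
noncomputable def H (v : K) : Subgroup (Matrix.ProjectiveSpecialLinearGroup (Fin n) F) :=
  (H0 b v).map (QuotientGroup.mk' _)

lemma mk_mem_H [NeZero n] (v : K) (g : Matrix.SpecialLinearGroup (Fin n) F) :
    (QuotientGroup.mk g : Matrix.ProjectiveSpecialLinearGroup (Fin n) F) ∈ H b v ↔
      g ∈ H0 b v := by
  constructor
  · rintro ⟨h, hh, hhg⟩
    have h1 : h⁻¹ * g ∈ Subgroup.center (Matrix.SpecialLinearGroup (Fin n) F) :=
      QuotientGroup.eq.1 hhg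
    have h2 := (H0 b v).mul_mem hh (center_le_H0 b v h1)
    rwa [mul_inv_cancel_left] at h2
  · intro h
    exact ⟨g, h, rfl⟩

/-- `c` is an `n`-th power. -/
def IsNPow (n : ℕ) (c : F) : Prop := ∃ d : F, d ^ n = c

/-- The sharply transitive set: the classes of the maps `x ↦ s x` with `N(s)` an `n`-th power and
`x ↦ s x ^ q` with `N(s)` not an `n`-th power (of determinant one). -/
def A : Set (Matrix.ProjectiveSpecialLinearGroup (Fin n) F) :=
  {a | ∃ g : Matrix.SpecialLinearGroup (Fin n) F, QuotientGroup.mk g = a ∧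
    ∃ s : K, s ≠ 0 ∧ ((IsNPow n (Algebra.norm F s) ∧ act b g = T s false) ∨
      (¬ IsNPow n (Algebra.norm F s) ∧ act b g = T s true))}

lemma isNPow_mul (d : F) (hd : d ≠ 0) (c : F) :
    IsNPow n (d ^ n * c) ↔ IsNPow n c := by
  constructor
  · rintro ⟨e, he⟩
    refine ⟨d⁻¹ * e, ?_⟩
    rw [mul_pow, he, inv_pow, inv_mul_cancel_left₀ (pow_ne_zero n hd)]
  · rintro ⟨e, he⟩
    exact ⟨d * e, by rw [mul_pow, he]⟩

lemma norm_smul (hK : Module.finrank F K = n) (d : F) (s : K) :
    Algebra.norm F (d • s) = d ^ n * Algebra.norm F s := by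
  rw [Algebra.smul_def, map_mul, Algebra.norm_algebraMap, hK]

/-- Existence of an element of the set mapping the line of `x` to the line of `y`. -/
lemma exists_mem_A (hK : Module.finrank F K = n) (hn : n ≠ 0)
    (HP : ∀ c : F, c ≠ 0 → IsNPow n c ∨ IsNPow n (c * (-1) ^ (n + 1)))
    {x y : K} (hx : x ≠ 0) (hy : y ≠ 0) :
    ∃ g : Matrix.SpecialLinearGroup (Fin n) F, QuotientGroup.mk g ∈ A b ∧
      ∃ c : F, c ≠ 0 ∧ act b g x = c • y := by
  haveI : Module.Finite F K := Module.Finite.of_finite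
  have hyx : y / x ≠ 0 := div_ne_zero hy hx
  by_cases hP : IsNPow n (Algebra.norm F (y / x))
  · obtain ⟨d, hd⟩ := hP
    have hN : Algebra.norm F (y / x) ≠ 0 := Algebra.norm_ne_zero_iff.2 hyx
    have hd0 : d ≠ 0 := by
      rintro rfl
      rw [zero_pow hn] at hd
      exact hN hd.symm
    have hs1 : Algebra.norm F (d⁻¹ • (y / x)) = 1 := by
      rw [norm_smul hK, ← hd, ← mul_pow, inv_mul_cancel₀ hd0, one_pow]
    obtain ⟨g, hg⟩ := exists_act_eq b (T (d⁻¹ • (y / x)) false) (by rw [det_T_false, hs1])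
    refine ⟨g, ⟨g, rfl, d⁻¹ • (y / x), smul_ne_zero (inv_ne_zero hd0) hyx, Or.inl ⟨?_, hg⟩⟩,
      d⁻¹, inv_ne_zero hd0, ?_⟩
    · rw [hs1]; exact ⟨1, one_pow n⟩
    · rw [hg, T_false, smul_mul_assoc, div_mul_cancel₀ y hx]
  · set fx : K := FiniteField.frobeniusAlgHom F K x with hfx
    have hfx0 : fx ≠ 0 := by
      rw [hfx]
      intro h
      exact hx ((map_eq_zero_iff _ (FiniteField.frobeniusAlgHom F K).toRingHom.injective).1 h)
    have hyfx : y / fx ≠ 0 := div_ne_zero hy hfx0
    have hNN : Algebra.norm F (y / fx) = Algebra.norm F (y / x) := by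
      have h1 : Algebra.norm F y = Algebra.norm F (y / fx) * Algebra.norm F fx := by
        rw [← map_mul, div_mul_cancel₀ y hfx0]
      have h2 : Algebra.norm F y = Algebra.norm F (y / x) * Algebra.norm F x := by
        rw [← map_mul, div_mul_cancel₀ y hx]
      rw [hfx, norm_frob, h2] at h1
      exact (mul_right_cancel₀ (Algebra.norm_ne_zero_iff.2 hx) h1).symm
    have hN : Algebra.norm F (y / fx) ≠ 0 := Algebra.norm_ne_zero_iff.2 hyfx
    have hP' : ¬ IsNPow n (Algebra.norm F (y / fx)) := by rwa [hNN]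
    obtain ⟨d, hd⟩ := (HP _ hN).resolve_left hP'
    have hd0 : d ≠ 0 := by
      rintro rfl
      rw [zero_pow hn] at hd
      exact mul_ne_zero hN (pow_ne_zero _ (neg_ne_zero.2 one_ne_zero)) hd.symm
    have hdet : LinearMap.det (T (F := F) (d⁻¹ • (y / fx)) true) = 1 := by
      rw [det_T_true hK, norm_smul hK, mul_assoc, ← hd, ← mul_pow, inv_mul_cancel₀ hd0, one_pow]
    obtain ⟨g, hg⟩ := exists_act_eq b (T (d⁻¹ • (y / fx)) true) hdet
    refine ⟨g, ⟨g, rfl, d⁻¹ • (y / fx), smul_ne_zero (inv_ne_zero hd0) hyfx, Or.inr ⟨?_, hg⟩⟩,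
      d⁻¹, inv_ne_zero hd0, ?_⟩
    · rw [norm_smul hK, isNPow_mul _ (inv_ne_zero hd0)]
      exact hP'
    · rw [hg, T_true, ← hfx, smul_mul_assoc, div_mul_cancel₀ y hfx0]

/-- The elements of the set mapping the line of `x` to the line of `y` are proportional to a fixed
map. -/
lemma mem_A_prop (hK : Module.finrank F K = n)
    {x y : K} (hx : x ≠ 0) (hy : y ≠ 0) (g : Matrix.SpecialLinearGroup (Fin n) F)
    (hg : ∃ s : K, s ≠ 0 ∧ ((IsNPow n (Algebra.norm F s) ∧ act b g = T s false) ∨
      (¬ IsNPow n (Algebra.norm F s) ∧ act b g = T s true)))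
    (c : F) (hc : c ≠ 0) (hgx : act b g x = c • y) :
    (IsNPow n (Algebra.norm F (y / x)) ∧ ∀ z, act b g z = c • (T (F := F) (y / x) false z)) ∨
    (¬ IsNPow n (Algebra.norm F (y / x)) ∧
      ∀ z, act b g z = c • (T (F := F) (y / FiniteField.frobeniusAlgHom F K x) true z)) := by
  haveI : Module.Finite F K := Module.Finite.of_finite
  obtain ⟨s, hs, ⟨hN, hg⟩ | ⟨hN, hg⟩⟩ := hg
  · left
    rw [hg, T_false] at hgx
    have hsx : s = c • (y / x) := by
      rw [← smul_div_assoc, ← hgx, mul_div_cancel_right₀ s hx]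
    refine ⟨?_, ?_⟩
    · rw [hsx, norm_smul hK, isNPow_mul _ hc] at hN
      exact hN
    · intro z
      rw [hg, T_false, T_false, hsx, smul_mul_assoc]
  · right
    have hfx0 : FiniteField.frobeniusAlgHom F K x ≠ 0 := by
      intro h
      exact hx ((map_eq_zero_iff _ (FiniteField.frobeniusAlgHom F K).toRingHom.injective).1 h)
    rw [hg, T_true] at hgx
    have hsx : s = c • (y / FiniteField.frobeniusAlgHom F K x) := by
      rw [← smul_div_assoc, ← hgx, mul_div_cancel_right₀ s hfx0]
    refine ⟨?_, ?_⟩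
    · have hNN : Algebra.norm F (y / FiniteField.frobeniusAlgHom F K x)
          = Algebra.norm F (y / x) := by
        have h1 : Algebra.norm F y = Algebra.norm F (y / FiniteField.frobeniusAlgHom F K x)
            * Algebra.norm F (FiniteField.frobeniusAlgHom F K x) := by
          rw [← map_mul, div_mul_cancel₀ y hfx0]
        have h2 : Algebra.norm F y = Algebra.norm F (y / x) * Algebra.norm F x := by
          rw [← map_mul, div_mul_cancel₀ y hx]
        rw [norm_frob, h2] at h1
        exact (mul_right_cancel₀ (Algebra.norm_ne_zero_iff.2 hx) h1).symm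
      rw [hsx, norm_smul hK, isNPow_mul _ hc, hNN] at hN
      exact hN
    · intro z
      rw [hg, T_true, T_true, hsx, smul_mul_assoc]

/-- The set is sharply transitive on the points of the projective space. -/
lemma sharp [NeZero n] (hK : Module.finrank F K = n)
    (HP : ∀ c : F, c ≠ 0 → IsNPow n c ∨ IsNPow n (c * (-1) ^ (n + 1)))
    {v : K} (hv : v ≠ 0) (s k : Matrix.ProjectiveSpecialLinearGroup (Fin n) F) :
    ∃! a : Matrix.ProjectiveSpecialLinearGroup (Fin n) F,
      a ∈ A b ∧ k⁻¹ * (a⁻¹ * s) * k ∈ H b v := by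
  obtain ⟨σ, rfl⟩ := QuotientGroup.mk_surjective s
  obtain ⟨κ, rfl⟩ := QuotientGroup.mk_surjective k
  set x : K := act b κ v with hxdef
  set y : K := act b σ x with hydef
  have hx : x ≠ 0 := act_ne_zero b κ hv
  have hy : y ≠ 0 := act_ne_zero b σ hx
  -- the condition for the class of `g`
  have key : ∀ g : Matrix.SpecialLinearGroup (Fin n) F,
      ((QuotientGroup.mk κ : Matrix.ProjectiveSpecialLinearGroup (Fin n) F)⁻¹ *
        ((QuotientGroup.mk g)⁻¹ * QuotientGroup.mk σ) * QuotientGroup.mk κ ∈ H b v) ↔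
      ∃ c : F, c ≠ 0 ∧ act b g x = c • y := by
    intro g
    have h1 : ((QuotientGroup.mk κ : Matrix.ProjectiveSpecialLinearGroup (Fin n) F)⁻¹ *
        ((QuotientGroup.mk g)⁻¹ * QuotientGroup.mk σ) * QuotientGroup.mk κ)
        = QuotientGroup.mk (κ⁻¹ * (g⁻¹ * σ) * κ) := rfl
    rw [h1, mk_mem_H, mem_H0]
    have h2 : act b (κ⁻¹ * (g⁻¹ * σ) * κ) v = act b κ⁻¹ (act b g⁻¹ y) := by
      rw [act_mul, act_mul, act_mul]
    rw [h2]
    constructor
    · rintro ⟨c, hc, h⟩
      refine ⟨c⁻¹, inv_ne_zero hc, ?_⟩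
      have h3 := congrArg (fun z => act b g (act b κ z)) h
      simp only [act_act_inv, map_smul] at h3
      rw [h3, smul_smul, inv_mul_cancel₀ hc, one_smul]
    · rintro ⟨c, hc, h⟩
      refine ⟨c⁻¹, inv_ne_zero hc, ?_⟩
      have h3 : y = c⁻¹ • act b g x := by rw [h, smul_smul, inv_mul_cancel₀ hc, one_smul]
      rw [h3, map_smul, map_smul, act_inv_act, hxdef, act_inv_act]
  obtain ⟨g, hgA, c, hc, hgx⟩ := exists_mem_A b hK (NeZero.ne n) HP hx hy
  refine ⟨QuotientGroup.mk g, ⟨hgA, (key g).2 ⟨c, hc, hgx⟩⟩, ?_⟩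
  rintro a ⟨⟨g', rfl, hg'⟩, ha⟩
  obtain ⟨c', hc', hgx'⟩ := (key g').1 ha
  obtain ⟨g1, hg1, hs1⟩ := hgA
  obtain ⟨c1, hc1, hgx1⟩ : ∃ c : F, c ≠ 0 ∧ act b g1 x = c • y := by
    rw [← key g1, hg1, key g]
    exact ⟨c, hc, hgx⟩
  rw [← hg1]
  have e1 := mem_A_prop b hK hx hy g1 hs1 c1 hc1 hgx1
  have e2 := mem_A_prop b hK hx hy g' hg' c' hc' hgx'
  have e3 : ∀ z, act b g1 z = (c1 * c'⁻¹) • act b g' z := by
    intro z
    rcases e1 with ⟨hN, e1⟩ | ⟨hN, e1⟩ <;> rcases e2 with ⟨hN', e2⟩ | ⟨hN', e2⟩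
    · rw [e1, e2, smul_smul, mul_assoc, inv_mul_cancel₀ hc', mul_one]
    · exact absurd hN hN'
    · exact absurd hN' hN
    · rw [e1, e2, smul_smul, mul_assoc, inv_mul_cancel₀ hc', mul_one]
  exact mk_eq_of_smul b g' g1 (c1 * c'⁻¹) e3

/-- The action of a transvection on the basis. -/
lemma act_transvection (i j : Fin n) (hij : i ≠ j) (k : Fin n) :
    act b ⟨Matrix.transvection i j (1 : F), Matrix.det_transvection_of_ne i j hij 1⟩ (b k)
      = if k = j then b k + b i else b k := by
  unfold act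
  show Matrix.toLin b b (Matrix.transvection i j (1 : F)) (b k) = _
  rw [Matrix.toLin_self]
  unfold Matrix.transvection
  simp only [Matrix.add_apply, add_smul, Finset.sum_add_distrib]
  have h1 : ∑ l, (1 : Matrix (Fin n) (Fin n) F) l k • b l = b k := by
    rw [Finset.sum_eq_single k]
    · rw [Matrix.one_apply_eq, one_smul]
    · intro l _ hl
      rw [Matrix.one_apply_ne hl, zero_smul]
    · intro h; exact absurd (Finset.mem_univ k) h
  rw [h1]
  split_ifs with h
  · subst h
    congr 1
    rw [Finset.sum_eq_single i]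
    · rw [Matrix.single_apply_same, one_smul]
    · intro l _ hl
      rw [Matrix.single_apply_of_ne _ _ _ _ _ (by tauto), zero_smul]
    · intro h; exact absurd (Finset.mem_univ i) h
  · rw [Finset.sum_eq_zero, add_zero]
    intro l _
    rw [Matrix.single_apply_of_ne _ _ _ _ _ (by tauto), zero_smul]

lemma H_ne_bot [NeZero n] (i j : Fin n) (hij : i ≠ j) : H b (b i) ≠ ⊥ := by
  intro h
  set g : Matrix.SpecialLinearGroup (Fin n) F :=
    ⟨Matrix.transvection i j (1 : F), Matrix.det_transvection_of_ne i j hij 1⟩ with hg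
  have h1 : (QuotientGroup.mk g : Matrix.ProjectiveSpecialLinearGroup (Fin n) F)
      ∈ H b (b i) := by
    rw [mk_mem_H]
    refine ⟨1, one_ne_zero, ?_⟩
    rw [hg, act_transvection b i j hij, if_neg hij, one_smul]
  rw [h, Subgroup.mem_bot, QuotientGroup.eq_one_iff] at h1
  have h2 := center_le_H0 b (b j) h1
  obtain ⟨c, -, h3⟩ := h2
  rw [hg, act_transvection b i j hij, if_pos rfl] at h3
  have h4 := congrArg (fun z => b.repr z i) h3
  simp [Finsupp.single_apply, hij, hij.symm] at h4

lemma H_ne_top [NeZero n] (i j : Fin n) (hij : i ≠ j) : H b (b i) ≠ ⊤ := by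
  intro h
  set g : Matrix.SpecialLinearGroup (Fin n) F :=
    ⟨Matrix.transvection j i (1 : F), Matrix.det_transvection_of_ne j i hij.symm 1⟩ with hg
  have h1 : (QuotientGroup.mk g : Matrix.ProjectiveSpecialLinearGroup (Fin n) F)
      ∈ H b (b i) := by
    rw [h]; trivial
  rw [mk_mem_H] at h1
  obtain ⟨c, -, h3⟩ := h1
  rw [hg, act_transvection b j i hij.symm, if_pos rfl] at h3
  have h4 := congrArg (fun z => b.repr z j) h3
  simp [Finsupp.single_apply, hij, hij.symm] at h4

end Main

/-- The two-sided action of `PSL(n, F)` is non-synchronizing when every element of `F` is up to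
the sign `(-1) ^ (n + 1)` an `n`-th power. -/
theorem main (n : ℕ) (hn : 2 ≤ n) (F : Type) [Field F] [Fintype F]
    (HP : ∀ c : F, c ≠ 0 → IsNPow n c ∨ IsNPow n (c * (-1) ^ (n + 1))) :
    ¬ Synchronizing (twoSided (Matrix.ProjectiveSpecialLinearGroup (Fin n) F)) := by
  haveI : NeZero n := ⟨by omega⟩
  obtain ⟨p, hp⟩ := CharP.exists F
  haveI : Fact p.Prime := ⟨CharP.char_is_prime F p⟩
  let K := FiniteField.Extension F p n
  have hK : Module.finrank F K = n := FiniteField.finrank_extension F p n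
  let b : Module.Basis (Fin n) F K := Module.finBasisOfFinrankEq F K hK
  have hij : (⟨0, by omega⟩ : Fin n) ≠ ⟨1, by omega⟩ := by
    intro h
    have := congrArg Fin.val h
    simp at this
  exact not_sync_of_sharp (H b (b ⟨0, by omega⟩)) (H_ne_bot b _ _ hij) (H_ne_top b _ _ hij)
    (A b) (sharp b hK HP (b.ne_zero _))

/-- In a finite field of order `q` every `gcd(n, q - 1)`-th power is an `n`-th power. -/
lemma isNPow_of_gcd (n : ℕ) (F : Type) [Field F] [Fintype F] (d : F) (hd : d ≠ 0) :
    IsNPow n (d ^ (Nat.gcd n (Fintype.card F - 1))) := by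
  have h1 : d ^ (Fintype.card F - 1) = 1 := FiniteField.pow_card_sub_one_eq_one d hd
  refine ⟨d ^ (Nat.gcdA n (Fintype.card F - 1)), ?_⟩
  have h2 := Nat.gcd_eq_gcd_ab n (Fintype.card F - 1)
  rw [← zpow_natCast, ← zpow_natCast, ← zpow_mul, h2, zpow_add₀ hd, zpow_mul d
    ((Fintype.card F - 1 : ℕ) : ℤ), zpow_natCast d (Fintype.card F - 1), h1, one_zpow, mul_one,
    mul_comm]

/-- The families of simple groups covered: `gcd(n, q - 1) = 1`, and `gcd(n, q - 1) = 2` with
`q` congruent to `3` modulo `4`. -/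
theorem psl (n : ℕ) (hn : 2 ≤ n) (F : Type) [Field F] [Fintype F]
    (h : Nat.gcd n (Fintype.card F - 1) = 1 ∨
      (Nat.gcd n (Fintype.card F - 1) = 2 ∧ Fintype.card F % 4 = 3)) :
    ¬ Synchronizing (twoSided (Matrix.ProjectiveSpecialLinearGroup (Fin n) F)) := by
  apply main n hn F
  intro c hc
  rcases h with h | ⟨h, h3⟩
  · left
    have := isNPow_of_gcd n F c hc
    rwa [h, pow_one] at this
  · by_cases hsq : IsSquare c
    · left
      obtain ⟨d, rfl⟩ := hsq
      have hd : d ≠ 0 := by rintro rfl; simp at hc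
      have := isNPow_of_gcd n F d hd
      rwa [h, pow_two] at this
    · right
      have hn2 : Even n := even_iff_two_dvd.2 (h ▸ Nat.gcd_dvd_left n _)
      rw [hn2.add_one.neg_one_pow]
      have hneg : ¬ IsSquare (-1 : F) := by
        rw [FiniteField.isSquare_neg_one_iff]
        simpa using h3
      have hF : ringChar F ≠ 2 := by
        intro h2
        have := FiniteField.even_card_of_char_two h2
        omega
      have hsq2 : IsSquare (c * -1) := by
        classical
        have h1 : quadraticChar F c = -1 := (quadraticChar_neg_one_iff_not_isSquare).2 hsq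
        have h2 : quadraticChar F (-1) = -1 := (quadraticChar_neg_one_iff_not_isSquare).2 hneg
        have h4 : quadraticChar F (c * -1) = 1 := by rw [map_mul, h1, h2]; rfl
        exact (quadraticChar_one_iff_isSquare (mul_ne_zero hc (neg_ne_zero.2 one_ne_zero))).1 h4
      obtain ⟨d, hd⟩ := hsq2
      have hd0 : d ≠ 0 := by
        rintro rfl
        rw [mul_zero] at hd
        exact mul_ne_zero hc (neg_ne_zero.2 one_ne_zero) hd
      have := isNPow_of_gcd n F d hd0
      rwa [h, pow_two, ← hd] at this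

end LType

end Pool.Agent.NS98
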