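import Pool.Agent.NS98.Base

/-!
# The split octonions on `F ^ 4 × F ^ 4` (Zorn's vector matrices)
-/

set_option autoImplicit false

namespace Pool.Agent.NS98

variable {F : Type} [Field F]

/-- The product of the split octonions. The coordinates `0` are the diagonal entries, the
coordinates `1, 2, 3` the two vectors of Zorn's vector matrices. -/
def omul (x y : Hyp 4 F) : Hyp 4 F :=
  (![x.1 0 * y.1 0 - x.1 1 * y.2 1 - x.1 2 * y.2 2 - x.1 3 * y.2 3,
     x.1 0 * y.1 1 + y.2 0 * x.1 1 + (x.2 2 * y.2 3 - x.2 3 * y.2 2),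
     x.1 0 * y.1 2 + y.2 0 * x.1 2 + (x.2 3 * y.2 1 - x.2 1 * y.2 3),
     x.1 0 * y.1 3 + y.2 0 * x.1 3 + (x.2 1 * y.2 2 - x.2 2 * y.2 1)],
   ![x.2 0 * y.2 0 - x.2 1 * y.1 1 - x.2 2 * y.1 2 - x.2 3 * y.1 3,
     x.2 0 * y.2 1 + y.1 0 * x.2 1 + (x.1 2 * y.1 3 - x.1 3 * y.1 2),
     x.2 0 * y.2 2 + y.1 0 * x.2 2 + (x.1 3 * y.1 1 - x.1 1 * y.1 3),
     x.2 0 * y.2 3 + y.1 0 * x.2 3 + (x.1 1 * y.1 2 - x.1 2 * y.1 1)])

/-- The conjugation of the octonions. -/
def oconj (x : Hyp 4 F) : Hyp 4 F :=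
  (![x.2 0, -x.1 1, -x.1 2, -x.1 3], ![x.1 0, -x.2 1, -x.2 2, -x.2 3])

/-- The unit of the octonions. -/
def oone : Hyp 4 F := (![1, 0, 0, 0], ![1, 0, 0, 0])

lemma Q_four (x : Hyp 4 F) :
    Q x = x.1 0 * x.2 0 + x.1 1 * x.2 1 + x.1 2 * x.2 2 + x.1 3 * x.2 3 := by
  simp [Q, Fin.sum_univ_four]

omit [Field F] in
lemma hyp_ext {x y : Hyp 4 F} (h0 : x.1 0 = y.1 0) (h1 : x.1 1 = y.1 1) (h2 : x.1 2 = y.1 2)
    (h3 : x.1 3 = y.1 3) (k0 : x.2 0 = y.2 0) (k1 : x.2 1 = y.2 1) (k2 : x.2 2 = y.2 2)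
    (k3 : x.2 3 = y.2 3) : x = y := by
  apply Prod.ext
  · funext i
    fin_cases i
    · exact h0
    · exact h1
    · exact h2
    · exact h3
  · funext i
    fin_cases i
    · exact k0
    · exact k1
    · exact k2
    · exact k3

@[simp] lemma omul_10 (x y : Hyp 4 F) : (omul x y).1 0 =
    x.1 0 * y.1 0 - x.1 1 * y.2 1 - x.1 2 * y.2 2 - x.1 3 * y.2 3 := rfl
@[simp] lemma omul_11 (x y : Hyp 4 F) : (omul x y).1 1 =
    x.1 0 * y.1 1 + y.2 0 * x.1 1 + (x.2 2 * y.2 3 - x.2 3 * y.2 2) := rfl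
@[simp] lemma omul_12 (x y : Hyp 4 F) : (omul x y).1 2 =
    x.1 0 * y.1 2 + y.2 0 * x.1 2 + (x.2 3 * y.2 1 - x.2 1 * y.2 3) := rfl
@[simp] lemma omul_13 (x y : Hyp 4 F) : (omul x y).1 3 =
    x.1 0 * y.1 3 + y.2 0 * x.1 3 + (x.2 1 * y.2 2 - x.2 2 * y.2 1) := rfl
@[simp] lemma omul_20 (x y : Hyp 4 F) : (omul x y).2 0 =
    x.2 0 * y.2 0 - x.2 1 * y.1 1 - x.2 2 * y.1 2 - x.2 3 * y.1 3 := rfl
@[simp] lemma omul_21 (x y : Hyp 4 F) : (omul x y).2 1 =
    x.2 0 * y.2 1 + y.1 0 * x.2 1 + (x.1 2 * y.1 3 - x.1 3 * y.1 2) := rfl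
@[simp] lemma omul_22 (x y : Hyp 4 F) : (omul x y).2 2 =
    x.2 0 * y.2 2 + y.1 0 * x.2 2 + (x.1 3 * y.1 1 - x.1 1 * y.1 3) := rfl
@[simp] lemma omul_23 (x y : Hyp 4 F) : (omul x y).2 3 =
    x.2 0 * y.2 3 + y.1 0 * x.2 3 + (x.1 1 * y.1 2 - x.1 2 * y.1 1) := rfl

@[simp] lemma oconj_10 (x : Hyp 4 F) : (oconj x).1 0 = x.2 0 := rfl
@[simp] lemma oconj_11 (x : Hyp 4 F) : (oconj x).1 1 = -x.1 1 := rfl
@[simp] lemma oconj_12 (x : Hyp 4 F) : (oconj x).1 2 = -x.1 2 := rfl
@[simp] lemma oconj_13 (x : Hyp 4 F) : (oconj x).1 3 = -x.1 3 := rfl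
@[simp] lemma oconj_20 (x : Hyp 4 F) : (oconj x).2 0 = x.1 0 := rfl
@[simp] lemma oconj_21 (x : Hyp 4 F) : (oconj x).2 1 = -x.2 1 := rfl
@[simp] lemma oconj_22 (x : Hyp 4 F) : (oconj x).2 2 = -x.2 2 := rfl
@[simp] lemma oconj_23 (x : Hyp 4 F) : (oconj x).2 3 = -x.2 3 := rfl

@[simp] lemma oone_10 : (oone : Hyp 4 F).1 0 = 1 := rfl
@[simp] lemma oone_11 : (oone : Hyp 4 F).1 1 = 0 := rfl
@[simp] lemma oone_12 : (oone : Hyp 4 F).1 2 = 0 := rfl
@[simp] lemma oone_13 : (oone : Hyp 4 F).1 3 = 0 := rfl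
@[simp] lemma oone_20 : (oone : Hyp 4 F).2 0 = 1 := rfl
@[simp] lemma oone_21 : (oone : Hyp 4 F).2 1 = 0 := rfl
@[simp] lemma oone_22 : (oone : Hyp 4 F).2 2 = 0 := rfl
@[simp] lemma oone_23 : (oone : Hyp 4 F).2 3 = 0 := rfl

lemma Q_omul (x y : Hyp 4 F) : Q (omul x y) = Q x * Q y := by
  simp only [Q_four, omul_10, omul_11, omul_12, omul_13, omul_20, omul_21, omul_22, omul_23]
  ring

lemma Q_oone : Q (oone : Hyp 4 F) = 1 := by simp [Q_four]

lemma Q_oconj (x : Hyp 4 F) : Q (oconj x) = Q x := by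
  simp only [Q_four, oconj_10, oconj_11, oconj_12, oconj_13, oconj_20, oconj_21, oconj_22,
    oconj_23]
  ring

lemma oconj_oconj (x : Hyp 4 F) : oconj (oconj x) = x := by
  apply hyp_ext <;> simp

lemma omul_one (x : Hyp 4 F) : omul x oone = x := by
  apply hyp_ext <;> simp

lemma one_omul (x : Hyp 4 F) : omul oone x = x := by
  apply hyp_ext <;> simp

/-- `x̄ (x y) = N(x) y`. -/
lemma oconj_omul_cancel (x y : Hyp 4 F) : omul (oconj x) (omul x y) = Q x • y := by
  apply hyp_ext <;>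
  simp only [Q_four, omul_10, omul_11, omul_12, omul_13, omul_20, omul_21, omul_22, omul_23,
    oconj_10, oconj_11, oconj_12, oconj_13, oconj_20, oconj_21, oconj_22, oconj_23,
    Prod.smul_fst, Prod.smul_snd, Pi.smul_apply, smul_eq_mul] <;> ring

/-- `(y x) x̄ = N(x) y`. -/
lemma omul_oconj_cancel (x y : Hyp 4 F) : omul (omul y x) (oconj x) = Q x • y := by
  apply hyp_ext <;>
  simp only [Q_four, omul_10, omul_11, omul_12, omul_13, omul_20, omul_21, omul_22, omul_23,
    oconj_10, oconj_11, oconj_12, oconj_13, oconj_20, oconj_21, oconj_22, oconj_23,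
    Prod.smul_fst, Prod.smul_snd, Pi.smul_apply, smul_eq_mul] <;> ring

/-- `conj (x y) = conj y conj x`. -/
lemma oconj_omul (x y : Hyp 4 F) : oconj (omul x y) = omul (oconj y) (oconj x) := by
  apply hyp_ext <;>
  simp only [omul_10, omul_11, omul_12, omul_13, omul_20, omul_21, omul_22, omul_23,
    oconj_10, oconj_11, oconj_12, oconj_13, oconj_20, oconj_21, oconj_22, oconj_23] <;> ring

/-- The right Moufang identity `((x y) z) y = x (y (z y))`. -/
lemma moufang (x y z : Hyp 4 F) :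
    omul (omul (omul x y) z) y = omul x (omul y (omul z y)) := by
  apply hyp_ext <;>
  simp only [omul_10, omul_11, omul_12, omul_13, omul_20, omul_21, omul_22, omul_23] <;> ring

lemma omul_add (x y z : Hyp 4 F) : omul x (y + z) = omul x y + omul x z := by
  apply hyp_ext <;>
  simp only [omul_10, omul_11, omul_12, omul_13, omul_20, omul_21, omul_22, omul_23,
    Prod.fst_add, Prod.snd_add, Pi.add_apply] <;> ring

lemma add_omul (x y z : Hyp 4 F) : omul (x + y) z = omul x z + omul y z := by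
  apply hyp_ext <;>
  simp only [omul_10, omul_11, omul_12, omul_13, omul_20, omul_21, omul_22, omul_23,
    Prod.fst_add, Prod.snd_add, Pi.add_apply] <;> ring

lemma omul_smul (c : F) (x y : Hyp 4 F) : omul x (c • y) = c • omul x y := by
  apply hyp_ext <;>
  simp only [omul_10, omul_11, omul_12, omul_13, omul_20, omul_21, omul_22, omul_23,
    Prod.smul_fst, Prod.smul_snd, Pi.smul_apply, smul_eq_mul] <;> ring

lemma smul_omul (c : F) (x y : Hyp 4 F) : omul (c • x) y = c • omul x y := by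
  apply hyp_ext <;>
  simp only [omul_10, omul_11, omul_12, omul_13, omul_20, omul_21, omul_22, omul_23,
    Prod.smul_fst, Prod.smul_snd, Pi.smul_apply, smul_eq_mul] <;> ring

lemma oconj_add (x y : Hyp 4 F) : oconj (x + y) = oconj x + oconj y := by
  apply hyp_ext <;>
  simp only [oconj_10, oconj_11, oconj_12, oconj_13, oconj_20, oconj_21, oconj_22, oconj_23,
    Prod.fst_add, Prod.snd_add, Pi.add_apply] <;> ring

lemma oconj_smul (c : F) (x : Hyp 4 F) : oconj (c • x) = c • oconj x := by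
  apply hyp_ext <;>
  simp only [oconj_10, oconj_11, oconj_12, oconj_13, oconj_20, oconj_21, oconj_22, oconj_23,
    Prod.smul_fst, Prod.smul_snd, Pi.smul_apply, smul_eq_mul] <;> ring

/-! ### Multiplications by elements of norm one -/

/-- The left multiplication by an octonion of norm one. -/
def L (x : Hyp 4 F) (hx : Q x = 1) : orth 4 F :=
  ofLin
   { toFun := omul x
     map_add' := omul_add x
     map_smul' := fun c y => omul_smul c x y
     invFun := omul (oconj x)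
     left_inv := fun y => by rw [oconj_omul_cancel, hx, one_smul]
     right_inv := fun y => by
      have := oconj_omul_cancel (oconj x) y
      rwa [oconj_oconj, Q_oconj, hx, one_smul] at this }
   (fun y => by
    show Q (omul x y) = Q y
    rw [Q_omul, hx, one_mul])

/-- The right multiplication by an octonion of norm one. -/
def R (x : Hyp 4 F) (hx : Q x = 1) : orth 4 F :=
  ofLin
   { toFun := fun y => omul y x
     map_add' := fun y z => add_omul y z x
     map_smul' := fun c y => smul_omul c y x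
     invFun := fun y => omul y (oconj x)
     left_inv := fun y => by
      show omul (omul y x) (oconj x) = y
      rw [omul_oconj_cancel, hx, one_smul]
     right_inv := fun y => by
      have := omul_oconj_cancel (oconj x) y
      rwa [oconj_oconj, Q_oconj, hx, one_smul] at this }
   (fun y => by
    show Q (omul y x) = Q y
    rw [Q_omul, hx, mul_one])

/-- The conjugation as an element of the orthogonal group. -/
def K : orth 4 F :=
  ofLin
   { toFun := oconj
     map_add' := oconj_add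
     map_smul' := oconj_smul
     invFun := oconj
     left_inv := oconj_oconj
     right_inv := oconj_oconj }
   (fun y => Q_oconj y)

@[simp] lemma L_apply (x : Hyp 4 F) (hx : Q x = 1) (v : Hyp 4 F) : (L x hx).1 v = omul x v := rfl
@[simp] lemma R_apply (x : Hyp 4 F) (hx : Q x = 1) (v : Hyp 4 F) : (R x hx).1 v = omul v x := rfl
@[simp] lemma K_apply (v : Hyp 4 F) : (K : orth 4 F).1 v = oconj v := rfl

end Pool.Agent.NS98
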