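import Pool.Agent.NS98.Oct

/-!
# The left multiplications by octonions of norm one are in the commutator subgroup of `O⁺(8, F)`
-/

set_option autoImplicit false
set_option linter.unusedSectionVars false

namespace Pool.Agent.NS98

variable {F : Type} [Field F]

/-- The class of `L x` modulo the commutator subgroup is trivial. -/
def P (x : Hyp 4 F) : Prop := ∃ hx : Q x = 1, L x hx ∈ commutator (orth 4 F)

lemma mem_commutator_iff {G : Type} [Group G] (g : G) :
    g ∈ commutator G ↔ Abelianization.of g = 1 := by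
  rw [← QuotientGroup.eq_one_iff]
  rfl

lemma Q_mul_one {x y : Hyp 4 F} (hx : Q x = 1) (hy : Q y = 1) : Q (omul x y) = 1 := by
  rw [Q_omul, hx, hy, one_mul]

/-- The class of `L (x y)` is the product of the classes of `L x` and `L y`. -/
lemma of_L_omul {x y : Hyp 4 F} (hx : Q x = 1) (hy : Q y = 1) :
    Abelianization.of (L (omul x y) (Q_mul_one hx hy)) =
      Abelianization.of (L x hx) * Abelianization.of (L y hy) := by
  have h : R y hy * L (omul x y) (Q_mul_one hx hy) = L x hx * L y hy * R y hy := by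
    apply orth_ext
    intro z
    simp only [orth_mul_apply, L_apply, R_apply]
    exact moufang x y z
  have h2 := congrArg (Abelianization.of (G := orth 4 F)) h
  rw [map_mul, map_mul, map_mul, mul_comm] at h2
  exact mul_right_cancel h2

/-- An isometry which is an automorphism does not change the class of `L x`. -/
lemma of_L_auto (g : orth 4 F) (hg : ∀ u v, g.1 (omul u v) = omul (g.1 u) (g.1 v))
    {x : Hyp 4 F} (hx : Q x = 1) (hgx : Q (g.1 x) = 1) :
    Abelianization.of (L (g.1 x) hgx) = Abelianization.of (L x hx) := by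
  have h : g * L x hx = L (g.1 x) hgx * g := by
    apply orth_ext
    intro z
    simp only [orth_mul_apply, L_apply]
    exact hg x z
  have h2 := congrArg (Abelianization.of (G := orth 4 F)) h
  rw [map_mul, map_mul, mul_comm] at h2
  exact (mul_right_cancel h2).symm

lemma P_mul {x y : Hyp 4 F} (h1 : P x) (h2 : P y) : P (omul x y) := by
  obtain ⟨hx, h1⟩ := h1
  obtain ⟨hy, h2⟩ := h2
  refine ⟨Q_mul_one hx hy, ?_⟩
  rw [mem_commutator_iff] at *
  rw [of_L_omul hx hy, h1, h2, one_mul]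

lemma P_of_mul {x y : Hyp 4 F} (hx : Q x = 1) (h2 : P y) (h3 : P (omul x y)) : P x := by
  obtain ⟨hy, h2⟩ := h2
  obtain ⟨_, h3⟩ := h3
  refine ⟨hx, ?_⟩
  rw [mem_commutator_iff] at *
  rw [of_L_omul hx hy, h2, mul_one] at h3
  exact h3

lemma P_auto (g : orth 4 F) (hg : ∀ u v, g.1 (omul u v) = omul (g.1 u) (g.1 v))
    {x : Hyp 4 F} (h : P x) : P (g.1 x) := by
  obtain ⟨hx, h⟩ := h
  have hgx : Q (g.1 x) = 1 := by rw [← hx]; exact g.2.2.2 x
  refine ⟨hgx, ?_⟩
  rw [mem_commutator_iff] at *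
  rw [of_L_auto g hg hx hgx, h]

lemma P_of_auto (g : orth 4 F) (hg : ∀ u v, g.1 (omul u v) = omul (g.1 u) (g.1 v))
    {x w : Hyp 4 F} (hx : Q x = 1) (hw : Q w = 1) (h : g.1 x = omul x w) : P w := by
  refine ⟨hw, ?_⟩
  rw [mem_commutator_iff]
  have hgx : Q (g.1 x) = 1 := by rw [← hx]; exact g.2.2.2 x
  have h1 := of_L_auto g hg hx hgx
  have h2 := of_L_omul hx hw
  have h3 : L (g.1 x) hgx = L (omul x w) (Q_mul_one hx hw) := by
    apply orth_ext
    intro z
    simp only [L_apply, h]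
  rw [h3, h2] at h1
  exact mul_eq_left.1 h1

/-! ### Three automorphisms -/

/-- A unipotent automorphism. -/
def gt (t : F) (x : Hyp 4 F) : Hyp 4 F :=
  (![x.1 0 - t * x.2 1, x.1 1 + t * (x.2 0 - x.1 0) + t ^ 2 * x.2 1, x.1 2, x.1 3],
   ![x.2 0 + t * x.2 1, x.2 1, x.2 2 + t * x.1 3, x.2 3 - t * x.1 2])

@[simp] lemma gt_10 (t : F) (x : Hyp 4 F) : (gt t x).1 0 = x.1 0 - t * x.2 1 := rfl
@[simp] lemma gt_11 (t : F) (x : Hyp 4 F) : (gt t x).1 1 =
    x.1 1 + t * (x.2 0 - x.1 0) + t ^ 2 * x.2 1 := rfl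
@[simp] lemma gt_12 (t : F) (x : Hyp 4 F) : (gt t x).1 2 = x.1 2 := rfl
@[simp] lemma gt_13 (t : F) (x : Hyp 4 F) : (gt t x).1 3 = x.1 3 := rfl
@[simp] lemma gt_20 (t : F) (x : Hyp 4 F) : (gt t x).2 0 = x.2 0 + t * x.2 1 := rfl
@[simp] lemma gt_21 (t : F) (x : Hyp 4 F) : (gt t x).2 1 = x.2 1 := rfl
@[simp] lemma gt_22 (t : F) (x : Hyp 4 F) : (gt t x).2 2 = x.2 2 + t * x.1 3 := rfl
@[simp] lemma gt_23 (t : F) (x : Hyp 4 F) : (gt t x).2 3 = x.2 3 - t * x.1 2 := rfl

/-- `gt t` as an isometry. -/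
def gtO (t : F) : orth 4 F :=
  ofLin
   { toFun := gt t
     map_add' := fun x y => by
      apply hyp_ext <;> simp only [gt_10, gt_11, gt_12, gt_13, gt_20, gt_21, gt_22, gt_23,
        Prod.fst_add, Prod.snd_add, Pi.add_apply] <;> ring
     map_smul' := fun c x => by
      apply hyp_ext <;> simp only [gt_10, gt_11, gt_12, gt_13, gt_20, gt_21, gt_22, gt_23,
        Prod.smul_fst, Prod.smul_snd, Pi.smul_apply, smul_eq_mul, RingHom.id_apply] <;> ring
     invFun := gt (-t)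
     left_inv := fun x => by
      apply hyp_ext <;> simp only [gt_10, gt_11, gt_12, gt_13, gt_20, gt_21, gt_22, gt_23] <;>
        ring
     right_inv := fun x => by
      apply hyp_ext <;> simp only [gt_10, gt_11, gt_12, gt_13, gt_20, gt_21, gt_22, gt_23] <;>
        ring }
   (fun x => by
    show Q (gt t x) = Q x
    simp only [Q_four, gt_10, gt_11, gt_12, gt_13, gt_20, gt_21, gt_22, gt_23]
    ring)

lemma gtO_auto (t : F) (u v : Hyp 4 F) :
    (gtO t).1 (omul u v) = omul ((gtO t).1 u) ((gtO t).1 v) := by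
  show gt t (omul u v) = omul (gt t u) (gt t v)
  apply hyp_ext <;>
  simp only [omul_10, omul_11, omul_12, omul_13, omul_20, omul_21, omul_22, omul_23,
    gt_10, gt_11, gt_12, gt_13, gt_20, gt_21, gt_22, gt_23] <;> ring

/-- The cyclic permutation of the coordinates `1, 2, 3`. -/
def cyc (x : Hyp 4 F) : Hyp 4 F :=
  (![x.1 0, x.1 3, x.1 1, x.1 2], ![x.2 0, x.2 3, x.2 1, x.2 2])

@[simp] lemma cyc_10 (x : Hyp 4 F) : (cyc x).1 0 = x.1 0 := rfl
@[simp] lemma cyc_11 (x : Hyp 4 F) : (cyc x).1 1 = x.1 3 := rfl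
@[simp] lemma cyc_12 (x : Hyp 4 F) : (cyc x).1 2 = x.1 1 := rfl
@[simp] lemma cyc_13 (x : Hyp 4 F) : (cyc x).1 3 = x.1 2 := rfl
@[simp] lemma cyc_20 (x : Hyp 4 F) : (cyc x).2 0 = x.2 0 := rfl
@[simp] lemma cyc_21 (x : Hyp 4 F) : (cyc x).2 1 = x.2 3 := rfl
@[simp] lemma cyc_22 (x : Hyp 4 F) : (cyc x).2 2 = x.2 1 := rfl
@[simp] lemma cyc_23 (x : Hyp 4 F) : (cyc x).2 3 = x.2 2 := rfl

/-- The cyclic permutation as an isometry. -/
def cycO : orth 4 F :=
  ofLin
   { toFun := cyc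
     map_add' := fun x y => by
      apply hyp_ext <;> simp only [cyc_10, cyc_11, cyc_12, cyc_13, cyc_20, cyc_21, cyc_22, cyc_23,
        Prod.fst_add, Prod.snd_add, Pi.add_apply]
     map_smul' := fun c x => by
      apply hyp_ext <;> simp only [cyc_10, cyc_11, cyc_12, cyc_13, cyc_20, cyc_21, cyc_22, cyc_23,
        Prod.smul_fst, Prod.smul_snd, Pi.smul_apply, smul_eq_mul, RingHom.id_apply]
     invFun := fun x => cyc (cyc x)
     left_inv := fun x => by
      apply hyp_ext <;> rfl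
     right_inv := fun x => by
      apply hyp_ext <;> rfl }
   (fun x => by
    show Q (cyc x) = Q x
    simp only [Q_four, cyc_10, cyc_11, cyc_12, cyc_13, cyc_20, cyc_21, cyc_22, cyc_23]
    ring)

lemma cycO_auto (u v : Hyp 4 F) :
    (cycO : orth 4 F).1 (omul u v) = omul ((cycO : orth 4 F).1 u) ((cycO : orth 4 F).1 v) := by
  show cyc (omul u v) = omul (cyc u) (cyc v)
  apply hyp_ext <;>
  simp only [omul_10, omul_11, omul_12, omul_13, omul_20, omul_21, omul_22, omul_23,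
    cyc_10, cyc_11, cyc_12, cyc_13, cyc_20, cyc_21, cyc_22, cyc_23] <;> ring

/-- The exchange of the two halves as an isometry. -/
def swpO : orth 4 F :=
  ofLin
   { toFun := fun x => (x.2, x.1)
     map_add' := fun x y => rfl
     map_smul' := fun c x => rfl
     invFun := fun x => (x.2, x.1)
     left_inv := fun x => rfl
     right_inv := fun x => rfl }
   (fun x => by
    show Q (x.2, x.1) = Q x
    simp only [Q_four]
    ring)

lemma swpO_auto (u v : Hyp 4 F) :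
    (swpO : orth 4 F).1 (omul u v) = omul ((swpO : orth 4 F).1 u) ((swpO : orth 4 F).1 v) := by
  show ((omul u v).2, (omul u v).1) = omul (u.2, u.1) (v.2, v.1)
  apply hyp_ext <;>
  simp only [omul_10, omul_11, omul_12, omul_13, omul_20, omul_21, omul_22, omul_23]

/-! ### The unipotent octonions -/

/-- The octonion `1 + (0, 0, p, 0)`. -/
def yv (a b c : F) : Hyp 4 F := (![1, a, b, c], ![1, 0, 0, 0])

/-- The octonion `1 + (0, 0, 0, q)`. -/
def wv (a b c : F) : Hyp 4 F := (![1, 0, 0, 0], ![1, a, b, c])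

@[simp] lemma yv_10 (a b c : F) : (yv a b c).1 0 = 1 := rfl
@[simp] lemma yv_11 (a b c : F) : (yv a b c).1 1 = a := rfl
@[simp] lemma yv_12 (a b c : F) : (yv a b c).1 2 = b := rfl
@[simp] lemma yv_13 (a b c : F) : (yv a b c).1 3 = c := rfl
@[simp] lemma yv_20 (a b c : F) : (yv a b c).2 0 = 1 := rfl
@[simp] lemma yv_21 (a b c : F) : (yv a b c).2 1 = 0 := rfl
@[simp] lemma yv_22 (a b c : F) : (yv a b c).2 2 = 0 := rfl
@[simp] lemma yv_23 (a b c : F) : (yv a b c).2 3 = 0 := rfl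
@[simp] lemma wv_10 (a b c : F) : (wv a b c).1 0 = 1 := rfl
@[simp] lemma wv_11 (a b c : F) : (wv a b c).1 1 = 0 := rfl
@[simp] lemma wv_12 (a b c : F) : (wv a b c).1 2 = 0 := rfl
@[simp] lemma wv_13 (a b c : F) : (wv a b c).1 3 = 0 := rfl
@[simp] lemma wv_20 (a b c : F) : (wv a b c).2 0 = 1 := rfl
@[simp] lemma wv_21 (a b c : F) : (wv a b c).2 1 = a := rfl
@[simp] lemma wv_22 (a b c : F) : (wv a b c).2 2 = b := rfl
@[simp] lemma wv_23 (a b c : F) : (wv a b c).2 3 = c := rfl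

lemma Q_yv (a b c : F) : Q (yv a b c) = 1 := by simp [Q_four]
lemma Q_wv (a b c : F) : Q (wv a b c) = 1 := by simp [Q_four]

lemma P_w3 (t : F) : P (wv 0 0 t) := by
  refine P_of_auto (gtO (-t)) (gtO_auto (-t)) (Q_yv 0 1 0) (Q_wv 0 0 t) ?_
  show gt (-t) (yv 0 1 0) = omul (yv 0 1 0) (wv 0 0 t)
  apply hyp_ext <;> simp

lemma P_w1 (t : F) : P (wv t 0 0) := by
  have h := P_auto cycO cycO_auto (P_w3 t)
  have h2 : (cycO : orth 4 F).1 (wv 0 0 t) = wv t 0 0 := by
    show cyc (wv 0 0 t) = wv t 0 0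
    apply hyp_ext <;> simp
  rwa [h2] at h

lemma P_w2 (t : F) : P (wv 0 t 0) := by
  have h := P_auto cycO cycO_auto (P_w1 t)
  have h2 : (cycO : orth 4 F).1 (wv t 0 0) = wv 0 t 0 := by
    show cyc (wv t 0 0) = wv 0 t 0
    apply hyp_ext <;> simp
  rwa [h2] at h

lemma P_swap_w {a b c : F} (h : P (wv a b c)) : P (yv a b c) := by
  have h1 := P_auto swpO swpO_auto h
  exact h1

lemma P_swap_y {a b c : F} (h : P (yv a b c)) : P (wv a b c) := by
  have h1 := P_auto swpO swpO_auto h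
  exact h1

lemma P_y12 (a b : F) : P (yv a b 0) := by
  have h := P_mul (P_mul (P_swap_w (P_w1 a)) (P_swap_w (P_w2 b))) (P_w3 (-(a * b)))
  have h2 : omul (omul (yv a 0 0) (yv 0 b 0)) (wv 0 0 (-(a * b))) = yv a b 0 := by
    apply hyp_ext <;> simp
  rwa [h2] at h

lemma P_y (a b c : F) : P (yv a b c) := by
  have h := P_mul (P_mul (P_y12 a b) (P_swap_w (P_w3 c)))
    (P_swap_y (P_y12 (-(b * c)) (a * c)))
  have h2 : omul (omul (yv a b 0) (yv 0 0 c)) (wv (-(b * c)) (a * c) 0) = yv a b c := by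
    apply hyp_ext <;> simp <;> ring
  rwa [h2] at h

lemma P_w (a b c : F) : P (wv a b c) := P_swap_y (P_y a b c)

/-- The diagonal octonion. -/
def dg (a b : F) : Hyp 4 F := (![a, 0, 0, 0], ![b, 0, 0, 0])

@[simp] lemma dg_10 (a b : F) : (dg a b).1 0 = a := rfl
@[simp] lemma dg_11 (a b : F) : (dg a b).1 1 = 0 := rfl
@[simp] lemma dg_12 (a b : F) : (dg a b).1 2 = 0 := rfl
@[simp] lemma dg_13 (a b : F) : (dg a b).1 3 = 0 := rfl
@[simp] lemma dg_20 (a b : F) : (dg a b).2 0 = b := rfl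
@[simp] lemma dg_21 (a b : F) : (dg a b).2 1 = 0 := rfl
@[simp] lemma dg_22 (a b : F) : (dg a b).2 2 = 0 := rfl
@[simp] lemma dg_23 (a b : F) : (dg a b).2 3 = 0 := rfl

/-- The reduction of an octonion of norm one to a diagonal one. -/
lemma red (x : Hyp 4 F) (hx : Q x = 1) (hb : x.2 0 ≠ 0) :
    omul (omul x (wv (-(x.2 1) / x.2 0) (-(x.2 2) / x.2 0) (-(x.2 3) / x.2 0)))
      (yv (-(x.2 0 * x.1 1)) (-(x.2 0 * x.1 2)) (-(x.2 0 * x.1 3))) =
      dg (x.2 0)⁻¹ (x.2 0) := by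
  rw [Q_four] at hx
  have h1 : omul x (wv (-(x.2 1) / x.2 0) (-(x.2 2) / x.2 0) (-(x.2 3) / x.2 0)) =
      (![(x.2 0)⁻¹, x.1 1, x.1 2, x.1 3], ![x.2 0, 0, 0, 0]) := by
    apply hyp_ext
    · simp only [omul_10, wv_10, wv_21, wv_22, wv_23]
      show _ = (x.2 0)⁻¹
      field_simp
      linear_combination hx
    · simp only [omul_11, wv_11, wv_20, wv_22, wv_23]
      show _ = x.1 1
      ring
    · simp only [omul_12, wv_12, wv_20, wv_21, wv_23]
      show _ = x.1 2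
      ring
    · simp only [omul_13, wv_13, wv_20, wv_21, wv_22]
      show _ = x.1 3
      ring
    · simp only [omul_20, wv_20, wv_11, wv_12, wv_13]
      show _ = x.2 0
      ring
    · simp only [omul_21, wv_21, wv_10, wv_12, wv_13]
      show _ = (0 : F)
      field_simp
      ring
    · simp only [omul_22, wv_22, wv_10, wv_11, wv_13]
      show _ = (0 : F)
      field_simp
      ring
    · simp only [omul_23, wv_23, wv_10, wv_11, wv_12]
      show _ = (0 : F)
      field_simp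
      ring
  rw [h1]
  apply hyp_ext
  · show (x.2 0)⁻¹ * 1 - x.1 1 * 0 - x.1 2 * 0 - x.1 3 * 0 = (x.2 0)⁻¹
    ring
  · show (x.2 0)⁻¹ * (-(x.2 0 * x.1 1)) + 1 * x.1 1 + (0 * 0 - 0 * 0) = 0
    field_simp
    ring
  · show (x.2 0)⁻¹ * (-(x.2 0 * x.1 2)) + 1 * x.1 2 + (0 * 0 - 0 * 0) = 0
    field_simp
    ring
  · show (x.2 0)⁻¹ * (-(x.2 0 * x.1 3)) + 1 * x.1 3 + (0 * 0 - 0 * 0) = 0
    field_simp
    ring
  · show x.2 0 * 1 - 0 * _ - 0 * _ - 0 * _ = x.2 0
    ring
  · show x.2 0 * 0 + 1 * 0 + (x.1 2 * (-(x.2 0 * x.1 3)) - x.1 3 * (-(x.2 0 * x.1 2))) = 0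
    ring
  · show x.2 0 * 0 + 1 * 0 + (x.1 3 * (-(x.2 0 * x.1 1)) - x.1 1 * (-(x.2 0 * x.1 3))) = 0
    ring
  · show x.2 0 * 0 + 1 * 0 + (x.1 1 * (-(x.2 0 * x.1 2)) - x.1 2 * (-(x.2 0 * x.1 1))) = 0
    ring

lemma P_red (x : Hyp 4 F) (hP : P x) (hb : x.2 0 ≠ 0) : P (dg (x.2 0)⁻¹ (x.2 0)) := by
  rw [← red x hP.1 hb]
  exact P_mul (P_mul hP (P_w _ _ _)) (P_y _ _ _)

lemma P_dg (b : F) (hb : b ≠ 0) : P (dg b⁻¹ b) := by
  have hw : P (omul (wv 1 0 0) (yv (1 - b) 0 0)) := P_mul (P_w _ _ _) (P_y _ _ _)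
  have h0 : (omul (wv 1 0 0) (yv (1 - b) 0 0)).2 0 = b := by simp
  have h := P_red _ hw (by rw [h0]; exact hb)
  rwa [h0] at h

lemma P_of_ne (x : Hyp 4 F) (hx : Q x = 1) (hb : x.2 0 ≠ 0) : P x := by
  apply P_of_mul hx (P_w (-(x.2 1) / x.2 0) (-(x.2 2) / x.2 0) (-(x.2 3) / x.2 0))
  apply P_of_mul (Q_mul_one hx (Q_wv _ _ _))
    (P_y (-(x.2 0 * x.1 1)) (-(x.2 0 * x.1 2)) (-(x.2 0 * x.1 3)))
  rw [red x hx hb]
  exact P_dg _ hb

/-- All left multiplications by octonions of norm one are in the commutator subgroup. -/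
theorem P_all (x : Hyp 4 F) (hx : Q x = 1) : P x := by
  by_cases hb : x.2 0 = 0
  · have hQ := hx
    rw [Q_four, hb, mul_zero, zero_add] at hQ
    -- one of the `x.2 i` is not zero
    have key : ∀ a b c : F, x.2 1 * a + x.2 2 * b + x.2 3 * c ≠ 0 → P x := by
      intro a b c hne
      apply P_of_mul hx (P_y a b c)
      apply P_of_ne _ (Q_mul_one hx (Q_yv _ _ _))
      simp only [omul_20, yv_20, yv_11, yv_12, yv_13, hb]
      intro h
      apply hne
      linear_combination -h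
    apply key (x.1 1) (x.1 2) (x.1 3)
    rw [show x.2 1 * x.1 1 + x.2 2 * x.1 2 + x.2 3 * x.1 3 = 1 by linear_combination hQ]
    exact one_ne_zero
  · exact P_of_ne x hx hb

/-- The right multiplications by octonions of norm one are in the commutator subgroup. -/
theorem R_mem (x : Hyp 4 F) (hx : Q x = 1) : R x hx ∈ commutator (orth 4 F) := by
  have hx' : Q (oconj x) = 1 := by rw [Q_oconj, hx]
  obtain ⟨_, h⟩ := P_all (oconj x) hx'
  rw [mem_commutator_iff] at *
  have h1 : K * R x hx = L (oconj x) hx' * K := by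
    apply orth_ext
    intro z
    simp only [orth_mul_apply, L_apply, R_apply, K_apply]
    exact oconj_omul z x
  have h2 := congrArg (Abelianization.of (G := orth 4 F)) h1
  rw [map_mul, map_mul, mul_comm, h, one_mul] at h2
  exact mul_eq_right.1 h2

theorem L_mem (x : Hyp 4 F) (hx : Q x = 1) : L x hx ∈ commutator (orth 4 F) :=
  (P_all x hx).2

end Pool.Agent.NS98
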