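import Pool.Agent.NS98.OctGen

/-!
# `PΩ⁺(8, F) × PΩ⁺(8, F)` acting on `PΩ⁺(8, F)` is non-synchronizing
-/

set_option autoImplicit false

namespace Pool.Agent.NS98

variable {F : Type} [Field F]

/-- Auxiliary octonions. -/
def tv (c d : F) : Hyp 4 F := (![c, 1, 0, 0], ![d, 1, 0, 0])

@[simp] lemma tv_10 (c d : F) : (tv c d).1 0 = c := rfl
@[simp] lemma tv_11 (c d : F) : (tv c d).1 1 = 1 := rfl
@[simp] lemma tv_12 (c d : F) : (tv c d).1 2 = 0 := rfl
@[simp] lemma tv_13 (c d : F) : (tv c d).1 3 = 0 := rfl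
@[simp] lemma tv_20 (c d : F) : (tv c d).2 0 = d := rfl
@[simp] lemma tv_21 (c d : F) : (tv c d).2 1 = 1 := rfl
@[simp] lemma tv_22 (c d : F) : (tv c d).2 2 = 0 := rfl
@[simp] lemma tv_23 (c d : F) : (tv c d).2 3 = 0 := rfl

/-- Two linear maps which agree on the octonions of norm one are equal. -/
lemma eq_of_norm_one (f g : Hyp 4 F →ₗ[F] Hyp 4 F) (h : ∀ x, Q x = 1 → f x = g x) : f = g := by
  set k : Hyp 4 F →ₗ[F] Hyp 4 F := f - g with hk
  have hk0 : ∀ x, Q x = 1 → k x = 0 := fun x hx => by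
    rw [hk, LinearMap.sub_apply, h x hx, sub_self]
  suffices k = 0 from sub_eq_zero.1 this
  apply LinearMap.ext
  intro v
  have hv : v = v.1 0 • (tv 1 0 - (yv 1 0 0 - oone) - (wv 1 0 0 - oone)) +
      v.2 0 • (tv 0 1 - (yv 1 0 0 - oone) - (wv 1 0 0 - oone)) +
      v.1 1 • (yv 1 0 0 - oone) + v.1 2 • (yv 0 1 0 - oone) + v.1 3 • (yv 0 0 1 - oone) +
      v.2 1 • (wv 1 0 0 - oone) + v.2 2 • (wv 0 1 0 - oone) + v.2 3 • (wv 0 0 1 - oone) := by
    apply hyp_ext <;>
    simp only [Prod.fst_add, Prod.snd_add, Prod.fst_sub, Prod.snd_sub, Prod.smul_fst,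
      Prod.smul_snd, Pi.add_apply, Pi.sub_apply, Pi.smul_apply, smul_eq_mul, tv_10, tv_11, tv_12,
      tv_13, tv_20, tv_21, tv_22, tv_23, yv_10, yv_11, yv_12, yv_13, yv_20, yv_21, yv_22, yv_23,
      wv_10, wv_11, wv_12, wv_13, wv_20, wv_21, wv_22, wv_23, oone_10, oone_11, oone_12, oone_13,
      oone_20, oone_21, oone_22, oone_23] <;> ring
  have h1 : k (tv 1 0) = 0 := hk0 _ (by simp [Q_four])
  have h2 : k (tv 0 1) = 0 := hk0 _ (by simp [Q_four])
  have h3 : k (oone : Hyp 4 F) = 0 := hk0 _ Q_oone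
  rw [hv]
  simp only [map_add, map_smul, map_sub, h1, h2, h3, hk0 _ (Q_yv _ _ _), hk0 _ (Q_wv _ _ _),
    sub_zero, smul_zero, add_zero, LinearMap.zero_apply]

/-- The left multiplication as an element of `Ω`. -/
def LO (x : Hyp 4 F) (hx : Q x = 1) : Omega 4 F := ⟨(L x hx).1, mem_Omega_of_mem (L_mem x hx)⟩

/-- The right multiplication as an element of `Ω`. -/
def RO (x : Hyp 4 F) (hx : Q x = 1) : Omega 4 F := ⟨(R x hx).1, mem_Omega_of_mem (R_mem x hx)⟩

@[simp] lemma ap_LO (x : Hyp 4 F) (hx : Q x = 1) (v : Hyp 4 F) : ap (LO x hx) v = omul x v := rfl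
@[simp] lemma ap_RO (x : Hyp 4 F) (hx : Q x = 1) (v : Hyp 4 F) : ap (RO x hx) v = omul v x := rfl

/-- Two elements of `Ω` which agree on the octonions of norm one are equal. -/
lemma omega_eq {g h : Omega 4 F} (H : ∀ v, Q v = 1 → ap g v = ap h v) : g = h := by
  apply omega_ext
  intro v
  exact LinearMap.congr_fun (eq_of_norm_one (apLin g) (apLin h) H) v

/-- A central element commutes with the right multiplications. -/
lemma central_R {z : Omega 4 F} (hz : z ∈ Subgroup.center (Omega 4 F)) (x v : Hyp 4 F)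
    (hv : Q v = 1) : ap z (omul x v) = omul (ap z x) v := by
  have := Subgroup.mem_center_iff.1 hz (RO v hv)
  have h2 := congrArg (fun g => ap g x) this
  simp only [ap_mul, ap_RO] at h2
  exact h2.symm

/-- `L_{z(x)} = z L_x`. -/
lemma central_L {z : Omega 4 F} (hz : z ∈ Subgroup.center (Omega 4 F)) {x : Hyp 4 F}
    (hx : Q x = 1) (hzx : Q (ap z x) = 1) : LO (ap z x) hzx = z * LO x hx := by
  apply omega_eq
  intro v hv
  rw [ap_LO, ap_mul, ap_LO, central_R hz x v hv]

lemma ap_LO_inv (x : Hyp 4 F) (hx : Q x = 1) : ap (LO x hx)⁻¹ x = oone := by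
  have h : ap (LO x hx) oone = x := by rw [ap_LO, omul_one]
  have h2 := ap_inv_ap (LO x hx) oone
  rwa [h] at h2

/-- The stabilizer of the unit. -/
def St : Subgroup (Omega 4 F) where
  carrier := {g | ap g oone = oone}
  one_mem' := rfl
  mul_mem' := by
    intro a b ha hb
    show ap (a * b) oone = oone
    rw [ap_mul]
    rw [show ap b oone = oone from hb]
    exact ha
  inv_mem' := by
    intro a ha
    show ap a⁻¹ oone = oone
    conv_lhs => rw [← show ap a oone = oone from ha]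
    rw [ap_inv_ap]

lemma mem_St {g : Omega 4 F} : g ∈ (St : Subgroup (Omega 4 F)) ↔ ap g oone = oone := Iff.rfl

lemma mem_map_St {g : Omega 4 F} :
    (QuotientGroup.mk g : POmega 4 F) ∈ St.map (QuotientGroup.mk' (Subgroup.center (Omega 4 F))) ↔
      ∃ z ∈ Subgroup.center (Omega 4 F), ap g oone = ap z oone := by
  constructor
  · rintro ⟨s, hs, hsg⟩
    have h1 : (QuotientGroup.mk s : POmega 4 F) = QuotientGroup.mk g := hsg
    rw [QuotientGroup.eq] at h1
    refine ⟨s⁻¹ * g, h1, ?_⟩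
    have hs' : ap s oone = oone := hs
    have hc := Subgroup.mem_center_iff.1 h1 s
    -- `s * (s⁻¹ g) = (s⁻¹ g) s`
    have h2 := congrArg (fun g => ap g oone) hc
    simp only [ap_mul] at h2
    rw [hs', ap_ap_inv] at h2
    rw [ap_mul]
    exact h2
  · rintro ⟨z, hz, h⟩
    refine ⟨z⁻¹ * g, ?_, ?_⟩
    · show ap (z⁻¹ * g) oone = oone
      rw [ap_mul, h, ap_inv_ap]
    · show (QuotientGroup.mk (z⁻¹ * g) : POmega 4 F) = QuotientGroup.mk g
      rw [QuotientGroup.eq]
      have h3 : (z⁻¹ * g)⁻¹ * g = g⁻¹ * z * g := by group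
      rw [h3]
      have h4 := Subgroup.mem_center_iff.1 hz g
      rw [mul_assoc, ← h4, ← mul_assoc, inv_mul_cancel, one_mul]
      exact hz

/-- The two-sided action on `PΩ⁺(8, F)` is not synchronizing. -/
theorem oct_not_sync : ¬ Synchronizing (twoSided (POmega 4 F)) := by
  set H : Subgroup (POmega 4 F) :=
    St.map (QuotientGroup.mk' (Subgroup.center (Omega 4 F))) with hH
  apply not_sync_of_sharp H ?_ ?_
    {a | ∃ (x : Hyp 4 F) (hx : Q x = 1), a = QuotientGroup.mk (LO x hx)}
  · intro s k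
    induction s using QuotientGroup.induction_on with
    | H s =>
    induction k using QuotientGroup.induction_on with
    | H k =>
    have hw : Q (ap k oone) = 1 := by rw [ap_Q, Q_oone]
    set w := ap k oone with hwdef
    -- the condition for `x`
    have hcond : ∀ (x : Hyp 4 F) (hx : Q x = 1),
        ((QuotientGroup.mk k : POmega 4 F)⁻¹ * ((QuotientGroup.mk (LO x hx))⁻¹ *
          QuotientGroup.mk s) * QuotientGroup.mk k ∈ H) ↔
        ∃ z ∈ Subgroup.center (Omega 4 F), ap s w = omul x (ap z w) := by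
      intro x hx
      have h1 : ((QuotientGroup.mk k : POmega 4 F)⁻¹ * ((QuotientGroup.mk (LO x hx))⁻¹ *
          QuotientGroup.mk s) * QuotientGroup.mk k) =
          QuotientGroup.mk (k⁻¹ * ((LO x hx)⁻¹ * s) * k) := rfl
      rw [h1, hH, mem_map_St]
      constructor
      · rintro ⟨z, hz, h⟩
        refine ⟨z, hz, ?_⟩
        simp only [ap_mul] at h
        rw [← hwdef] at h
        have h2 := congrArg (ap k) h
        rw [ap_ap_inv, ← ap_mul k z, (Subgroup.mem_center_iff.1 hz k), ap_mul, ← hwdef] at h2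
        have h3 := congrArg (ap (LO x hx)) h2
        rw [ap_ap_inv, ap_LO] at h3
        exact h3
      · rintro ⟨z, hz, h⟩
        refine ⟨z, hz, ?_⟩
        simp only [ap_mul]
        rw [← hwdef, h, ← ap_LO x hx, ap_inv_ap, hwdef, ← ap_mul z k,
          ← (Subgroup.mem_center_iff.1 hz k), ap_mul, ap_inv_ap]
    have hx0 : Q (omul (ap s w) (oconj w)) = 1 := by
      rw [Q_omul, Q_oconj, hw, ap_Q, hw, one_mul]
    refine ⟨QuotientGroup.mk (LO (omul (ap s w) (oconj w)) hx0), ⟨⟨_, hx0, rfl⟩, ?_⟩, ?_⟩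
    · rw [hcond]
      refine ⟨1, Subgroup.one_mem _, ?_⟩
      rw [ap_one]
      have := omul_oconj_cancel (oconj w) (ap s w)
      rw [oconj_oconj, Q_oconj, hw, one_smul] at this
      exact this.symm
    · rintro a ⟨⟨x, hx, rfl⟩, ha⟩
      rw [hcond] at ha
      obtain ⟨z, hz, h⟩ := ha
      -- `ap s w = x (z w) = z (x w) = (z x) w`
      have h1 : omul x (ap z w) = omul (ap z x) w := by
        have h2 := Subgroup.mem_center_iff.1 hz (LO x hx)
        have h3 := congrArg (fun g => ap g w) h2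
        simp only [ap_mul, ap_LO] at h3
        rw [h3, central_R hz x w hw]
      rw [h1] at h
      have h4 : omul (ap s w) (oconj w) = ap z x := by
        rw [h, omul_oconj_cancel, hw, one_smul]
      have h5 : LO (omul (ap s w) (oconj w)) hx0 = z * LO x hx := by
        rw [← central_L hz hx (by rw [← h4]; exact hx0)]
        apply omega_ext
        intro v
        rw [ap_LO, ap_LO, h4]
      rw [h5, QuotientGroup.eq]
      have h6 : (LO x hx)⁻¹ * (z * LO x hx) = z := by
        rw [← Subgroup.mem_center_iff.1 hz (LO x hx), ← mul_assoc, inv_mul_cancel, one_mul]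
      rw [h6]
      exact hz
  · -- the stabilizer is not trivial
    intro hbot
    set g : Omega 4 F := (LO (omul (yv 1 0 0) (yv 0 1 0)) (Q_mul_one (Q_yv _ _ _) (Q_yv _ _ _)))⁻¹ *
      (LO (yv 1 0 0) (Q_yv _ _ _) * LO (yv 0 1 0) (Q_yv _ _ _)) with hg
    have hg1 : ap g oone = oone := by
      rw [hg, ap_mul, ap_mul, ap_LO, ap_LO, omul_one, ap_LO_inv]
    have hmem : (QuotientGroup.mk g : POmega 4 F) ∈ H := by
      rw [hH, mem_map_St]
      exact ⟨1, Subgroup.one_mem _, hg1⟩
    rw [hbot, Subgroup.mem_bot, QuotientGroup.eq_one_iff] at hmem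
    -- a central element which fixes the unit is trivial
    have h2 : ap g (yv 0 0 1) = yv 0 0 1 := by
      have := central_R hmem oone (yv 0 0 1) (Q_yv _ _ _)
      rw [one_omul, hg1, one_omul] at this
      exact this
    have h3 := congrArg (ap (LO (omul (yv 1 0 0) (yv 0 1 0))
      (Q_mul_one (Q_yv _ _ _) (Q_yv _ _ _)))) h2
    rw [hg, ap_mul, ap_ap_inv] at h3
    simp only [ap_mul, ap_LO] at h3
    have h4 := congrArg (fun v : Hyp 4 F => v.1 0) h3
    simp at h4
  · -- the stabilizer is not everything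
    intro htop
    have hmem : (QuotientGroup.mk (LO (yv 1 0 0) (Q_yv _ _ _)) : POmega 4 F) ∈ H := by
      rw [htop]; trivial
    rw [hH, mem_map_St] at hmem
    obtain ⟨z, hz, h⟩ := hmem
    rw [ap_LO, omul_one] at h
    -- `y = z(1)`, so `y w = z(w) = w y`
    have h1 : omul (yv 1 0 0) (wv 1 0 0) = ap z (wv 1 0 0) := by
      rw [h, ← central_R hz oone _ (Q_wv _ _ _), one_omul]
    have h2 : omul (wv 1 0 0) (yv 1 0 0) = ap z (wv 1 0 0) := by
      have h3 := Subgroup.mem_center_iff.1 hz (LO (wv 1 0 0) (Q_wv _ _ _))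
      have h4 := congrArg (fun g => ap g oone) h3
      simp only [ap_mul, ap_LO, omul_one] at h4
      rw [h, h4]
    have h5 := congrArg (fun v : Hyp 4 F => v.1 0) (h1.trans h2.symm)
    simp at h5

end Pool.Agent.NS98
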