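import Pool.Agent.NS98.K26

/-!
# The sharply transitive set of isometries, over the whole orthogonal group
-/

set_option autoImplicit false

namespace Pool.Agent.NS98.K

open Module

/-- For a finite field of characteristic `2` and even `m ≥ 4` there is a set of isometries, all in
the commutator subgroup, which is sharply transitive on the vectors with `Q = 1`. -/
theorem sharp_orth (F : Type) [Field F] [Finite F] [CharP F 2] (m : ℕ) (hm : Even m)
    (h4 : 4 ≤ m) :
    ∃ A : Set (orth m F), (∀ a ∈ A, a.1 ∈ Omega m F) ∧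
      ∀ c d : Hyp m F, Q c = 1 → Q d = 1 →
        ∃! a : orth m F, a ∈ A ∧ a.1 c = d := by
  classical
  have : Fact (Nat.Prime 2) := ⟨Nat.prime_two⟩
  have : NeZero m := ⟨by omega⟩
  have : NeZero (m - 1) := ⟨by omega⟩
  let K := FiniteField.Extension F 2 m
  let E := FiniteField.Extension F 2 (m - 1)
  have hKf : finrank F K = m := FiniteField.finrank_extension F 2 m
  have hEf : finrank F E = m - 1 := FiniteField.finrank_extension F 2 (m - 1)
  have hr : Odd (finrank F E) := by
    rw [hEf]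
    obtain ⟨j, hj⟩ := hm
    exact ⟨j - 1, by omega⟩
  have hK : finrank F K = finrank F E + 1 := by rw [hKf, hEf]; omega
  have hF2 : 2 ≤ Nat.card F := Finite.one_lt_card
  have hE : 4 < Nat.card E := by
    have h1 : Nat.card E = Nat.card F ^ (m - 1) := FiniteField.natCard_extension F 2 (m - 1)
    rw [h1]
    calc 4 < 2 ^ 3 := by norm_num
      _ ≤ Nat.card F ^ 3 := Nat.pow_le_pow_left hF2 3
      _ ≤ Nat.card F ^ (m - 1) := Nat.pow_le_pow_right (by omega) (by omega)
  let ψ : K ≃ₗ[F] (E × F) := LinearEquiv.ofFinrankEq _ _ (by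
    rw [hK, Module.finrank_prod, Module.finrank_self])
  let φ : (Fin m → F) ≃ₗ[F] K := LinearEquiv.ofFinrankEq _ _ (by
    rw [hKf, Module.finrank_fin_fun])
  refine ⟨{a | ∃ (k : Kˣ) (s : E), a.1 = (el hE φ ψ k s).1}, ?_, ?_⟩
  · rintro a ⟨k, s, h⟩
    rw [h]
    exact (el hE φ ψ k s).2
  · intro c d hc hd
    obtain ⟨k, s, hks⟩ := sharp_exists hE hr hK φ ψ c d hc hd
    refine ⟨⟨(el hE φ ψ k s).1, Omega_le (el hE φ ψ k s).2⟩, ⟨⟨k, s, rfl⟩, hks⟩, ?_⟩
    rintro a ⟨⟨k', s', h⟩, ha⟩
    have ha' : pt (el hE φ ψ k' s') c = d := by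
      show (el hE φ ψ k' s').1 c = d
      rw [← h]
      exact ha
    obtain ⟨h1, h2⟩ := sharp_unique hE hr φ ψ c hc (ha'.trans hks.symm)
    apply Subtype.ext
    show a.1 = (el hE φ ψ k s).1
    rw [h, h1, h2]

end Pool.Agent.NS98.K
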