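import Pool.Agent.NS98.Sharp26

/-!
# The groups `Sp(2m, 2)`: from a set of isometries sharply transitive on `{Q = 1}` to the two-sided
action of the symplectic group
-/

set_option autoImplicit false

namespace Pool.Agent.NS98

open Finset

section Def

variable (m : ℕ) (F : Type) [Field F]

variable {m F} in
/-- The standard alternating form `∑ (x_i y'_i - y_i x'_i)`. -/
def symp (v w : Hyp m F) : F := ∑ i, (v.1 i * w.2 i - v.2 i * w.1 i)

/-- The symplectic group `Sp(2 m, F)`: the linear permutations of `F ^ m × F ^ m` preserving the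
alternating form `∑ (x_i y'_i - y_i x'_i)`. -/
def Sp : Subgroup (Equiv.Perm (Hyp m F)) where
  carrier := {s | (∀ v w, s (v + w) = s v + s w) ∧ (∀ (c : F) (v : Hyp m F), s (c • v) = c • s v) ∧
    ∀ v w, symp (s v) (s w) = symp v w}
  one_mem' := ⟨fun _ _ => rfl, fun _ _ => rfl, fun _ _ => rfl⟩
  mul_mem' := by
    rintro a b ⟨h1, h2, h3⟩ ⟨k1, k2, k3⟩
    refine ⟨fun v w => ?_, fun c v => ?_, fun v w => ?_⟩
    · rw [Equiv.Perm.mul_apply, k1, h1]; rfl
    · rw [Equiv.Perm.mul_apply, k2, h2]; rfl
    · rw [Equiv.Perm.mul_apply, Equiv.Perm.mul_apply, h3, k3]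
  inv_mem' := by
    rintro a ⟨h1, h2, h3⟩
    refine ⟨fun v w => ?_, fun c v => ?_, fun v w => ?_⟩
    · rw [Equiv.Perm.inv_eq_iff_eq, h1]; simp
    · rw [Equiv.Perm.inv_eq_iff_eq, h2]; simp
    · rw [← h3]
      have h : ∀ z, a (a⁻¹ z) = z := fun z => a.apply_symm_apply z
      rw [h, h]

end Def

namespace SpType

variable {m : ℕ}

/-- The field with two elements. -/
abbrev F2 : Type := ZMod 2

lemma symp_add_left (u v w : Hyp m F2) : symp (u + v) w = symp u w + symp v w := by
  unfold symp
  rw [← sum_add_distrib]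
  refine sum_congr rfl fun i _ => ?_
  simp only [Prod.fst_add, Prod.snd_add, Pi.add_apply]
  ring

lemma symp_add_right (u v w : Hyp m F2) : symp u (v + w) = symp u v + symp u w := by
  unfold symp
  rw [← sum_add_distrib]
  refine sum_congr rfl fun i _ => ?_
  simp only [Prod.fst_add, Prod.snd_add, Pi.add_apply]
  ring

lemma symp_smul_left (c : F2) (v w : Hyp m F2) : symp (c • v) w = c * symp v w := by
  unfold symp
  rw [mul_sum]
  refine sum_congr rfl fun i _ => ?_
  simp only [Prod.smul_fst, Prod.smul_snd, Pi.smul_apply, smul_eq_mul]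
  ring

lemma symp_smul_right (c : F2) (v w : Hyp m F2) : symp v (c • w) = c * symp v w := by
  unfold symp
  rw [mul_sum]
  refine sum_congr rfl fun i _ => ?_
  simp only [Prod.smul_fst, Prod.smul_snd, Pi.smul_apply, smul_eq_mul]
  ring

lemma symp_self (v : Hyp m F2) : symp v v = 0 := by
  unfold symp
  refine sum_eq_zero fun i _ => ?_
  ring

lemma symp_comm (v w : Hyp m F2) : symp v w = symp w v := by
  have h := symp_self (v + w)
  rw [symp_add_left, symp_add_right, symp_add_right, symp_self, symp_self, zero_add, add_zero] at h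
  exact (CharTwo.add_eq_zero.1 h)

lemma Q_add (v w : Hyp m F2) : Q (v + w) = Q v + Q w + symp v w := by
  unfold Q symp
  rw [← sum_add_distrib, ← sum_add_distrib]
  refine sum_congr rfl fun i _ => ?_
  simp only [Prod.fst_add, Prod.snd_add, Pi.add_apply]
  rw [CharTwo.sub_eq_add]
  ring

/-- The quadratic form `Q(v) + (v, c)`. -/
def q (c v : Hyp m F2) : F2 := Q v + symp v c

lemma q_add (c v w : Hyp m F2) : q c (v + w) = q c v + q c w + symp v w := by
  unfold q
  rw [Q_add, symp_add_left]
  ring

lemma symp_single_left (i : Fin m) (c : Hyp m F2) : symp (Pi.single i 1, 0) c = c.2 i := by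
  unfold symp
  rw [sum_eq_single i]
  · simp
  · intro j _ hj; simp [Pi.single_eq_of_ne hj]
  · intro h; exact absurd (mem_univ i) h

lemma symp_single_right (i : Fin m) (c : Hyp m F2) : symp (0, Pi.single i 1) c = c.1 i := by
  unfold symp
  rw [sum_eq_single i]
  · simp [CharTwo.neg_eq]
  · intro j _ hj; simp [Pi.single_eq_of_ne hj]
  · intro h; exact absurd (mem_univ i) h

lemma symp_left_inj {c d : Hyp m F2} (h : ∀ v, symp v c = symp v d) : c = d := by
  refine Prod.ext (funext fun i => ?_) (funext fun i => ?_)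
  · rw [← symp_single_right, h, symp_single_right]
  · rw [← symp_single_left, h, symp_single_left]

lemma q_inj {c d : Hyp m F2} (h : ∀ v, q c v = q d v) : c = d :=
  symp_left_inj fun v => add_left_cancel (h v)

/-- A function with polar form `symp` is one of the forms `q c`. -/
lemma exists_q (φ : Hyp m F2 → F2) (h : ∀ v w, φ (v + w) = φ v + φ w + symp v w) :
    ∃ c, ∀ v, φ v = q c v := by
  have h0 : φ 0 = 0 := by
    have := h 0 0
    rw [add_zero, symp_self, add_zero] at this
    exact left_eq_add.1 this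
  let ψ : Hyp m F2 →+ F2 :=
    { toFun := fun v => φ v + Q v
      map_zero' := by
        have : Q (0 : Hyp m F2) = 0 := by unfold Q; simp
        rw [h0, this, add_zero]
      map_add' := by
        intro v w
        rw [h, Q_add]
        have h2 : (2 : F2) = 0 := rfl
        linear_combination symp v w * h2 }
  let ψl : Hyp m F2 →ₗ[F2] F2 := ψ.toZModLinearMap 2
  let c : Hyp m F2 := (fun i => ψl (0, Pi.single i 1), fun i => ψl (Pi.single i 1, 0))
  refine ⟨c, ?_⟩
  have key : ∀ v : Hyp m F2, ψl v = symp v c := by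
    intro v
    have h1 : v = ∑ i, (v.1 i • ((Pi.single i 1, 0) : Hyp m F2)
        + v.2 i • ((0, Pi.single i 1) : Hyp m F2)) := by
      refine Prod.ext (funext fun j => ?_) (funext fun j => ?_)
      · rw [Prod.fst_sum, Finset.sum_apply, sum_eq_single j]
        · simp
        · intro k _ hk; simp [Pi.single_eq_of_ne' hk]
        · intro h; exact absurd (mem_univ j) h
      · rw [Prod.snd_sum, Finset.sum_apply, sum_eq_single j]
        · simp
        · intro k _ hk; simp [Pi.single_eq_of_ne' hk]
        · intro h; exact absurd (mem_univ j) h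
    conv_lhs => rw [h1]
    rw [map_sum]
    unfold symp
    refine sum_congr rfl fun i _ => ?_
    rw [map_add, map_smul, map_smul, CharTwo.sub_eq_add]
    rfl
  intro v
  have h2 : φ v + Q v = symp v c := key v
  unfold q
  have h3 : (2 : F2) = 0 := rfl
  linear_combination h2 - Q v * h3

/-- The sign `(-1) ^ x`. -/
def χ (x : F2) : ℤ := if x = 0 then 1 else -1

lemma χ_add (x y : F2) : χ (x + y) = χ x * χ y := by revert x y; decide

lemma χ_sum {ι : Type} (s : Finset ι) (f : ι → F2) : χ (∑ i ∈ s, f i) = ∏ i ∈ s, χ (f i) := by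
  classical
  induction s using Finset.induction_on with
  | empty => rfl
  | insert a s ha ih => rw [sum_insert ha, prod_insert ha, χ_add, ih]

lemma sum_χ_Q : ∑ v : Hyp m F2, χ (Q v) = 2 ^ m := by
  have h1 : ∑ v : Hyp m F2, χ (Q v) = ∑ p : Fin m → F2 × F2, ∏ i, χ ((p i).1 * (p i).2) := by
    refine Fintype.sum_equiv
      ({ toFun := fun v i => (v.1 i, v.2 i)
         invFun := fun p => (fun i => (p i).1, fun i => (p i).2)
         left_inv := fun v => rfl
         right_inv := fun p => rfl } : Hyp m F2 ≃ (Fin m → F2 × F2)) _ _ ?_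
    intro v
    unfold Q
    rw [χ_sum]
    rfl
  rw [h1]
  have h2 := Finset.prod_univ_sum (κ := fun _ : Fin m => F2 × F2)
    (fun _ => (Finset.univ : Finset (F2 × F2))) (fun _ x => χ (x.1 * x.2))
  rw [Fintype.piFinset_univ] at h2
  rw [← h2]
  have h3 : ∑ x : F2 × F2, χ (x.1 * x.2) = 2 := by decide
  rw [h3, prod_const, card_univ, Fintype.card_fin]

lemma sum_χ_q (c : Hyp m F2) : ∑ v, χ (q c v) = χ (Q c) * 2 ^ m := by
  rw [← sum_χ_Q, mul_sum]
  refine Fintype.sum_equiv (Equiv.addRight c) _ _ ?_
  intro v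
  show χ (q c v) = χ (Q c) * χ (Q (v + c))
  rw [← χ_add, Q_add]
  congr 1
  unfold q
  have h3 : (2 : F2) = 0 := rfl
  linear_combination (-(Q c)) * h3

lemma χ_inj {x y : F2} (h : χ x = χ y) : x = y := by revert x y; decide

/-- The symplectic group permutes the forms `q c`, and preserves `Q c`. -/
lemma exists_move (g : Sp m F2) (c : Hyp m F2) :
    ∃ d, Q d = Q c ∧ ∀ v, q c (g.1⁻¹ v) = q d v := by
  obtain ⟨d, hd⟩ := exists_q (fun v => q c (g.1⁻¹ v)) (by
    intro v w
    show q c (g.1⁻¹ (v + w)) = _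
    rw [((Sp m F2).inv_mem g.2).1, q_add]
    congr 1
    exact ((Sp m F2).inv_mem g.2).2.2 v w)
  refine ⟨d, ?_, hd⟩
  have h1 : ∑ v, χ (q d v) = ∑ v, χ (q c v) := by
    refine Fintype.sum_equiv g.1⁻¹ _ _ ?_
    intro v
    rw [← hd]
  rw [sum_χ_q, sum_χ_q] at h1
  exact χ_inj (mul_right_cancel₀ (pow_ne_zero m two_ne_zero) h1)

lemma orth_le_Sp : orth m F2 ≤ Sp m F2 := by
  intro g hg
  refine ⟨hg.1, hg.2.1, fun v w => ?_⟩
  have h := hg.2.2 (v + w)
  rw [hg.1, Q_add, Q_add, hg.2.2, hg.2.2] at h
  exact add_left_cancel h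

/-- The transvection `x ↦ x + (x, v) v`. -/
def trans (v : Hyp m F2) : Hyp m F2 →ₗ[F2] Hyp m F2 where
  toFun x := x + symp x v • v
  map_add' x y := by rw [symp_add_left, add_smul]; abel
  map_smul' a x := by
    rw [symp_smul_left, smul_add, mul_smul]
    rfl

lemma trans_trans (v x : Hyp m F2) : trans v (trans v x) = x := by
  show (x + symp x v • v) + symp (x + symp x v • v) v • v = x
  rw [symp_add_left, symp_smul_left, symp_self, mul_zero, add_zero, add_assoc, ← add_smul,
    CharTwo.add_self_eq_zero, zero_smul, add_zero]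

/-- The transvection as an element of the symplectic group. -/
def transE (v : Hyp m F2) : Sp m F2 :=
  ⟨(LinearEquiv.ofInvolutive (trans v) (trans_trans v)).toEquiv, (trans v).map_add,
    (trans v).map_smul, by
    intro x y
    show symp (x + symp x v • v) (y + symp y v • v) = symp x y
    rw [symp_add_left, symp_add_right, symp_add_right, symp_smul_left, symp_smul_left,
      symp_smul_right, symp_smul_right, symp_self, symp_comm v y]
    have h3 : (2 : F2) = 0 := rfl
    linear_combination (symp y v * symp x v) * h3⟩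

lemma transE_apply (v x : Hyp m F2) :
    (transE v).1 x = x + symp x v • v := rfl

lemma sq_self (x : F2) : x * x = x := by revert x; decide

lemma q_smul (c v : Hyp m F2) (a : F2) : q c (a • v) = a * q c v := by
  have : ∀ a : F2, a = 0 ∨ a = 1 := by decide
  rcases this a with h | h
  · subst h
    rw [zero_smul, zero_mul]
    unfold q Q symp
    simp
  · subst h
    rw [one_smul, one_mul]

lemma q_trans (c v x : Hyp m F2) :
    q c ((transE v).1 x) = q c x + symp x v * (q c v + 1) := by
  rw [transE_apply, q_add, q_smul, symp_smul_right]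
  have := sq_self (symp x v)
  linear_combination this

/-- The stabilizer of the form `q c` in the symplectic group. -/
def stab (c : Hyp m F2) : Subgroup (Sp m F2) where
  carrier := {g | ∀ v, q c (g.1 v) = q c v}
  one_mem' := fun v => rfl
  mul_mem' := by
    intro a b ha hb v
    show q c (a.1 (b.1 v)) = q c v
    rw [ha, hb]
  inv_mem' := by
    intro a ha v
    have h := ha (a.1⁻¹ v)
    have h2 : a.1 (a.1⁻¹ v) = v :=
      a.1.apply_symm_apply v
    rw [h2] at h
    exact h.symm

/-- If a set of isometries of `Q` is sharply transitive on the vectors with `Q = 1`, then the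
two-sided action of `Sp(2m, 2)` is non-synchronizing. -/
theorem not_sync_of_isometries (hm : 2 ≤ m) (A : Set (orth m F2))
    (hA : ∀ c d : Hyp m F2, Q c = 1 → Q d = 1 →
      ∃! a : orth m F2, a ∈ A ∧ a.1 c = d) :
    ¬ Synchronizing (twoSided (Sp m F2)) := by
  let c0 : Hyp m F2 := (Pi.single ⟨0, by omega⟩ 1, Pi.single ⟨0, by omega⟩ 1)
  have hc0 : Q c0 = 1 := by
    show ∑ i, (Pi.single (⟨0, by omega⟩ : Fin m) (1 : F2) : Fin m → F2) i
      * (Pi.single (⟨0, by omega⟩ : Fin m) (1 : F2) : Fin m → F2) i = 1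
    rw [sum_eq_single ⟨0, by omega⟩]
    · simp
    · intro j _ hj; simp [Pi.single_eq_of_ne hj]
    · intro h; exact absurd (mem_univ _) h
  have hsymp1 : symp (Pi.single ⟨0, by omega⟩ 1, 0) c0 = 1 := by
    rw [symp_single_left]
    show (Pi.single (⟨0, by omega⟩ : Fin m) (1 : F2) : Fin m → F2) ⟨0, by omega⟩ = 1
    simp
  refine not_sync_of_sharp (stab c0) ?_ ?_ {a | ∃ b ∈ A, a = ⟨b, orth_le_Sp b.2⟩} ?_
  · intro h
    have h1 : transE c0 ∈ stab c0 := by
      intro v
      rw [q_trans]
      have : q c0 c0 = 1 := by unfold q; rw [symp_self, hc0, add_zero]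
      rw [this, CharTwo.add_self_eq_zero, mul_zero, add_zero]
    rw [h, Subgroup.mem_bot] at h1
    have h2 := congrArg (fun g : Sp m F2 => g.1
      (Pi.single ⟨0, by omega⟩ 1, 0)) h1
    simp only [transE_apply, hsymp1, one_smul] at h2
    have h3 : c0 = 0 := by
      have h4 : ((Pi.single ⟨0, by omega⟩ 1, 0) : Hyp m F2) + c0 = (Pi.single ⟨0, by omega⟩ 1, 0) :=
        h2
      exact left_eq_add.1 h4.symm
    rw [h3] at hc0
    unfold Q at hc0
    simp at hc0
  · intro h
    have h1 : transE (Pi.single ⟨1, by omega⟩ 1, 0) ∈ stab c0 := by rw [h]; trivial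
    have h2 := h1 (0, Pi.single ⟨1, by omega⟩ 1)
    rw [q_trans] at h2
    have h3 : symp ((0, Pi.single ⟨1, by omega⟩ 1) : Hyp m F2) (Pi.single ⟨1, by omega⟩ 1, 0) = 1 := by
      rw [symp_single_right]
      simp
    have h4 : q c0 (Pi.single ⟨1, by omega⟩ 1, 0) = 0 := by
      unfold q
      rw [symp_single_left]
      have h5 : c0.2 ⟨1, by omega⟩ = 0 := by
        show (Pi.single (⟨0, by omega⟩ : Fin m) (1 : F2) : Fin m → F2) ⟨1, by omega⟩ = 0
        rw [Pi.single_eq_of_ne]
        intro h
        have := congrArg Fin.val h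
        simp at this
      have h6 : Q ((Pi.single ⟨1, by omega⟩ 1, 0) : Hyp m F2) = 0 := by unfold Q; simp
      rw [h5, h6, add_zero]
    rw [h3, h4, zero_add, mul_one] at h2
    exact one_ne_zero (left_eq_add.1 h2.symm)
  · intro s k
    obtain ⟨x, hx, hxq⟩ := exists_move k c0
    obtain ⟨y, hy, hyq⟩ := exists_move s x
    rw [hc0] at hx
    rw [hx] at hy
    obtain ⟨b, ⟨hbA, hb⟩, huniq⟩ := hA x y hx hy
    have key : ∀ b : orth m F2, (k⁻¹ * ((⟨b, orth_le_Sp b.2⟩ : Sp m F2)⁻¹ * s) * k ∈ stab c0) ↔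
        b.1 x = y := by
      intro b
      have e1 : ∀ v, q x (b.1⁻¹ v)
          = q (b.1 x) v := by
        intro v
        unfold q
        have h1 : Q (b.1⁻¹ v) = Q v := ((orth m F2).inv_mem b.2).2.2 v
        have h2 : symp (b.1⁻¹ v) x
            = symp v (b.1 x) := by
          rw [← (orth_le_Sp b.2).2.2]
          congr 1
          exact b.1.apply_symm_apply v
        rw [h1, h2]
      constructor
      · intro h
        apply q_inj
        intro v
        rw [← e1, ← hyq, ← hxq, ← hxq]
        have h1 := h (k.1⁻¹ (s.1⁻¹ v))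
        rw [← h1]
        show q c0 (k.1⁻¹ (b.1⁻¹ v))
          = q c0 (k.1⁻¹ (b.1⁻¹
            (s.1 (k.1
              (k.1⁻¹ (s.1⁻¹ v))))))
        have h3 : k.1
              (k.1⁻¹ (s.1⁻¹ v))
            = s.1⁻¹ v :=
          k.1.apply_symm_apply _
        have h4 : s.1 (s.1⁻¹ v) = v :=
          s.1.apply_symm_apply _
        rw [h3, h4]
      · intro h v
        show q c0 (k.1⁻¹ (b.1⁻¹
            (s.1 (k.1 v)))) = q c0 v
        rw [hxq, e1, h, ← hyq]
        have h4 : s.1⁻¹ (s.1
            (k.1 v)) = k.1 v :=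
          s.1.symm_apply_apply _
        rw [h4, ← hxq]
        congr 1
        exact k.1.symm_apply_apply _
    refine ⟨⟨b, orth_le_Sp b.2⟩, ⟨⟨b, hbA, rfl⟩, (key b).2 hb⟩, ?_⟩
    rintro a ⟨⟨b', hb'A, rfl⟩, h⟩
    have := huniq b' ⟨hb'A, (key b').1 h⟩
    rw [this]

/-- The two-sided action of `Sp(2m, 2)`, `m ≥ 4` even, is non-synchronizing. -/
theorem sp_even (m : ℕ) (hm : Even m) (h4 : 4 ≤ m) : ¬ Synchronizing (twoSided (Sp m F2)) := by
  obtain ⟨A, -, hA⟩ := K.sharp_orth F2 m hm h4
  exact not_sync_of_isometries (by omega) A hA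

end SpType

end Pool.Agent.NS98
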